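import Mathlib

set_option autoImplicit false

/-!
# Wide-(s) type sequences in non weakly compact convex sets

For a closed bounded convex set `C` of a Banach space which is not weakly compact we construct a
sequence `x` in `C`, a bidual element `z` at distance `≥ d > 0` from the space and finite norming
sets on which the tails of `x` approximate `z`.
-/

open Metric Set Filter Topology Bornology

namespace Pool.Agent.X301

variable {X : Type*} [NormedAddCommGroup X] [NormedSpace ℝ X]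

theorem norming_aux (V : Type*) [NormedAddCommGroup V] [NormedSpace ℝ V]
    [FiniteDimensional ℝ V] {W : Type*} (ev : W → V → ℝ) (hc : ∀ w, Continuous (ev w))
    (h : ∀ e : V, ‖e‖ = 1 → ∃ w, 1 / 2 < |ev w e|) :
    ∃ t : Set W, t.Finite ∧ ∀ e : V, ‖e‖ = 1 → ∃ w ∈ t, 1 / 2 < |ev w e| := by
  classical
  have hprop : ProperSpace V := FiniteDimensional.proper ℝ V
  have hcomp : IsCompact {e : V | ‖e‖ = 1} := by
    refine Metric.isCompact_of_isClosed_isBounded (isClosed_eq continuous_norm continuous_const) ?_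
    refine isBounded_iff_forall_norm_le.2 ⟨1, fun e he => le_of_eq he⟩
  obtain ⟨t, ht⟩ := hcomp.elim_finite_subcover (fun w : W => {e : V | 1 / 2 < |ev w e|})
    (fun w => isOpen_lt continuous_const (hc w).abs) (by
      intro e he
      obtain ⟨w, hw⟩ := h e he
      exact mem_iUnion.2 ⟨w, hw⟩)
  refine ⟨t, t.finite_toSet, fun e he => ?_⟩
  have := ht (show e ∈ {e : V | ‖e‖ = 1} from he)
  simp only [mem_iUnion] at this
  obtain ⟨w, hw, h2⟩ := this
  exact ⟨w, hw, h2⟩

/-- finite norming sets for finite dimensional subspaces of a dual. -/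
theorem exists_norming {W : Type*} [NormedAddCommGroup W] [NormedSpace ℝ W]
    (E : Submodule ℝ (StrongDual ℝ W)) [FiniteDimensional ℝ E] :
    ∃ F : Finset W, (∀ φ ∈ F, ‖φ‖ ≤ 1) ∧ ∀ e ∈ E, ∃ φ ∈ F, ‖e‖ ≤ 2 * |e φ| := by
  classical
  have hcont : ∀ w : W, Continuous (fun e : E => (e : StrongDual ℝ W) w) := by
    intro w
    exact ((ContinuousLinearMap.apply ℝ ℝ w).continuous.comp continuous_subtype_val)
  obtain ⟨t, ht, ht2⟩ := norming_aux E (W := {w : W // ‖w‖ ≤ 1})
    (fun w e => (e : StrongDual ℝ W) w.1) (fun w => hcont w.1) (by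
      intro e he
      have hn : ‖(e : StrongDual ℝ W)‖ = 1 := he
      obtain ⟨φ, h1, h2⟩ := (e : StrongDual ℝ W).exists_lt_apply_of_lt_opNorm
        (r := 1 / 2) (by rw [hn]; norm_num)
      exact ⟨⟨φ, h1.le⟩, by simpa [Real.norm_eq_abs] using h2⟩)
  refine ⟨insert 0 (ht.toFinset.image Subtype.val), ?_, ?_⟩
  · intro ψ hψ
    rcases Finset.mem_insert.1 hψ with rfl | hψ
    · simp
    · obtain ⟨e, -, rfl⟩ := Finset.mem_image.1 hψ
      exact e.2
  · intro e he
    rcases eq_or_ne e 0 with rfl | hne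
    · exact ⟨0, Finset.mem_insert_self _ _, by simp⟩
    · have hpos : 0 < ‖e‖ := norm_pos_iff.2 hne
      obtain ⟨i, hi, hlt⟩ := ht2 ⟨‖e‖⁻¹ • e, E.smul_mem _ he⟩ (by
        change ‖‖e‖⁻¹ • e‖ = 1
        rw [norm_smul, norm_inv, norm_norm, inv_mul_cancel₀ hpos.ne'])
      refine ⟨i.1, Finset.mem_insert_of_mem (Finset.mem_image_of_mem _ (ht.mem_toFinset.2 hi)), ?_⟩
      change 1 / 2 < |‖e‖⁻¹ * e i.1| at hlt
      rw [abs_mul, abs_inv, abs_norm] at hlt
      have h2 : ‖e‖ * (1 / 2) < |e i.1| := by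
        have := mul_lt_mul_of_pos_left hlt hpos
        rwa [← mul_assoc, mul_inv_cancel₀ hpos.ne', one_mul] at this
      linarith

open NormedSpace in
/-- a bounded closed convex set which is not weakly compact has a weak-star closure point outside
the space. -/
theorem exists_bidual_point (C : Set X) (hb : IsBounded C) (hcl : IsClosed C)
    (hcv : Convex ℝ C) (hw : ¬ IsCompact (toWeakSpace ℝ X '' C)) :
    ∃ z : StrongDual ℝ (StrongDual ℝ X), z ∉ range (inclusionInDoubleDual ℝ X) ∧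
      ∀ (F : Finset (StrongDual ℝ X)) (δ : ℝ), 0 < δ → ∃ x ∈ C, ∀ φ ∈ F, |φ x - z φ| < δ := by
  by_contra hcon
  push Not at hcon
  apply hw
  have hclos : closure (toWeakSpace ℝ X '' C) = toWeakSpace ℝ X '' C := by
    rw [← hcv.toWeakSpace_closure ℝ, hcl.closure_eq]
  rw [← hclos]
  apply isCompact_closure_of_isBounded ℝ X
  · have : (toWeakSpace ℝ X) ⁻¹' (toWeakSpace ℝ X '' C) = C :=
      (toWeakSpace ℝ X).injective.preimage_image C
    rw [this]; exact hb
  · intro w hwc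
    by_contra hwr
    have hz : StrongDual.toWeakDual.symm w ∉ range (inclusionInDoubleDual ℝ X) := by
      rintro ⟨v, hv⟩
      apply hwr
      refine ⟨toWeakSpace ℝ X v, ?_⟩
      have : StrongDual.toWeakDual (inclusionInDoubleDual ℝ X v) = w := by rw [hv]; simp
      rw [← this]
      rfl
    obtain ⟨F, δ, hδ, hF⟩ := hcon _ hz
    have hopen : IsOpen {u : WeakDual ℝ (StrongDual ℝ X) | ∀ φ ∈ F, |u φ - w φ| < δ} := by
      have : {u : WeakDual ℝ (StrongDual ℝ X) | ∀ φ ∈ F, |u φ - w φ| < δ} =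
          ⋂ φ ∈ F, {u : WeakDual ℝ (StrongDual ℝ X) | |u φ - w φ| < δ} := by
        ext u; simp
      rw [this]
      refine isOpen_biInter_finset fun φ _ => ?_
      refine isOpen_lt ?_ continuous_const
      exact ((WeakDual.eval_continuous φ).sub continuous_const).abs
    obtain ⟨u, hu1, hu2⟩ := mem_closure_iff.1 hwc _ hopen (by
      intro φ _; simpa using hδ)
    obtain ⟨v, ⟨x, hx, rfl⟩, rfl⟩ := hu2
    obtain ⟨φ, hφ, hle⟩ := hF x hx
    have := hu1 φ hφ
    exact absurd this (not_lt.2 hle)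

theorem dist_aux {V : Type*} [NormedAddCommGroup V] {S : Set V} (hcl : IsClosed S)
    (hne : S.Nonempty) {z : V} (hz : z ∉ S) : ∃ d : ℝ, 0 < d ∧ ∀ s ∈ S, d ≤ ‖z - s‖ := by
  refine ⟨infDist z S, (hcl.notMem_iff_infDist_pos hne).1 hz, fun s hs => ?_⟩
  rw [← dist_eq_norm]
  exact infDist_le_dist_of_mem hs

open NormedSpace in
/-- distance from a bidual point outside the space to the space. -/
theorem exists_dist [CompleteSpace X] (z : StrongDual ℝ (StrongDual ℝ X))
    (hz : z ∉ range (inclusionInDoubleDual ℝ X)) :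
    ∃ d : ℝ, 0 < d ∧ ∀ v : X, d ≤ ‖z - inclusionInDoubleDual ℝ X v‖ := by
  have hiso : Isometry (inclusionInDoubleDual ℝ X) :=
    (inclusionInDoubleDualLi (𝕜 := ℝ) (E := X)).isometry
  obtain ⟨d, hd, h⟩ := dist_aux hiso.isClosedEmbedding.isClosed_range ⟨_, 0, rfl⟩ hz
  exact ⟨d, hd, fun v => h _ ⟨v, rfl⟩⟩

open NormedSpace in
/-- the subspace spanned by `z` and the first `n` terms of `x`. -/
noncomputable def initSpan (z : StrongDual ℝ (StrongDual ℝ X)) (x : ℕ → X) (n : ℕ) :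
    Submodule ℝ (StrongDual ℝ (StrongDual ℝ X)) :=
  Submodule.span ℝ (insert z ((fun i => inclusionInDoubleDual ℝ X (x i)) '' (Iio n)))

open NormedSpace in
/-- the basic sequence. -/
theorem exists_wide_seq [CompleteSpace X] (C : Set X) (hb : IsBounded C) (hcl : IsClosed C)
    (hcv : Convex ℝ C) (hw : ¬ IsCompact (toWeakSpace ℝ X '' C)) :
    ∃ (z : StrongDual ℝ (StrongDual ℝ X)) (d : ℝ) (x : ℕ → X), 0 < d ∧
      (∀ v : X, d ≤ ‖z - inclusionInDoubleDual ℝ X v‖) ∧ (∀ n, x n ∈ C) ∧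
      ∀ n, ∃ F : Finset (StrongDual ℝ X), (∀ φ ∈ F, ‖φ‖ ≤ 1) ∧
        (∀ e ∈ initSpan z x n, ∃ φ ∈ F, ‖e‖ ≤ 2 * |e φ|) ∧
        ∀ i, n ≤ i → ∀ φ ∈ F, |φ (x i) - z φ| ≤ d / 16 * (1 / 2) ^ i := by
  classical
  obtain ⟨z, hz, happ⟩ := exists_bidual_point C hb hcl hcv hw
  obtain ⟨d, hd, hdist⟩ := exists_dist z hz
  -- the states: a finite set of bidual vectors, a finite norming set, a point
  let St := {p : Finset (StrongDual ℝ (StrongDual ℝ X)) × Finset (StrongDual ℝ X) × X //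
    (∀ φ ∈ p.2.1, ‖φ‖ ≤ 1) ∧ z ∈ p.1 ∧
    (∀ e ∈ Submodule.span ℝ (p.1 : Set (StrongDual ℝ (StrongDual ℝ X))),
      ∃ φ ∈ p.2.1, ‖e‖ ≤ 2 * |e φ|)}
  have hinit : Nonempty St := by
    obtain ⟨F, hF1, hF2⟩ := exists_norming (Submodule.span ℝ
      (({z} : Finset (StrongDual ℝ (StrongDual ℝ X))) : Set (StrongDual ℝ (StrongDual ℝ X))))
    exact ⟨⟨({z}, F, 0), hF1, by simp, hF2⟩⟩
  have hstep : ∀ (n : ℕ) (s : St), ∃ s' : St, s.1.1 ⊆ s'.1.1 ∧ s.1.2.1 ⊆ s'.1.2.1 ∧
      inclusionInDoubleDual ℝ X s'.1.2.2 ∈ s'.1.1 ∧ s'.1.2.2 ∈ C ∧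
      ∀ φ ∈ s.1.2.1, |φ s'.1.2.2 - z φ| ≤ d / 16 * (1 / 2) ^ n := by
    intro n s
    obtain ⟨x, hxC, hx⟩ := happ s.1.2.1 (d / 16 * (1 / 2) ^ n) (by positivity)
    set E' := insert (inclusionInDoubleDual ℝ X x) s.1.1 with hE'
    obtain ⟨F, hF1, hF2⟩ := exists_norming (Submodule.span ℝ
      (E' : Set (StrongDual ℝ (StrongDual ℝ X))))
    refine ⟨⟨(E', s.1.2.1 ∪ F, x), ?_, Finset.mem_insert_of_mem s.2.2.1, ?_⟩, ?_, ?_, ?_, hxC, ?_⟩
    · intro φ hφ
      rcases Finset.mem_union.1 hφ with h | h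
      · exact s.2.1 φ h
      · exact hF1 φ h
    · intro e he
      obtain ⟨φ, hφ, h⟩ := hF2 e he
      exact ⟨φ, Finset.mem_union_right _ hφ, h⟩
    · exact Finset.subset_insert _ _
    · exact Finset.subset_union_left
    · exact Finset.mem_insert_self _ _
    · intro φ hφ
      exact (hx φ hφ).le
  choose next hE hF hJ hC happr using hstep
  let seq : ℕ → St := fun n => Nat.rec (Classical.choice hinit) (fun n s => next n s) n
  have hseq : ∀ n, seq (n + 1) = next n (seq n) := fun n => rfl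
  have hEm : Monotone (fun n => (seq n).1.1) := monotone_nat_of_le_succ fun n => by
    rw [hseq]; exact hE _ _
  have hFm : Monotone (fun n => (seq n).1.2.1) := monotone_nat_of_le_succ fun n => by
    rw [hseq]; exact hF _ _
  refine ⟨z, d, fun n => (seq (n + 1)).1.2.2, hd, hdist, fun n => ?_, fun n => ?_⟩
  · change (seq (n + 1)).1.2.2 ∈ C
    rw [hseq]; exact hC _ _
  · refine ⟨(seq n).1.2.1, (seq n).2.1, ?_, ?_⟩
    · intro e he
      apply (seq n).2.2.2 e
      refine Submodule.span_mono ?_ he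
      rintro w (rfl | ⟨i, hi, rfl⟩)
      · exact (seq n).2.2.1
      · have h1 : (seq (i + 1)).1.1 ⊆ (seq n).1.1 := hEm (Nat.succ_le_of_lt hi)
        apply h1
        change inclusionInDoubleDual ℝ X (seq (i + 1)).1.2.2 ∈ (seq (i + 1)).1.1
        rw [hseq]
        exact hJ _ _
    · intro i hi φ hφ
      have h1 : (seq n).1.2.1 ⊆ (seq i).1.2.1 := hFm hi
      have := happr i (seq i) φ (h1 hφ)
      rw [← hseq] at this
      exact this

end Pool.Agent.X301
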