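import Mathlib
import Pool.Agent.X301.WideS

set_option autoImplicit false

/-!
# Push-forward operators on sequences and their uniform boundedness
-/

open Metric Set Filter Topology Bornology NormedSpace

namespace Pool.Agent.X301

variable {X V : Type*} [NormedAddCommGroup X] [NormedSpace ℝ X] [NormedAddCommGroup V]
  [NormedSpace ℝ V]

/-- partial sums -/
noncomputable def PS (c : ℕ → ℝ) (n : ℕ) : ℝ := ∑ i ∈ Finset.range n, c i

/-- the operator multiplying the cumulative sums by `b`. -/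
noncomputable def Mop (b c : ℕ → ℝ) (n : ℕ) : ℝ := b (n + 1) * PS c (n + 1) - b n * PS c n

/-- the sum of the series with coefficients `c`. -/
noncomputable def SS (x : ℕ → X) (c : ℕ → ℝ) : X := ∑' i, c i • x i

theorem PS_zero (c : ℕ → ℝ) : PS c 0 = 0 := by simp [PS]

theorem PS_succ (c : ℕ → ℝ) (n : ℕ) : PS c (n + 1) = PS c n + c n := by
  simp [PS, Finset.sum_range_succ]

theorem PS_Mop (b c : ℕ → ℝ) (n : ℕ) : PS (Mop b c) n = b n * PS c n := by
  induction n with
  | zero => simp [PS_zero]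
  | succ n ih => rw [PS_succ, ih, Mop]; ring

theorem eq_of_PS {c c' : ℕ → ℝ} (h : ∀ n, PS c n = PS c' n) : c = c' := by
  funext n
  have h1 := h (n + 1)
  have h2 := h n
  rw [PS_succ, PS_succ] at h1
  linarith

theorem Mop_Mop (b b' c : ℕ → ℝ) : Mop b (Mop b' c) = Mop (fun n => b n * b' n) c := by
  apply eq_of_PS
  intro n
  rw [PS_Mop, PS_Mop, PS_Mop]; ring

theorem Mop_one (c : ℕ → ℝ) : Mop (fun _ => 1) c = c := by
  apply eq_of_PS
  intro n
  rw [PS_Mop]; ring

theorem PS_add (c c' : ℕ → ℝ) (n : ℕ) : PS (fun i => c i + c' i) n = PS c n + PS c' n := by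
  simp [PS, Finset.sum_add_distrib]

theorem PS_sub (c c' : ℕ → ℝ) (n : ℕ) : PS (fun i => c i - c' i) n = PS c n - PS c' n := by
  simp [PS, Finset.sum_sub_distrib]

theorem PS_smul (a : ℝ) (c : ℕ → ℝ) (n : ℕ) : PS (fun i => a * c i) n = a * PS c n := by
  simp [PS, Finset.mul_sum]

theorem Mop_sub (b c c' : ℕ → ℝ) :
    Mop b (fun i => c i - c' i) = fun i => Mop b c i - Mop b c' i := by
  apply eq_of_PS
  intro n
  rw [PS_Mop, PS_sub, PS_sub, PS_Mop, PS_Mop]; ring

theorem Mop_comb (b c c' : ℕ → ℝ) (a a' : ℝ) :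
    Mop b (fun i => a * c i + a' * c' i) = fun i => a * Mop b c i + a' * Mop b c' i := by
  apply eq_of_PS
  intro n
  rw [PS_Mop, PS_add, PS_add, PS_smul, PS_smul, PS_smul, PS_smul, PS_Mop, PS_Mop]; ring

/-- weights: nondecreasing with values in `[0,1]`. -/
structure Wt (b : ℕ → ℝ) : Prop where
  mono : Monotone b
  nonneg : ∀ n, 0 ≤ b n
  le_one : ∀ n, b n ≤ 1

theorem abs_PS_le {c : ℕ → ℝ} (hc : Summable c) (n : ℕ) : |PS c n| ≤ ∑' i, |c i| := by
  unfold PS
  refine (Finset.abs_sum_le_sum_abs _ _).trans ?_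
  exact hc.abs.sum_le_tsum _ (fun i _ => abs_nonneg _)

theorem summable_Mop {b c : ℕ → ℝ} (hb : Wt b) (hc : Summable c) : Summable (Mop b c) := by
  have h1 : Summable (fun n => b (n + 1) - b n) := by
    refine summable_of_sum_range_le (c := 1) (fun n => sub_nonneg.2 (hb.mono (Nat.le_succ n))) ?_
    intro n
    rw [Finset.sum_range_sub]
    linarith [hb.le_one n, hb.nonneg 0]
  have h2 : Summable (fun n => (b (n + 1) - b n) * (∑' i, |c i|) + |c n|) :=
    (h1.mul_right _).add hc.abs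
  refine Summable.of_norm_bounded h2 (fun n => ?_)
  have h3 : Mop b c n = (b (n + 1) - b n) * PS c (n + 1) + b n * c n := by
    rw [Mop, PS_succ]; ring
  rw [h3, Real.norm_eq_abs]
  have h4 : 0 ≤ b (n + 1) - b n := sub_nonneg.2 (hb.mono (Nat.le_succ n))
  calc |(b (n + 1) - b n) * PS c (n + 1) + b n * c n|
      ≤ |(b (n + 1) - b n) * PS c (n + 1)| + |b n * c n| := abs_add_le _ _
    _ = (b (n + 1) - b n) * |PS c (n + 1)| + b n * |c n| := by
        rw [abs_mul, abs_mul, abs_of_nonneg h4, abs_of_nonneg (hb.nonneg n)]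
    _ ≤ (b (n + 1) - b n) * (∑' i, |c i|) + 1 * |c n| := by
        gcongr
        · exact abs_PS_le hc _
        · exact hb.le_one n
    _ = _ := by ring

section bounds

variable [CompleteSpace X]

theorem summable_smul {x : ℕ → X} {B : ℝ} (hB : ∀ n, ‖x n‖ ≤ B) {c : ℕ → ℝ} (hc : Summable c) :
    Summable (fun i => c i • x i) := by
  refine Summable.of_norm_bounded (hc.abs.mul_right B) (fun i => ?_)
  rw [norm_smul, Real.norm_eq_abs]
  exact mul_le_mul_of_nonneg_left (hB i) (abs_nonneg _)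

/-- the mixed partial sums -/
noncomputable def AA (J : X →ₗᵢ[ℝ] V) (z : V) (x : ℕ → X) (c : ℕ → ℝ) (n : ℕ) : V :=
  J (∑ i ∈ Finset.range n, c i • x i) + (∑' i, c (i + n)) • z

/-- the subspace spanned by `z` and the first `n` terms of `x`. -/
noncomputable def iSpan (J : X →ₗᵢ[ℝ] V) (z : V) (x : ℕ → X) (n : ℕ) : Submodule ℝ V :=
  Submodule.span ℝ (insert z ((fun i => J (x i)) '' (Iio n)))

omit [CompleteSpace X] in
theorem AA_mem (J : X →ₗᵢ[ℝ] V) (z : V) (x : ℕ → X) (c : ℕ → ℝ) (n : ℕ) :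
    AA J z x c n ∈ iSpan J z x n := by
  unfold AA iSpan
  refine Submodule.add_mem _ ?_ (Submodule.smul_mem _ _ (Submodule.subset_span (mem_insert _ _)))
  rw [map_sum]
  refine Submodule.sum_mem _ fun i hi => ?_
  rw [map_smul]
  exact Submodule.smul_mem _ _ (Submodule.subset_span
    (mem_insert_of_mem _ ⟨i, Finset.mem_range.1 hi, rfl⟩))

omit [CompleteSpace X] in
theorem AA_succ_sub (J : X →ₗᵢ[ℝ] V) (z : V) (x : ℕ → X) {c : ℕ → ℝ}
    (hc : Summable c) (n : ℕ) :
    AA J z x c n - AA J z x c (n + 1) = c n • (z - J (x n)) := by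
  have h1 : ∑' i, c (i + n) = c n + ∑' i, c (i + (n + 1)) := by
    have := ((summable_nat_add_iff n).2 hc).tsum_eq_zero_add
    rw [this]
    simp only [zero_add]
    congr 2
    funext i
    congr 1
    ring
  unfold AA
  rw [h1, Finset.sum_range_succ, map_add, map_smul, add_smul, smul_sub]
  module

omit [CompleteSpace X] in
theorem AA_bound {x : ℕ → X} {B : ℝ} (hB : ∀ n, ‖x n‖ ≤ B)
    (J : X →ₗᵢ[ℝ] V) (z : V) {c : ℕ → ℝ} (hc : Summable c) (n : ℕ) :
    ‖AA J z x c n‖ ≤ (∑' i, |c i|) * B + (∑' i, |c i|) * ‖z‖ := by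
  unfold AA
  have hB0 : 0 ≤ B := (norm_nonneg _).trans (hB 0)
  refine (norm_add_le _ _).trans (add_le_add ?_ ?_)
  · rw [J.norm_map]
    refine (norm_sum_le _ _).trans ?_
    calc ∑ i ∈ Finset.range n, ‖c i • x i‖ ≤ ∑ i ∈ Finset.range n, |c i| * B := by
          refine Finset.sum_le_sum fun i _ => ?_
          rw [norm_smul, Real.norm_eq_abs]
          exact mul_le_mul_of_nonneg_left (hB i) (abs_nonneg _)
      _ = (∑ i ∈ Finset.range n, |c i|) * B := by rw [Finset.sum_mul]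
      _ ≤ _ := mul_le_mul_of_nonneg_right
          (hc.abs.sum_le_tsum _ (fun i _ => abs_nonneg _)) hB0
  · rw [norm_smul]
    refine mul_le_mul_of_nonneg_right ?_ (norm_nonneg _)
    have h1 : Summable (fun i => |c (i + n)|) := (summable_nat_add_iff n).2 hc.abs
    have h2 : ‖∑' i, c (i + n)‖ ≤ ∑' i, |c (i + n)| := by
      have := norm_tsum_le_tsum_norm (f := fun i => c (i + n)) (by simpa using h1)
      simpa using this
    refine h2.trans ?_
    have h3 := hc.abs.sum_add_tsum_nat_add n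
    have h4 : 0 ≤ ∑ i ∈ Finset.range n, |c i| := Finset.sum_nonneg fun i _ => abs_nonneg _
    linarith

/-- the data produced by `exists_wide_seq`. -/
structure Wide (J : X →ₗᵢ[ℝ] V) (z : V) (d : ℝ) (x : ℕ → X) (B : ℝ) : Prop where
  dpos : 0 < d
  dist : ∀ v : X, d ≤ ‖z - J v‖
  bdd : ∀ n, ‖x n‖ ≤ B
  app : ∀ n, ∃ F : Set (StrongDual ℝ V), (∀ φ ∈ F, ‖φ‖ ≤ 1) ∧
        (∀ e ∈ iSpan J z x n, ∃ φ ∈ F, ‖e‖ ≤ 2 * |φ e|) ∧
        ∀ i, n ≤ i → ∀ φ ∈ F, |φ (J (x i)) - φ z| ≤ d / 16 * (1 / 2) ^ i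

variable {J : X →ₗᵢ[ℝ] V} {z : V} {d : ℝ} {x : ℕ → X} {B : ℝ}

/-- key estimate. -/
theorem Wide.AA_le (h : Wide J z d x B) {c : ℕ → ℝ} (hc : Summable c) (n : ℕ) :
    ‖AA J z x c n‖ ≤ 4 * ‖SS x c‖ := by
  have hbd : BddAbove (range fun n => ‖AA J z x c n‖) :=
    ⟨_, by rintro _ ⟨n, rfl⟩; exact AA_bound h.bdd J z hc n⟩
  set M := ⨆ n, ‖AA J z x c n‖ with hM
  have hle : ∀ n, ‖AA J z x c n‖ ≤ M := fun n => le_ciSup hbd n
  have hM0 : 0 ≤ M := (norm_nonneg _).trans (hle 0)
  have hd := h.dpos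
  have hci : ∀ i, |c i| ≤ 2 * M / d := by
    intro i
    have h1 : |c i| * d ≤ ‖c i • (z - J (x i))‖ := by
      rw [norm_smul, Real.norm_eq_abs]
      exact mul_le_mul_of_nonneg_left (h.dist _) (abs_nonneg _)
    rw [← AA_succ_sub J z x hc i] at h1
    have h2 := norm_sub_le (AA J z x c i) (AA J z x c (i + 1))
    rw [le_div_iff₀ hd]
    linarith [hle i, hle (i + 1)]
  have hS := summable_smul h.bdd hc
  have key : ∀ n, ‖AA J z x c n‖ ≤ 2 * ‖SS x c‖ + M / 2 := by
    intro n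
    obtain ⟨F, hF1, hF2, hF3⟩ := h.app n
    obtain ⟨φ, hφ, hle2⟩ := hF2 _ (AA_mem J z x c n)
    have hsumφ : Summable (fun i => c i * φ (J (x i))) := by
      have := (hS.mapL J.toContinuousLinearMap).mapL φ
      simpa [smul_eq_mul] using this
    have hφS : φ (J (SS x c)) = ∑' i, c i * φ (J (x i)) := by
      have h1 : φ.comp J.toContinuousLinearMap (SS x c) =
          ∑' i, (φ.comp J.toContinuousLinearMap) (c i • x i) := by
        unfold SS
        exact ContinuousLinearMap.map_tsum _ hS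
      simpa using h1
    have hsplit := hsumφ.sum_add_tsum_nat_add n
    have hsc : Summable (fun i => c (i + n)) := (summable_nat_add_iff n).2 hc
    have hsx : Summable (fun i => c (i + n) * φ (J (x (i + n)))) :=
      (summable_nat_add_iff (f := fun i => c i * φ (J (x i))) n).2 hsumφ
    have hval : φ (AA J z x c n) =
        φ (J (SS x c)) - ∑' i, c (i + n) * (φ (J (x (i + n))) - φ z) := by
      have h1 : φ (AA J z x c n) =
          ∑ i ∈ Finset.range n, c i * φ (J (x i)) + (∑' i, c (i + n)) * φ z := by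
        unfold AA
        simp [map_sum]
      have h2 : ∑' i, c (i + n) * (φ (J (x (i + n))) - φ z) =
          ∑' i, c (i + n) * φ (J (x (i + n))) - (∑' i, c (i + n)) * φ z := by
        rw [← tsum_mul_right, ← hsx.tsum_sub (hsc.mul_right _)]
        congr 1
        funext i
        ring
      rw [h1, h2, hφS, ← hsplit]
      ring
    have hgeo : Summable (fun i : ℕ => 2 * M / d * (d / 16 * (1 / 2 : ℝ) ^ i)) :=
      (summable_geometric_two.mul_left _).mul_left _
    have hbnd : ∀ i, ‖c (i + n) * (φ (J (x (i + n))) - φ z)‖ ≤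
        2 * M / d * (d / 16 * (1 / 2 : ℝ) ^ i) := by
      intro i
      rw [norm_mul, Real.norm_eq_abs, Real.norm_eq_abs]
      refine mul_le_mul (hci _) ?_ (abs_nonneg _) (by positivity)
      refine (hF3 (i + n) (Nat.le_add_left n i) φ hφ).trans ?_
      have : (1 / 2 : ℝ) ^ (i + n) ≤ (1 / 2 : ℝ) ^ i :=
        pow_le_pow_of_le_one (by norm_num) (by norm_num) (Nat.le_add_right i n)
      have hd16 : 0 ≤ d / 16 := by positivity
      exact mul_le_mul_of_nonneg_left this hd16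
    have htail : ‖∑' i, c (i + n) * (φ (J (x (i + n))) - φ z)‖ ≤ M / 4 := by
      have := tsum_of_norm_bounded hgeo.hasSum hbnd
      refine this.trans (le_of_eq ?_)
      rw [tsum_mul_left, tsum_mul_left, tsum_geometric_two]
      field_simp
      ring
    have hφn : |φ (J (SS x c))| ≤ ‖SS x c‖ := by
      have := φ.le_opNorm (J (SS x c))
      rw [Real.norm_eq_abs, J.norm_map] at this
      refine this.trans ?_
      have := mul_le_mul_of_nonneg_right (hF1 φ hφ) (norm_nonneg (SS x c))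
      linarith
    have : |φ (AA J z x c n)| ≤ ‖SS x c‖ + M / 4 := by
      rw [hval]
      refine (abs_sub _ _).trans ?_
      rw [Real.norm_eq_abs] at htail
      linarith
    linarith
  have hfin : M ≤ 2 * ‖SS x c‖ + M / 2 := ciSup_le key
  linarith [hle n]

theorem Wide.tail_le (h : Wide J z d x B) {c : ℕ → ℝ} (hc : Summable c) (n : ℕ) :
    |∑' i, c (i + n)| ≤ 4 / d * ‖SS x c‖ := by
  have hd := h.dpos
  have h1 := h.AA_le hc n
  have h2 : |∑' i, c (i + n)| * d ≤ ‖AA J z x c n‖ := by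
    rcases eq_or_ne (∑' i, c (i + n)) 0 with h0 | h0
    · rw [h0]; simp
    · set σ := ∑' i, c (i + n) with hσ
      have h3 : AA J z x c n = σ • (z - J
          (-(σ⁻¹ • ∑ i ∈ Finset.range n, c i • x i))) := by
        unfold AA
        rw [map_neg, map_smul, sub_neg_eq_add, smul_add, smul_inv_smul₀ h0, add_comm]
      rw [h3, norm_smul, Real.norm_eq_abs]
      exact mul_le_mul_of_nonneg_left (h.dist _) (abs_nonneg _)
  rw [div_mul_eq_mul_div, le_div_iff₀ hd]
  exact h2.trans h1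

theorem Wide.PS_le (h : Wide J z d x B) {c : ℕ → ℝ} (hc : Summable c) (n : ℕ) :
    |PS c n| ≤ 8 / d * ‖SS x c‖ := by
  have h1 := h.tail_le hc 0
  have h2 := h.tail_le hc n
  have h3 := hc.sum_add_tsum_nat_add n
  have h4 : PS c n = ∑' i, c (i + 0) - ∑' i, c (i + n) := by
    unfold PS; simp only [add_zero]; linarith
  rw [h4]
  refine (abs_sub _ _).trans ?_
  have : 8 / d * ‖SS x c‖ = 4 / d * ‖SS x c‖ + 4 / d * ‖SS x c‖ := by ring
  linarith

theorem Wide.part_le (h : Wide J z d x B) {c : ℕ → ℝ} (hc : Summable c) (n : ℕ) :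
    ‖∑ i ∈ Finset.range n, c i • x i‖ ≤ (4 + 4 / d * ‖z‖) * ‖SS x c‖ := by
  have h1 := h.AA_le hc n
  have h2 := h.tail_le hc n
  have h3 : ‖J (∑ i ∈ Finset.range n, c i • x i)‖ =
      ‖∑ i ∈ Finset.range n, c i • x i‖ := J.norm_map _
  rw [← h3]
  have h4 : J (∑ i ∈ Finset.range n, c i • x i) =
      AA J z x c n - (∑' i, c (i + n)) • z := by
    unfold AA; abel
  rw [h4]
  refine (norm_sub_le _ _).trans ?_
  rw [norm_smul, Real.norm_eq_abs]
  have h5 := mul_le_mul_of_nonneg_right h2 (norm_nonneg z)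
  linarith

/-- the uniform bound constant -/
noncomputable def Lc (z : V) (d B : ℝ) : ℝ :=
  8 / d * B + 1 + (4 + 4 / d * ‖z‖)

theorem Wide.push_le (h : Wide J z d x B) {c : ℕ → ℝ} (hc : Summable c) (n : ℕ) :
    ‖PS c (n + 1) • x n + (SS x c - ∑ i ∈ Finset.range (n + 1), c i • x i)‖ ≤
      Lc z d B * ‖SS x c‖ := by
  have hd := h.dpos
  have h1 := h.PS_le hc (n + 1)
  have h2 := h.part_le hc (n + 1)
  have hB0 : 0 ≤ B := (norm_nonneg _).trans (h.bdd 0)
  have h3 : ‖PS c (n + 1) • x n‖ ≤ 8 / d * ‖SS x c‖ * B := by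
    rw [norm_smul, Real.norm_eq_abs]
    exact mul_le_mul h1 (h.bdd n) (norm_nonneg _) (by positivity)
  have h4 := norm_add_le (PS c (n + 1) • x n) (SS x c - ∑ i ∈ Finset.range (n + 1), c i • x i)
  have h5 := norm_sub_le (SS x c) (∑ i ∈ Finset.range (n + 1), c i • x i)
  unfold Lc
  nlinarith

omit [CompleteSpace X] in
theorem one_le_Lc (hd : 0 < d) (hB0 : 0 ≤ B) : 1 ≤ Lc z d B := by
  unfold Lc
  have : 0 ≤ 8 / d * B := by positivity
  have : 0 ≤ 4 / d * ‖z‖ := by positivity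
  linarith

omit [CompleteSpace X] in
theorem abel_identity (x : ℕ → X) (b c : ℕ → ℝ) (s : X) (N : ℕ) :
    ∑ n ∈ Finset.range N, Mop b c n • x n +
      b N • (s - ∑ i ∈ Finset.range N, c i • x i) =
    ∑ k ∈ Finset.range N, (b (k + 1) - b k) •
      (PS c (k + 1) • x k + (s - ∑ i ∈ Finset.range (k + 1), c i • x i)) + b 0 • s := by
  induction N with
  | zero => simp
  | succ N ih =>
    rw [Finset.sum_range_succ _ N, Finset.sum_range_succ (fun k => (b (k + 1) - b k) • _) N]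
    have h1 : ∑ n ∈ Finset.range N, Mop b c n • x n =
        ∑ k ∈ Finset.range N, (b (k + 1) - b k) •
      (PS c (k + 1) • x k + (s - ∑ i ∈ Finset.range (k + 1), c i • x i)) + b 0 • s -
      b N • (s - ∑ i ∈ Finset.range N, c i • x i) := by rw [← ih]; abel
    rw [h1]
    have h2 : ∑ i ∈ Finset.range (N + 1), c i • x i =
      ∑ i ∈ Finset.range N, c i • x i + c N • x N := Finset.sum_range_succ _ N
    rw [h2]
    have h3 : Mop b c N = (b (N + 1) - b N) * PS c (N + 1) + b N * c N := by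
      rw [Mop, PS_succ]; ring
    rw [h3]
    module

/-- uniform boundedness of all the operators `Mop b`. -/
theorem Wide.Mop_le (h : Wide J z d x B) {b c : ℕ → ℝ} (hb : Wt b) (hc : Summable c) :
    ‖SS x (Mop b c)‖ ≤ Lc z d B * ‖SS x c‖ := by
  have hB0 : 0 ≤ B := (norm_nonneg _).trans (h.bdd 0)
  have hL := one_le_Lc (z := z) h.dpos hB0
  have hS := summable_smul h.bdd hc
  have hS2 := summable_smul h.bdd (summable_Mop hb hc)
  have ht1 : Tendsto (fun N => ∑ n ∈ Finset.range N, Mop b c n • x n) atTop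
      (𝓝 (SS x (Mop b c))) := hS2.hasSum.tendsto_sum_nat
  have ht2 : Tendsto (fun N => SS x c - ∑ i ∈ Finset.range N, c i • x i) atTop (𝓝 0) := by
    have h0 : Tendsto (fun N => ∑ i ∈ Finset.range N, c i • x i) atTop (𝓝 (SS x c)) :=
      hS.hasSum.tendsto_sum_nat
    have := h0.const_sub (SS x c)
    rwa [sub_self] at this
  have ht3 : Tendsto (fun N => b N • (SS x c - ∑ i ∈ Finset.range N, c i • x i)) atTop (𝓝 0) := by
    refine squeeze_zero_norm (fun N => ?_) (tendsto_zero_iff_norm_tendsto_zero.1 ht2)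
    rw [norm_smul, Real.norm_eq_abs, abs_of_nonneg (hb.nonneg N)]
    exact mul_le_of_le_one_left (norm_nonneg _) (hb.le_one N)
  have ht4 := (ht1.add ht3).norm
  rw [add_zero] at ht4
  refine le_of_tendsto ht4 (Eventually.of_forall fun N => ?_)
  rw [abel_identity x b c (SS x c) N]
  refine (norm_add_le _ _).trans ?_
  have h1 : ‖∑ k ∈ Finset.range N, (b (k + 1) - b k) •
      (PS c (k + 1) • x k + (SS x c - ∑ i ∈ Finset.range (k + 1), c i • x i))‖ ≤
      (b N - b 0) * (Lc z d B * ‖SS x c‖) := by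
    rw [← Finset.sum_range_sub, Finset.sum_mul]
    refine norm_sum_le_of_le _ fun k _ => ?_
    rw [norm_smul, Real.norm_eq_abs, abs_of_nonneg (sub_nonneg.2 (hb.mono (Nat.le_succ k)))]
    exact mul_le_mul_of_nonneg_left (h.push_le hc k) (sub_nonneg.2 (hb.mono (Nat.le_succ k)))
  have h2 : ‖b 0 • SS x c‖ ≤ b 0 * (Lc z d B * ‖SS x c‖) := by
    rw [norm_smul, Real.norm_eq_abs, abs_of_nonneg (hb.nonneg 0)]
    refine mul_le_mul_of_nonneg_left ?_ (hb.nonneg 0)
    exact le_mul_of_one_le_left (norm_nonneg _) hL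
  have h3 : 0 ≤ Lc z d B * ‖SS x c‖ := by positivity
  have h4 := hb.le_one N
  nlinarith

end bounds

end Pool.Agent.X301
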