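import Mathlib
import Pool.Agent.X301.WideOps

set_option autoImplicit false

/-!
# The simplex generated by a wide sequence and the affine map without fixed points
-/

open Metric Set Filter Topology Bornology NormedSpace

namespace Pool.Agent.X301

variable {X V : Type*} [NormedAddCommGroup X] [NormedSpace ℝ X] [NormedAddCommGroup V]
  [NormedSpace ℝ V] [CompleteSpace X]

/-- probability sequences -/
structure IsProb (t : ℕ → ℝ) : Prop where
  nonneg : ∀ i, 0 ≤ t i
  sum : HasSum t 1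

omit [CompleteSpace X] in
theorem IsProb.PS_mono {t : ℕ → ℝ} (h : IsProb t) : Monotone (PS t) :=
  monotone_nat_of_le_succ fun n => by rw [PS_succ]; linarith [h.nonneg n]

theorem IsProb.PS_nonneg {t : ℕ → ℝ} (h : IsProb t) (n : ℕ) : 0 ≤ PS t n :=
  Finset.sum_nonneg fun i _ => h.nonneg i

theorem IsProb.PS_le_one {t : ℕ → ℝ} (h : IsProb t) (n : ℕ) : PS t n ≤ 1 :=
  sum_le_hasSum _ (fun i _ => h.nonneg i) h.sum

theorem IsProb.tendsto {t : ℕ → ℝ} (h : IsProb t) : Tendsto (PS t) atTop (𝓝 1) :=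
  h.sum.tendsto_sum_nat

theorem IsProb.of_PS {t : ℕ → ℝ} (h0 : ∀ i, 0 ≤ t i) (h1 : Tendsto (PS t) atTop (𝓝 1)) :
    IsProb t :=
  ⟨h0, (hasSum_iff_tendsto_nat_of_nonneg h0 1).2 h1⟩

theorem IsProb.Mop {t b : ℕ → ℝ} (h : IsProb t) (hb : Wt b) (hb1 : Tendsto b atTop (𝓝 1)) :
    IsProb (Mop b t) := by
  refine IsProb.of_PS (fun i => ?_) ?_
  · unfold X301.Mop
    have h1 := mul_le_mul (hb.mono (Nat.le_succ i)) (h.PS_mono (Nat.le_succ i))
      (h.PS_nonneg i) (hb.nonneg _)
    exact sub_nonneg.2 h1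
  · have : PS (X301.Mop b t) = fun n => b n * PS t n := by
      funext n; exact PS_Mop b t n
    rw [this]
    simpa using hb1.mul h.tendsto

/-- the simplex generated by the sequence `x`. -/
def simplexSet (x : ℕ → X) : Set X := {y | ∃ t, IsProb t ∧ SS x t = y}

variable {J : X →ₗᵢ[ℝ] V} {z : V} {d : ℝ} {x : ℕ → X} {B : ℝ}

theorem SS_sub (h : Wide J z d x B) {c c' : ℕ → ℝ} (hc : Summable c) (hc' : Summable c') :
    SS x (fun i => c i - c' i) = SS x c - SS x c' := by
  unfold SS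
  rw [← (summable_smul h.bdd hc).tsum_sub (summable_smul h.bdd hc')]
  congr 1
  funext i
  rw [sub_smul]

theorem SS_comb (h : Wide J z d x B) {c c' : ℕ → ℝ} (hc : Summable c) (hc' : Summable c')
    (a a' : ℝ) :
    SS x (fun i => a * c i + a' * c' i) = a • SS x c + a' • SS x c' := by
  unfold SS
  rw [← (summable_smul h.bdd hc).tsum_const_smul, ← (summable_smul h.bdd hc').tsum_const_smul,
    ← ((summable_smul h.bdd hc).const_smul a).tsum_add
      ((summable_smul h.bdd hc').const_smul a')]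
  congr 1
  funext i
  module

theorem Wide.PS_sub_le (h : Wide J z d x B) {c c' : ℕ → ℝ} (hc : Summable c)
    (hc' : Summable c') (n : ℕ) : |PS c n - PS c' n| ≤ 8 / d * ‖SS x c - SS x c'‖ := by
  have := h.PS_le (hc.sub hc') n
  rwa [SS_sub h hc hc', PS_sub] at this

theorem Wide.inj (h : Wide J z d x B) {c c' : ℕ → ℝ} (hc : Summable c)
    (hc' : Summable c') (he : SS x c = SS x c') : c = c' := by
  apply eq_of_PS
  intro n
  have := h.PS_sub_le hc hc' n
  rw [he, sub_self, norm_zero, mul_zero] at this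
  have := abs_nonpos_iff.1 this
  linarith

/-- tails of a probability combination. -/
theorem Wide.tail_norm_le (h : Wide J z d x B) {t : ℕ → ℝ} (ht : IsProb t) (n : ℕ) :
    ‖SS x t - ∑ i ∈ Finset.range n, t i • x i‖ ≤ B * (1 - PS t n) := by
  have hS := summable_smul h.bdd ht.sum.summable
  have h1 : SS x t - ∑ i ∈ Finset.range n, t i • x i = ∑' i, t (i + n) • x (i + n) := by
    have := hS.sum_add_tsum_nat_add n
    unfold SS
    rw [← this]; abel
  rw [h1]
  have h2 : HasSum (fun i => t (i + n)) (1 - PS t n) := (hasSum_nat_add_iff' n).2 ht.sum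
  refine tsum_of_norm_bounded (h2.mul_left B) (fun i => ?_)
  rw [norm_smul, Real.norm_eq_abs, abs_of_nonneg (ht.nonneg _), mul_comm]
  exact mul_le_mul_of_nonneg_right (h.bdd _) (ht.nonneg _)

theorem simplexSet_subset (h : Wide J z d x B) {C : Set X} (hcl : IsClosed C)
    (hcv : Convex ℝ C) (hx : ∀ n, x n ∈ C) : simplexSet x ⊆ C := by
  rintro _ ⟨t, ht, rfl⟩
  have hS := summable_smul h.bdd ht.sum.summable
  have h1 : Tendsto (fun n => ∑ i ∈ Finset.range n, t i • x i + (1 - PS t n) • x 0) atTop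
      (𝓝 (SS x t)) := by
    have h2 : Tendsto (fun n => ∑ i ∈ Finset.range n, t i • x i) atTop (𝓝 (SS x t)) :=
      hS.hasSum.tendsto_sum_nat
    have h3 : Tendsto (fun n => (1 - PS t n) • x 0) atTop (𝓝 ((1 - 1 : ℝ) • x 0)) :=
      (ht.tendsto.const_sub 1).smul_const _
    rw [sub_self, zero_smul] at h3
    simpa using h2.add h3
  refine hcl.mem_of_tendsto h1 (Eventually.of_forall fun n => ?_)
  rcases (ht.PS_nonneg n).eq_or_lt with h0 | h0
  · have h2 : ∑ i ∈ Finset.range n, t i • x i = 0 := by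
      refine Finset.sum_eq_zero fun i hi => ?_
      have := (Finset.sum_eq_zero_iff_of_nonneg (fun i _ => ht.nonneg i)).1 h0.symm i hi
      rw [this, zero_smul]
    rw [h2, ← h0]
    simpa using hx 0
  · have h2 : ∑ i ∈ Finset.range n, t i • x i = PS t n • (Finset.range n).centerMass t x := by
      rw [Finset.centerMass, smul_smul]
      change _ = (PS t n * (PS t n)⁻¹) • _
      rw [mul_inv_cancel₀ h0.ne', one_smul]
    rw [h2]
    refine hcv ?_ (hx 0) (ht.PS_nonneg n) (sub_nonneg.2 (ht.PS_le_one n)) (by ring)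
    exact hcv.centerMass_mem (fun i _ => ht.nonneg i) h0 (fun i _ => hx i)

theorem simplexSet_convex (h : Wide J z d x B) : Convex ℝ (simplexSet x) := by
  rintro _ ⟨t, ht, rfl⟩ _ ⟨t', ht', rfl⟩ a a' ha ha' haa
  refine ⟨fun i => a * t i + a' * t' i, ⟨fun i => ?_, ?_⟩,
    SS_comb h ht.sum.summable ht'.sum.summable a a'⟩
  · have := ht.nonneg i
    have := ht'.nonneg i
    positivity
  · have := (ht.sum.mul_left a).add (ht'.sum.mul_left a')
    simpa [haa] using this

theorem simplexSet_nonempty (x : ℕ → X) : (simplexSet x).Nonempty := by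
  refine ⟨_, fun i => if i = 0 then 1 else 0, ⟨fun i => ?_, ?_⟩, rfl⟩
  · split_ifs <;> norm_num
  · exact hasSum_ite_eq 0 1

theorem simplexSet_closed (h : Wide J z d x B) : IsClosed (simplexSet x) := by
  refine isClosed_of_closure_subset fun y hy => ?_
  obtain ⟨u, hu, huy⟩ := mem_closure_iff_seq_limit.1 hy
  choose t ht hut using hu
  have hd := h.dpos
  have hB0 : 0 ≤ B := (norm_nonneg _).trans (h.bdd 0)
  -- the cumulative sums converge
  have hcau : ∀ n, CauchySeq (fun m => PS (t m) n) := by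
    intro n
    have hcu : CauchySeq u := huy.cauchySeq
    rw [Metric.cauchySeq_iff] at hcu ⊢
    intro ε hε
    obtain ⟨N, hN⟩ := hcu (ε / (8 / d)) (by positivity)
    refine ⟨N, fun m hm m' hm' => ?_⟩
    rw [Real.dist_eq]
    have h1 := h.PS_sub_le (ht m).sum.summable (ht m').sum.summable n
    rw [hut, hut, ← dist_eq_norm] at h1
    have h2 := hN m hm m' hm'
    rw [lt_div_iff₀ (by positivity)] at h2
    linarith
  choose τ hτ using fun n => cauchySeq_tendsto_of_complete (hcau n)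
  have hclose : ∀ m n, |PS (t m) n - τ n| ≤ 8 / d * ‖u m - y‖ := by
    intro m n
    have h1 : Tendsto (fun l => |PS (t m) n - PS (t l) n|) atTop (𝓝 |PS (t m) n - τ n|) :=
      ((hτ n).const_sub _).abs
    have h2 : Tendsto (fun l => 8 / d * ‖u m - u l‖) atTop (𝓝 (8 / d * ‖u m - y‖)) :=
      ((huy.const_sub _).norm).const_mul _
    refine le_of_tendsto_of_tendsto' h1 h2 (fun l => ?_)
    have h1 := h.PS_sub_le (ht m).sum.summable (ht l).sum.summable n
    rwa [hut, hut] at h1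
  set s : ℕ → ℝ := fun n => τ (n + 1) - τ n with hs
  have hτ0 : τ 0 = 0 := by
    have : Tendsto (fun m => PS (t m) 0) atTop (𝓝 0) := by simp [PS_zero]
    exact tendsto_nhds_unique (hτ 0) this
  have hPSs : PS s = τ := by
    funext n
    unfold PS
    rw [hs, Finset.sum_range_sub, hτ0, sub_zero]
  have hs_lim : ∀ n, Tendsto (fun m => t m n) atTop (𝓝 (s n)) := by
    intro n
    have := (hτ (n + 1)).sub (hτ n)
    refine this.congr fun m => ?_
    rw [PS_succ]; ring
  have hsprob : IsProb s := by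
    refine IsProb.of_PS (fun i => ?_) ?_
    · exact ge_of_tendsto' (hs_lim i) (fun m => (ht m).nonneg i)
    · rw [hPSs, Metric.tendsto_atTop]
      intro ε hε
      have h1 : Tendsto (fun m => 8 / d * ‖u m - y‖) atTop (𝓝 0) := by
        have := (tendsto_iff_norm_sub_tendsto_zero.1 huy).const_mul (8 / d)
        simpa using this
      obtain ⟨m, hm⟩ := ((tendsto_order.1 h1).2 (ε / 2) (by positivity)).exists
      obtain ⟨N, hN⟩ := Metric.tendsto_atTop.1 (ht m).tendsto (ε / 2) (by positivity)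
      refine ⟨N, fun n hn => ?_⟩
      have h2 := hN n hn
      rw [Real.dist_eq] at h2 ⊢
      have h3 := hclose m n
      have h4 : τ n - 1 = (PS (t m) n - 1) - (PS (t m) n - τ n) := by ring
      rw [h4]
      refine (abs_sub _ _).trans_lt ?_
      linarith
  refine ⟨s, hsprob, ?_⟩
  have hSs := summable_smul h.bdd hsprob.sum.summable
  have ht1 : Tendsto (fun n => ∑ i ∈ Finset.range n, s i • x i) atTop (𝓝 (SS x s)) :=
    hSs.hasSum.tendsto_sum_nat
  have ht2 : Tendsto (fun n => ∑ i ∈ Finset.range n, s i • x i) atTop (𝓝 y) := by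
    rw [tendsto_iff_norm_sub_tendsto_zero]
    have hb : Tendsto (fun n => B * (1 - PS s n)) atTop (𝓝 0) := by
      have := (hsprob.tendsto.const_sub 1).const_mul B
      simpa using this
    refine squeeze_zero (fun n => norm_nonneg _) (fun n => ?_) hb
    have h1 : Tendsto (fun m => ‖∑ i ∈ Finset.range n, t m i • x i - u m‖) atTop
        (𝓝 ‖∑ i ∈ Finset.range n, s i • x i - y‖) := by
      refine (Tendsto.sub ?_ huy).norm
      exact tendsto_finsetSum _ fun i _ => (hs_lim i).smul_const _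
    have h2 : Tendsto (fun m => B * (1 - PS (t m) n)) atTop (𝓝 (B * (1 - PS s n))) := by
      rw [hPSs]
      exact ((hτ n).const_sub 1).const_mul B
    refine le_of_tendsto_of_tendsto' h1 h2 (fun m => ?_)
    have := h.tail_norm_le (ht m) n
    rwa [hut, norm_sub_rev] at this
  exact tendsto_nhds_unique ht1 ht2

/-- the weight sequence `1 - 2^{-n}`. -/
noncomputable def bw (n : ℕ) : ℝ := 1 - (1 / 2) ^ n

theorem bw_wt : Wt bw := by
  refine ⟨monotone_nat_of_le_succ fun n => ?_, fun n => ?_, fun n => ?_⟩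
  · unfold bw
    have : (1 / 2 : ℝ) ^ (n + 1) ≤ (1 / 2) ^ n :=
      pow_le_pow_of_le_one (by norm_num) (by norm_num) (Nat.le_succ n)
    linarith
  · unfold bw
    have : (1 / 2 : ℝ) ^ n ≤ 1 := pow_le_one₀ (by norm_num) (by norm_num)
    linarith
  · unfold bw
    have : (0 : ℝ) ≤ (1 / 2 : ℝ) ^ n := by positivity
    linarith

theorem bw_pow_wt (p : ℕ) : Wt (fun n => bw n ^ p) :=
  ⟨fun m n h => pow_le_pow_left₀ (bw_wt.nonneg m) (bw_wt.mono h) p,
    fun n => pow_nonneg (bw_wt.nonneg n) p, fun n => pow_le_one₀ (bw_wt.nonneg n) (bw_wt.le_one n)⟩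

theorem bw_tendsto : Tendsto bw atTop (𝓝 1) := by
  have := (tendsto_pow_atTop_nhds_zero_of_lt_one (r := (1 / 2 : ℝ)) (by norm_num)
    (by norm_num)).const_sub 1
  rwa [sub_zero] at this

open Classical in
/-- the map on the simplex. -/
noncomputable def fmap (x : ℕ → X) (y : X) : X :=
  if h : ∃ t, IsProb t ∧ SS x t = y then SS x (Mop bw h.choose) else y

theorem fmap_SS (h : Wide J z d x B) {t : ℕ → ℝ} (ht : IsProb t) :
    fmap x (SS x t) = SS x (Mop bw t) := by
  have hex : ∃ t', IsProb t' ∧ SS x t' = SS x t := ⟨t, ht, rfl⟩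
  unfold fmap
  rw [dif_pos hex]
  have := h.inj hex.choose_spec.1.sum.summable ht.sum.summable hex.choose_spec.2
  rw [this]

theorem fmap_iter (h : Wide J z d x B) {t : ℕ → ℝ} (ht : IsProb t) (p : ℕ) :
    (fmap x)^[p] (SS x t) = SS x (Mop (fun n => bw n ^ p) t) ∧
      IsProb (Mop (fun n => bw n ^ p) t) := by
  induction p with
  | zero => simp [Mop_one, ht]
  | succ p ih =>
    have h1 : Mop bw (Mop (fun n => bw n ^ p) t) = Mop (fun n => bw n ^ (p + 1)) t := by
      rw [Mop_Mop]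
      congr 1
      funext n
      rw [pow_succ, mul_comm]
    rw [Function.iterate_succ_apply', ih.1, fmap_SS h ih.2, h1]
    refine ⟨rfl, ?_⟩
    rw [← h1]
    exact ih.2.Mop bw_wt bw_tendsto

/-- abstract form of the main construction. -/
theorem Wide.main (h : Wide J z d x B) :
    MapsTo (fmap x) (simplexSet x) (simplexSet x) ∧
    (∀ u ∈ simplexSet x, ∀ v ∈ simplexSet x, ∀ a ∈ Icc (0 : ℝ) 1,
      fmap x (a • u + (1 - a) • v) = a • fmap x u + (1 - a) • fmap x v) ∧
    (∃ L : ℝ, 0 < L ∧ ∀ u ∈ simplexSet x, ∀ v ∈ simplexSet x, ∀ p : ℕ,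
      ‖(fmap x)^[p] u - (fmap x)^[p] v‖ ≤ L * ‖u - v‖) ∧
    ∀ u ∈ simplexSet x, fmap x u ≠ u := by
  have hB0 : 0 ≤ B := (norm_nonneg _).trans (h.bdd 0)
  refine ⟨?_, ?_, ⟨Lc z d B, lt_of_lt_of_le one_pos (one_le_Lc h.dpos hB0), ?_⟩, ?_⟩
  · rintro _ ⟨t, ht, rfl⟩
    rw [fmap_SS h ht]
    exact ⟨_, ht.Mop bw_wt bw_tendsto, rfl⟩
  · rintro _ ⟨t, ht, rfl⟩ _ ⟨t', ht', rfl⟩ a ha
    have hp : IsProb (fun i => a * t i + (1 - a) * t' i) := by
      refine ⟨fun i => ?_, ?_⟩
      · have := ht.nonneg i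
        have := ht'.nonneg i
        have := ha.1
        have := sub_nonneg.2 ha.2
        positivity
      · have := (ht.sum.mul_left a).add (ht'.sum.mul_left (1 - a))
        simpa using this
    rw [← SS_comb h ht.sum.summable ht'.sum.summable, fmap_SS h hp, fmap_SS h ht,
      fmap_SS h ht', Mop_comb, SS_comb h (summable_Mop bw_wt ht.sum.summable)
      (summable_Mop bw_wt ht'.sum.summable)]
  · rintro _ ⟨t, ht, rfl⟩ _ ⟨t', ht', rfl⟩ p
    rw [(fmap_iter h ht p).1, (fmap_iter h ht' p).1,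
      ← SS_sub h (summable_Mop (bw_pow_wt p) ht.sum.summable)
        (summable_Mop (bw_pow_wt p) ht'.sum.summable), ← Mop_sub,
      ← SS_sub h ht.sum.summable ht'.sum.summable]
    exact h.Mop_le (bw_pow_wt p) (ht.sum.summable.sub ht'.sum.summable)
  · rintro _ ⟨t, ht, rfl⟩ hfix
    rw [fmap_SS h ht] at hfix
    have h1 := h.inj (summable_Mop bw_wt ht.sum.summable) ht.sum.summable hfix
    have h2 : ∀ n, PS t n = 0 := by
      intro n
      have h3 : PS (Mop bw t) n = PS t n := by rw [h1]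
      rw [PS_Mop, bw] at h3
      have h4 : (1 / 2 : ℝ) ^ n * PS t n = 0 := by linarith
      rcases mul_eq_zero.1 h4 with h5 | h5
      · exact absurd h5 (by positivity)
      · exact h5
    have h3 : PS t = fun _ => 0 := funext h2
    have h4 := ht.tendsto
    rw [h3] at h4
    exact zero_ne_one (tendsto_nhds_unique tendsto_const_nhds h4)

/-- existence of wide data. -/
theorem exists_wide (C : Set X) (hb : IsBounded C) (hcl : IsClosed C)
    (hcv : Convex ℝ C) (hw : ¬ IsCompact (toWeakSpace ℝ X '' C)) :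
    ∃ (z : StrongDual ℝ (StrongDual ℝ X)) (d : ℝ) (x : ℕ → X) (B : ℝ), (∀ n, x n ∈ C) ∧
      Wide (inclusionInDoubleDualLi (𝕜 := ℝ) (E := X)) z d x B := by
  obtain ⟨z, d, x, hd, hdist, hxC, happ⟩ := exists_wide_seq C hb hcl hcv hw
  obtain ⟨B, hB⟩ := isBounded_iff_forall_norm_le.1 hb
  refine ⟨z, d, x, B, hxC, ⟨hd, hdist, fun n => hB _ (hxC n), fun n => ?_⟩⟩
  obtain ⟨F, hF1, hF2, hF3⟩ := happ n
  refine ⟨(fun φ => inclusionInDoubleDual ℝ (StrongDual ℝ X) φ) '' (F : Set (StrongDual ℝ X)),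
    ?_, ?_, ?_⟩
  · rintro _ ⟨φ, hφ, rfl⟩
    exact (double_dual_bound ℝ _ φ).trans (hF1 φ hφ)
  · intro e he
    obtain ⟨φ, hφ, h⟩ := hF2 e he
    exact ⟨_, ⟨φ, hφ, rfl⟩, h⟩
  · rintro i hi _ ⟨φ, hφ, rfl⟩
    exact hF3 i hi φ hφ

/-- real form of the theorem. -/
theorem real_main (C : Set X) (hb : IsBounded C) (hcl : IsClosed C)
    (hcv : Convex ℝ C) (hw : ¬ IsCompact (toWeakSpace ℝ X '' C)) :
    ∃ K : Set X, K ⊆ C ∧ K.Nonempty ∧ IsBounded K ∧ IsClosed K ∧ Convex ℝ K ∧
      ∃ f : X → X, MapsTo f K K ∧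
        (∀ x ∈ K, ∀ y ∈ K, ∀ t ∈ Icc (0 : ℝ) 1,
          f (t • x + (1 - t) • y) = t • f x + (1 - t) • f y) ∧
        (∃ L : ℝ, 0 < L ∧ ∀ x ∈ K, ∀ y ∈ K, ∀ p : ℕ,
          ‖f^[p] x - f^[p] y‖ ≤ L * ‖x - y‖) ∧
        ∀ x ∈ K, f x ≠ x := by
  obtain ⟨z, d, x, B, hxC, hW⟩ := exists_wide C hb hcl hcv hw
  have hsub := simplexSet_subset hW hcl hcv hxC
  exact ⟨simplexSet x, hsub, simplexSet_nonempty x, hb.subset hsub, simplexSet_closed hW,
    simplexSet_convex hW, fmap x, hW.main⟩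

end Pool.Agent.X301
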