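import Mathlib

set_option autoImplicit false

/-!
# A slowly oscillating function of the distance in a Hilbert space has small complexity

`Fs t = sin (log (1 + log (1 + t)))`. For `N` points of a real inner product space the family of
functions `i ↦ Fs ‖u i - p‖` has sup-norm covering numbers which are polynomial in `N`.
-/

open Set Filter Topology

namespace Pool.Agent.X301

/-- slowly oscillating function -/
noncomputable def Fs (t : ℝ) : ℝ := Real.sin (Real.log (1 + Real.log (1 + t)))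

theorem log_sub_le_div {u v : ℝ} (hv : 0 ≤ v) (huv : v ≤ u) :
    Real.log (1 + u) - Real.log (1 + v) ≤ (u - v) / (1 + v) := by
  rw [← Real.log_div (by linarith) (by linarith)]
  have h1 : (1 + u) / (1 + v) = 1 + (u - v) / (1 + v) := by
    have : (1 + v) ≠ 0 := by linarith
    field_simp
    ring
  have h2 := Real.log_le_sub_one_of_pos (show 0 < (1 + u) / (1 + v) by
    apply div_pos <;> linarith)
  linarith

theorem log_lip {u v : ℝ} (hu : 0 ≤ u) (hv : 0 ≤ v) :
    |Real.log (1 + u) - Real.log (1 + v)| ≤ |u - v| := by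
  wlog h : v ≤ u generalizing u v
  · rw [abs_sub_comm, abs_sub_comm u]
    exact this hv hu (le_of_not_ge h)
  rw [abs_of_nonneg (sub_nonneg.2 h), abs_of_nonneg]
  · refine (log_sub_le_div hv h).trans ?_
    exact div_le_self (sub_nonneg.2 h) (by linarith)
  · exact sub_nonneg.2 (Real.log_le_log (by linarith) (by linarith))

theorem log_one_add_nonneg {u : ℝ} (hu : 0 ≤ u) : 0 ≤ Real.log (1 + u) :=
  Real.log_nonneg (by linarith)

theorem Fs_lip {s t : ℝ} (hs : 0 ≤ s) (ht : 0 ≤ t) : |Fs s - Fs t| ≤ |s - t| := by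
  unfold Fs
  exact (Real.abs_sin_sub_sin_le _ _).trans
    ((log_lip (log_one_add_nonneg hs) (log_one_add_nonneg ht)).trans (log_lip hs ht))

theorem Fs_abs_le (t : ℝ) : |Fs t| ≤ 1 := Real.abs_sin_le_one _

theorem Fs_slow_aux {ε : ℝ} (hε : 0 < ε) {s t : ℝ} (ht : Real.exp (1 / ε) ≤ t) (hts : t ≤ s)
    (hst : s ≤ 2 * t) : |Fs s - Fs t| ≤ ε := by
  have ht0 : 0 < t := (Real.exp_pos _).trans_le ht
  have hs0 : 0 < s := ht0.trans_le hts
  unfold Fs
  refine (Real.abs_sin_sub_sin_le _ _).trans ?_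
  have hlog : Real.log (1 + t) ≤ Real.log (1 + s) := Real.log_le_log (by linarith) (by linarith)
  have hB0 : 0 ≤ Real.log (1 + t) := log_one_add_nonneg ht0.le
  have hΛ : 1 / ε ≤ Real.log (1 + t) := by
    rw [Real.le_log_iff_exp_le (by linarith)]; linarith
  rw [abs_of_nonneg (sub_nonneg.2 (Real.log_le_log (by linarith) (by linarith)))]
  refine (log_sub_le_div hB0 hlog).trans ?_
  have h2 : Real.log (1 + s) - Real.log (1 + t) ≤ 1 := by
    have h3 := log_sub_le_div ht0.le hts
    have h4 : (s - t) / (1 + t) ≤ 1 := by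
      rw [div_le_one (by linarith)]; linarith
    linarith
  rw [div_le_iff₀ (by linarith)]
  have h5 : 1 ≤ ε * (1 + Real.log (1 + t)) := by
    have : ε * (1 / ε) = 1 := by field_simp
    nlinarith
  linarith

/-- slow variation -/
theorem Fs_slow {ε : ℝ} (hε : 0 < ε) {s t : ℝ} (hs : Real.exp (1 / ε) ≤ s)
    (ht : Real.exp (1 / ε) ≤ t) (h1 : s ≤ 2 * t) (h2 : t ≤ 2 * s) : |Fs s - Fs t| ≤ ε := by
  rcases le_total t s with h | h
  · exact Fs_slow_aux hε ht h h1
  · rw [abs_sub_comm]; exact Fs_slow_aux hε hs h h2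

theorem Fs_value (θ : ℝ) : Fs (Real.exp (Real.exp θ - 1) - 1) = Real.sin θ := by
  unfold Fs
  rw [add_sub_cancel, Real.log_exp, add_sub_cancel, Real.log_exp]

theorem le_arg (θ : ℝ) : θ ≤ Real.exp (Real.exp θ - 1) - 1 := by
  have h1 := Real.add_one_le_exp θ
  have h2 := Real.add_one_le_exp (Real.exp θ - 1)
  linarith

/-- finite nets of an interval -/
theorem exists_net (a b ε : ℝ) (hε : 0 < ε) : ∃ G : Finset ℝ, ∀ x, a ≤ x → x ≤ b →
    ∃ g ∈ G, |x - g| ≤ ε := by
  have hc : TotallyBounded (Icc a b) := isCompact_Icc.totallyBounded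
  obtain ⟨t, ht, h⟩ := Metric.totallyBounded_iff.1 hc ε hε
  refine ⟨ht.toFinset, fun x hx1 hx2 => ?_⟩
  have := h ⟨hx1, hx2⟩
  simp only [mem_iUnion] at this
  obtain ⟨g, hg, hd⟩ := this
  refine ⟨g, ht.mem_toFinset.2 hg, ?_⟩
  rw [Metric.mem_ball, Real.dist_eq] at hd
  exact hd.le

section hilbert

variable {H : Type*} [NormedAddCommGroup H] [InnerProductSpace ℝ H]

open scoped RealInnerProductSpace

/-- perceptron lemma -/
theorem perceptron {ι : Type*} [Fintype ι] (w : ι → H) {W τ : ℝ} (hW : 0 < W)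
    (hτ : 0 < τ) (hw : ∀ i, ‖w i‖ ≤ W) (L : ℕ) :
    ∃ Q : Finset H, Q.card ≤ (2 * Fintype.card ι + 1) ^ L ∧ 0 ∈ Q ∧
      ∀ v : H, ‖v‖ ^ 2 ≤ L * (τ / W) ^ 2 → ∃ q ∈ Q, ∀ i, |⟪v - q, w i⟫| ≤ τ := by
  classical
  induction L with
  | zero =>
    refine ⟨{0}, by simp, by simp, fun v hv => ⟨0, by simp, fun i => ?_⟩⟩
    have h1 : ‖v‖ ^ 2 ≤ 0 := by simpa using hv
    have h2 : ‖v‖ = 0 := by
      have := sq_nonneg ‖v‖
      exact pow_eq_zero_iff (two_ne_zero) |>.1 (le_antisymm h1 this)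
    rw [norm_eq_zero.1 h2]
    simpa using hτ.le
  | succ L ih =>
    obtain ⟨Q, hQ, hQ0, hQ2⟩ := ih
    let c : Option (ι × Bool) → H := fun o => match o with
      | none => 0
      | some (i, true) => (τ / W ^ 2) • w i
      | some (i, false) => -((τ / W ^ 2) • w i)
    refine ⟨(Finset.univ ×ˢ Q).image (fun p : Option (ι × Bool) × H => c p.1 + p.2), ?_, ?_, ?_⟩
    · refine Finset.card_image_le.trans ?_
      rw [Finset.card_product, Finset.card_univ, pow_succ, mul_comm]
      have : Fintype.card (Option (ι × Bool)) = 2 * Fintype.card ι + 1 := by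
        rw [Fintype.card_option, Fintype.card_prod, Fintype.card_bool]; ring
      rw [this]
      exact Nat.mul_le_mul_right _ hQ
    · refine Finset.mem_image.2 ⟨(none, 0), by simp [hQ0], ?_⟩
      simp [c]
    · intro v hv
      by_cases hall : ∀ i, |⟪v, w i⟫| ≤ τ
      · refine ⟨0, Finset.mem_image.2 ⟨(none, 0), by simp [hQ0], by simp [c]⟩, fun i => ?_⟩
        simpa using hall i
      · push Not at hall
        obtain ⟨i, hi⟩ := hall
        -- the sign
        have key : ∀ (σ : ℝ) (b : Bool), σ ^ 2 = 1 → σ * ⟪v, w i⟫ = |⟪v, w i⟫| →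
            c (some (i, b)) = (σ * (τ / W ^ 2)) • w i →
            ∃ q ∈ (Finset.univ ×ˢ Q).image (fun p : Option (ι × Bool) × H => c p.1 + p.2),
              ∀ j, |⟪v - q, w j⟫| ≤ τ := by
          intro σ b hσ hσv hc
          have hn : ‖v - (σ * (τ / W ^ 2)) • w i‖ ^ 2 ≤ L * (τ / W) ^ 2 := by
            rw [norm_sub_sq_real, inner_smul_right, norm_smul, mul_pow, Real.norm_eq_abs,
              sq_abs]
            have h1 : σ * (τ / W ^ 2) * ⟪v, w i⟫ = (τ / W ^ 2) * |⟪v, w i⟫| := by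
              rw [← hσv]; ring
            have h2 : (σ * (τ / W ^ 2)) ^ 2 * ‖w i‖ ^ 2 ≤ (τ / W) ^ 2 := by
              rw [mul_pow, hσ, one_mul]
              have h3 : ‖w i‖ ^ 2 ≤ W ^ 2 := pow_le_pow_left₀ (norm_nonneg _) (hw i) 2
              calc (τ / W ^ 2) ^ 2 * ‖w i‖ ^ 2 ≤ (τ / W ^ 2) ^ 2 * W ^ 2 :=
                    mul_le_mul_of_nonneg_left h3 (by positivity)
                _ = (τ / W) ^ 2 := by field_simp
            have h4 : (τ / W) ^ 2 ≤ (τ / W ^ 2) * |⟪v, w i⟫| := by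
              calc (τ / W) ^ 2 = (τ / W ^ 2) * τ := by field_simp
                _ ≤ _ := mul_le_mul_of_nonneg_left hi.le (by positivity)
            rw [h1]
            push_cast at hv
            nlinarith
          obtain ⟨q, hq, hqj⟩ := hQ2 _ hn
          refine ⟨c (some (i, b)) + q,
            Finset.mem_image.2 ⟨(some (i, b), q), by simp [hq], rfl⟩, fun j => ?_⟩
          rw [hc, ← sub_sub]
          exact hqj j
        rcases le_total 0 (⟪v, w i⟫) with h0 | h0
        · exact key 1 true (by norm_num) (by rw [one_mul, abs_of_nonneg h0]) (by simp [c])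
        · exact key (-1) false (by norm_num) (by rw [abs_of_nonpos h0]; ring) (by simp [c])

theorem sqrt_sub_sqrt_le {a b κ : ℝ} (ha : 0 ≤ a) (hb : 0 ≤ b) (h : |a - b| ≤ κ ^ 2)
    (hκ : 0 ≤ κ) : |Real.sqrt a - Real.sqrt b| ≤ κ := by
  wlog hab : b ≤ a generalizing a b
  · rw [abs_sub_comm]
    rw [abs_sub_comm] at h
    exact this hb ha h (le_of_not_ge hab)
  rw [abs_of_nonneg (sub_nonneg.2 (Real.sqrt_le_sqrt hab))]
  rw [abs_of_nonneg (sub_nonneg.2 hab)] at h
  have h1 : Real.sqrt a ≤ Real.sqrt b + κ := by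
    apply Real.sqrt_le_iff.2
    refine ⟨by positivity, ?_⟩
    have := Real.sq_sqrt hb
    have h3 : 0 ≤ Real.sqrt b * κ := by positivity
    nlinarith
  linarith

/-- polynomial covering numbers. -/
theorem cover (ε : ℝ) (hε : 0 < ε) : ∃ C D : ℕ, ∀ (ι : Type) [Fintype ι] [Nonempty ι]
    (u : ι → H), ∃ 𝒢 : Finset (ι → ℝ), 𝒢.card ≤ C * (Fintype.card ι + 1) ^ D ∧
      ∀ p : H, ∃ g ∈ 𝒢, ∀ i, |Fs ‖u i - p‖ - g i| ≤ ε := by
  classical
  -- the constants
  set R : ℝ := Real.exp (1 / (ε / 2)) with hR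
  have hRpos : 0 < R := Real.exp_pos _
  set W : ℝ := 3 * R with hW
  have hWpos : 0 < W := by positivity
  set τ : ℝ := ε ^ 2 / 8 with hτ
  have hτpos : 0 < τ := by positivity
  obtain ⟨L, hL⟩ := exists_nat_ge (R ^ 2 / (τ / W) ^ 2)
  obtain ⟨G1, hG1⟩ := exists_net (-1) 1 (ε / 2) (by positivity)
  obtain ⟨G2, hG2⟩ := exists_net 0 (R ^ 2) (ε ^ 2 / 2) (by positivity)
  refine ⟨G1.card + 2 ^ L * G2.card, L + 2, fun ι _ _ u => ?_⟩
  have hper : ∀ j : ι, ∃ Q : Finset H, Q.card ≤ (2 * Fintype.card ι + 1) ^ L ∧ 0 ∈ Q ∧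
      ∀ v : H, ‖v‖ ^ 2 ≤ L * (τ / W) ^ 2 → ∃ q ∈ Q, ∀ i,
        |⟪v - q, if ‖u i - u j‖ < W then u i - u j else 0⟫| ≤ τ := by
    intro j
    apply perceptron (fun i => if ‖u i - u j‖ < W then u i - u j else 0) hWpos hτpos
    intro i
    split_ifs with h
    · exact h.le
    · simpa using hWpos.le
  choose Q hQc hQ0 hQ using hper
  let g1 : (ι × ι) × ℝ → ι → ℝ := fun c i =>
    if ‖u i - u c.1.1‖ ≤ ‖u c.1.2 - u c.1.1‖ then c.2 else Fs ‖u i - u c.1.1‖
  let g2 : ι → H × ℝ → ι → ℝ := fun j c i =>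
    if ‖u i - u j‖ < W then
      Fs (Real.sqrt (max 0 (‖u i - u j‖ ^ 2 - 2 * ⟪c.1, u i - u j⟫ + c.2)))
    else Fs ‖u i - u j‖
  refine ⟨((Finset.univ ×ˢ G1).image g1) ∪
    (Finset.univ.biUnion fun j => (Q j ×ˢ G2).image (g2 j)), ?_, ?_⟩
  · set N := Fintype.card ι with hN
    refine (Finset.card_union_le _ _).trans ?_
    have hc1 : ((Finset.univ ×ˢ G1).image g1).card ≤ G1.card * (N + 1) ^ (L + 2) := by
      refine Finset.card_image_le.trans ?_
      rw [Finset.card_product, Finset.card_univ, Fintype.card_prod, mul_comm]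
      refine Nat.mul_le_mul_left _ ?_
      calc N * N ≤ (N + 1) * (N + 1) := Nat.mul_le_mul (Nat.le_succ N) (Nat.le_succ N)
        _ = (N + 1) ^ 2 := by ring
        _ ≤ (N + 1) ^ (L + 2) := Nat.pow_le_pow_right (Nat.succ_pos N) (by omega)
    have hc2 : (Finset.univ.biUnion fun j => (Q j ×ˢ G2).image (g2 j)).card ≤
        2 ^ L * G2.card * (N + 1) ^ (L + 2) := by
      refine Finset.card_biUnion_le.trans ?_
      calc ∑ j : ι, ((Q j ×ˢ G2).image (g2 j)).card
          ≤ ∑ _j : ι, (2 * N + 1) ^ L * G2.card := by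
            refine Finset.sum_le_sum fun j _ => ?_
            refine Finset.card_image_le.trans ?_
            rw [Finset.card_product]
            exact Nat.mul_le_mul_right _ (hQc j)
        _ = N * ((2 * N + 1) ^ L * G2.card) := by
            rw [Finset.sum_const, Finset.card_univ, smul_eq_mul]
        _ ≤ (N + 1) ^ 2 * ((2 * (N + 1)) ^ L * G2.card) := by
            refine Nat.mul_le_mul ?_ (Nat.mul_le_mul_right _ (Nat.pow_le_pow_left (by omega) L))
            nlinarith
        _ = 2 ^ L * G2.card * (N + 1) ^ (L + 2) := by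
            rw [mul_pow, pow_add]; ring
    calc _ ≤ G1.card * (N + 1) ^ (L + 2) + 2 ^ L * G2.card * (N + 1) ^ (L + 2) :=
          add_le_add hc1 hc2
      _ = _ := by ring
  · intro p
    obtain ⟨j, -, hj⟩ := Finset.exists_min_image Finset.univ (fun i => ‖u i - p‖)
      Finset.univ_nonempty
    have hj' : ∀ i, ‖u j - p‖ ≤ ‖u i - p‖ := fun i => hj i (Finset.mem_univ i)
    set r := ‖u j - p‖ with hr
    have hr0 : 0 ≤ r := norm_nonneg _
    have htri1 : ∀ i, ‖u i - p‖ ≤ ‖u i - u j‖ + r := by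
      intro i
      have := norm_add_le (u i - u j) (u j - p)
      rwa [sub_add_sub_cancel] at this
    have htri2 : ∀ i, ‖u i - u j‖ ≤ ‖u i - p‖ + r := by
      intro i
      have := norm_sub_le (u i - p) (u j - p)
      rwa [sub_sub_sub_cancel_right] at this
    by_cases hcase : R ≤ r
    · -- far from all points
      obtain ⟨k, hk, hkmax⟩ := Finset.exists_max_image
        (Finset.univ.filter fun i => ‖u i - u j‖ ≤ r) (fun i => ‖u i - u j‖)
        ⟨j, by simp [hr0]⟩
      have hkr : ‖u k - u j‖ ≤ r := (Finset.mem_filter.1 hk).2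
      obtain ⟨v, hv, hvr⟩ := hG1 (Fs r) (abs_le.1 (Fs_abs_le r)).1 (abs_le.1 (Fs_abs_le r)).2
      refine ⟨g1 ((j, k), v), Finset.mem_union_left _ (Finset.mem_image_of_mem _
        (by simp [hv])), fun i => ?_⟩
      change |Fs ‖u i - p‖ - (if ‖u i - u j‖ ≤ ‖u k - u j‖ then v else Fs ‖u i - u j‖)| ≤ ε
      split_ifs with hik
      · have h1 : |Fs ‖u i - p‖ - Fs r| ≤ ε / 2 := by
          refine Fs_slow (by positivity) (hcase.trans (hj' i)) hcase ?_ ?_
          · linarith [htri1 i]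
          · linarith [hj' i]
        calc |Fs ‖u i - p‖ - v| = |(Fs ‖u i - p‖ - Fs r) + (Fs r - v)| := by congr 1; ring
          _ ≤ |Fs ‖u i - p‖ - Fs r| + |Fs r - v| := abs_add_le _ _
          _ ≤ ε := by linarith
      · have hir : r < ‖u i - u j‖ := by
          by_contra hcon
          exact hik (hkmax i (by simp [not_lt.1 hcon]))
        have h1 : |Fs ‖u i - p‖ - Fs ‖u i - u j‖| ≤ ε / 2 := by
          refine Fs_slow (by positivity) (hcase.trans (hj' i)) (hcase.trans hir.le) ?_ ?_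
          · linarith [htri1 i]
          · linarith [htri2 i, hj' i]
        linarith
    · -- close to one point
      rw [not_le] at hcase
      have hq1 : ‖p - u j‖ ^ 2 ≤ L * (τ / W) ^ 2 := by
        have h2 : R ^ 2 ≤ L * (τ / W) ^ 2 := by
          rwa [div_le_iff₀ (by positivity)] at hL
        have h3 : ‖p - u j‖ ^ 2 ≤ R ^ 2 := by
          rw [norm_sub_rev]
          exact pow_le_pow_left₀ (norm_nonneg _) hcase.le 2
        exact h3.trans h2
      obtain ⟨q, hq, hqi⟩ := hQ j (p - u j) hq1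
      obtain ⟨v, hv, hvr⟩ := hG2 (r ^ 2) (by positivity) (pow_le_pow_left₀ hr0 hcase.le 2)
      refine ⟨g2 j (q, v), Finset.mem_union_right _ (Finset.mem_biUnion.2
        ⟨j, Finset.mem_univ _, Finset.mem_image_of_mem _ (by simp [hq, hv])⟩), fun i => ?_⟩
      change |Fs ‖u i - p‖ - (if ‖u i - u j‖ < W then
        Fs (Real.sqrt (max 0 (‖u i - u j‖ ^ 2 - 2 * ⟪q, u i - u j⟫ + v)))
        else Fs ‖u i - u j‖)| ≤ ε
      split_ifs with hiW
      · have hqi' := hqi i
        rw [if_pos hiW, inner_sub_left] at hqi'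
        have hexp : ‖u i - p‖ ^ 2 = ‖u i - u j‖ ^ 2 - 2 * ⟪p - u j, u i - u j⟫ + r ^ 2 := by
          have h1 : u i - p = (u i - u j) - (p - u j) := by abel
          rw [h1, norm_sub_sq_real, real_inner_comm, hr, norm_sub_rev (u j) p]
        set A := ‖u i - u j‖ ^ 2 - 2 * ⟪q, u i - u j⟫ + v with hA
        have hdiff : |‖u i - p‖ ^ 2 - A| ≤ ε ^ 2 := by
          have h2 : ‖u i - p‖ ^ 2 - A =
              -(2 * (⟪p - u j, u i - u j⟫ - ⟪q, u i - u j⟫)) + (r ^ 2 - v) := by
            rw [hexp, hA]; ring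
          rw [h2]
          refine (abs_add_le _ _).trans ?_
          rw [abs_neg, abs_mul, abs_two]
          rw [hτ] at hqi'
          nlinarith
        have hmax : |‖u i - p‖ ^ 2 - max 0 A| ≤ ε ^ 2 := by
          rcases le_total 0 A with h | h
          · rw [max_eq_right h]; exact hdiff
          · rw [max_eq_left h, sub_zero, abs_of_nonneg (by positivity)]
            have := (abs_le.1 hdiff).2
            linarith
        have hs := sqrt_sub_sqrt_le (a := ‖u i - p‖ ^ 2) (b := max 0 A) (by positivity)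
          (le_max_left _ _) hmax hε.le
        rw [Real.sqrt_sq (norm_nonneg _)] at hs
        exact (Fs_lip (norm_nonneg _) (Real.sqrt_nonneg _)).trans hs
      · rw [not_lt] at hiW
        have h1 : |Fs ‖u i - p‖ - Fs ‖u i - u j‖| ≤ ε / 2 := by
          refine Fs_slow (by positivity) ?_ ?_ ?_ ?_
          · change R ≤ _
            linarith [htri2 i]
          · change R ≤ _
            linarith
          · linarith [htri1 i]
          · linarith [htri2 i]
        linarith

end hilbert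

end Pool.Agent.X301
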