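import Mathlib
import Pool.Agent.X301.NullCover

set_option autoImplicit false

/-!
# An unbounded recurrent cocycle with values in a Hilbert space
-/

open Set Filter Topology

namespace Pool.Agent.X301

/-- coordinates -/
noncomputable def ee (n : ℤ) (j : ℕ) : ℂ :=
  2 ^ j * (Complex.exp (Complex.I * ((2 * Real.pi * n / 2 ^ (j ^ 2) : ℝ) : ℂ)) - 1)

theorem ee_norm_le (n : ℤ) (j : ℕ) :
    ‖ee n j‖ ≤ 2 ^ j * (2 * Real.pi * |(n : ℝ)| / 2 ^ (j ^ 2)) := by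
  unfold ee
  rw [norm_mul, norm_pow, Complex.norm_ofNat]
  refine mul_le_mul_of_nonneg_left ?_ (by positivity)
  refine (Real.norm_exp_I_mul_ofReal_sub_one_le).trans (le_of_eq ?_)
  rw [Real.norm_eq_abs, abs_div, abs_mul, abs_mul, abs_two, abs_of_pos Real.pi_pos,
    abs_of_pos (by positivity : (0 : ℝ) < 2 ^ (j ^ 2))]

theorem pow_aux (j : ℕ) : (2 : ℝ) ^ j / 2 ^ (j ^ 2) ≤ 2 * (1 / 2) ^ j := by
  rw [div_le_iff₀ (by positivity), one_div, inv_pow]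
  have h1 : (2 : ℝ) ^ (2 * j) ≤ 2 ^ (j ^ 2 + 1) :=
    pow_le_pow_right₀ (by norm_num) (by nlinarith [sq_nonneg ((j : ℤ) - 1), sq_nonneg (j : ℤ),
      (by
        have : 2 * j ≤ j ^ 2 + 1 := by
          zify
          nlinarith [sq_nonneg ((j : ℤ) - 1)]
        exact this : 2 * j ≤ j ^ 2 + 1)])
  have h2 : (2 : ℝ) ^ (2 * j) = 2 ^ j * 2 ^ j := by rw [two_mul, pow_add]
  have h3 : (2 : ℝ) ^ (j ^ 2 + 1) = 2 ^ (j ^ 2) * 2 := pow_succ _ _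
  rw [h2, h3] at h1
  have h4 : (0 : ℝ) < 2 ^ j := by positivity
  calc (2 : ℝ) ^ j = (2 ^ j * 2 ^ j) * (2 ^ j)⁻¹ := by field_simp
    _ ≤ (2 ^ (j ^ 2) * 2) * (2 ^ j)⁻¹ := mul_le_mul_of_nonneg_right h1 (by positivity)
    _ = _ := by ring

theorem ee_norm_le' (n : ℤ) (j : ℕ) :
    ‖ee n j‖ ≤ (4 * Real.pi * |(n : ℝ)|) * (1 / 2) ^ j := by
  refine (ee_norm_le n j).trans ?_
  have h := mul_le_mul_of_nonneg_left (pow_aux j)
    (by positivity : 0 ≤ 2 * Real.pi * |(n : ℝ)|)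
  calc (2 : ℝ) ^ j * (2 * Real.pi * |(n : ℝ)| / 2 ^ (j ^ 2)) =
      2 * Real.pi * |(n : ℝ)| * (2 ^ j / 2 ^ (j ^ 2)) := by ring
    _ ≤ _ := h
    _ = _ := by ring

theorem summable_ee (n : ℤ) : Summable (fun j => ‖ee n j‖ ^ 2) := by
  have h1 : Summable (fun j : ℕ => (4 * Real.pi * |(n : ℝ)|) ^ 2 * (1 / 4 : ℝ) ^ j) :=
    (summable_geometric_of_lt_one (by norm_num) (by norm_num)).mul_left _
  refine Summable.of_nonneg_of_le (fun j => by positivity) (fun j => ?_) h1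
  have h2 := pow_le_pow_left₀ (norm_nonneg _) (ee_norm_le' n j) 2
  refine h2.trans (le_of_eq ?_)
  rw [mul_pow, ← pow_mul, mul_comm j 2, pow_mul]
  norm_num

theorem ee_mem (n : ℤ) : Memℓp (ee n) 2 := by
  rw [memℓp_gen_iff (by norm_num)]
  have := summable_ee n
  simpa using this

/-- the Hilbert space -/
abbrev Hil : Type := lp (fun _ : ℕ => ℂ) 2

/-- the cocycle -/
noncomputable def hh (n : ℤ) : Hil := ⟨ee n, ee_mem n⟩

theorem norm_sq_eq (f : Hil) : ‖f‖ ^ 2 = ∑' j, ‖f j‖ ^ 2 := by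
  have := lp.norm_rpow_eq_tsum (p := 2) (by norm_num) f
  simpa using this

theorem ee_sub (m n : ℤ) (j : ℕ) : ‖ee m j - ee n j‖ = ‖ee (m - n) j‖ := by
  have h : ee m j - ee n j =
      Complex.exp (Complex.I * ((2 * Real.pi * n / 2 ^ (j ^ 2) : ℝ) : ℂ)) * ee (m - n) j := by
    unfold ee
    have h1 : Complex.exp (Complex.I * ((2 * Real.pi * m / 2 ^ (j ^ 2) : ℝ) : ℂ)) =
        Complex.exp (Complex.I * ((2 * Real.pi * n / 2 ^ (j ^ 2) : ℝ) : ℂ)) *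
        Complex.exp (Complex.I * ((2 * Real.pi * ((m - n : ℤ) : ℝ) / 2 ^ (j ^ 2) : ℝ) : ℂ)) := by
      rw [← Complex.exp_add]
      congr 1
      push_cast
      ring
    rw [h1]; ring
  rw [h, norm_mul, mul_comm Complex.I, Complex.norm_exp_ofReal_mul_I, one_mul]

theorem hh_sub (m n : ℤ) : ‖hh m - hh n‖ = ‖hh (m - n)‖ := by
  have h : ‖hh m - hh n‖ ^ 2 = ‖hh (m - n)‖ ^ 2 := by
    rw [norm_sq_eq, norm_sq_eq]
    congr 1
    funext j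
    change ‖ee m j - ee n j‖ ^ 2 = ‖ee (m - n) j‖ ^ 2
    rw [ee_sub]
  exact (pow_left_inj₀ (norm_nonneg _) (norm_nonneg _) two_ne_zero).1 h

theorem hh_diff_le (m n : ℤ) : |‖hh m‖ - ‖hh n‖| ≤ ‖hh (m - n)‖ := by
  rw [← hh_sub]
  exact abs_norm_sub_norm_le _ _

theorem ee_zero_of_le {k j : ℕ} (h : j ≤ k) : ee (2 ^ (k ^ 2)) j = 0 := by
  unfold ee
  have h1 : j ^ 2 ≤ k ^ 2 := Nat.pow_le_pow_left h 2
  have h2 : Complex.I * ((2 * Real.pi * ((2 ^ (k ^ 2) : ℤ) : ℝ) / 2 ^ (j ^ 2) : ℝ) : ℂ) =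
      ((2 ^ (k ^ 2 - j ^ 2) : ℕ) : ℂ) * (2 * Real.pi * Complex.I) := by
    have h3 : (2 : ℂ) ^ (k ^ 2) = 2 ^ (k ^ 2 - j ^ 2) * 2 ^ (j ^ 2) := by
      rw [← pow_add, Nat.sub_add_cancel h1]
    push_cast
    rw [h3]
    field_simp
  rw [h2, Complex.exp_nat_mul_two_pi_mul_I]
  simp

theorem ee_le_of_lt {k j : ℕ} (h : k < j) :
    ‖ee (2 ^ (k ^ 2)) j‖ ≤ 4 * Real.pi * (1 / 2) ^ j := by
  refine (ee_norm_le _ j).trans ?_
  have h1 : k ^ 2 + 2 * j ≤ j ^ 2 + 1 := by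
    have h0 : k + 1 ≤ j := h
    nlinarith
  have h2 : (2 : ℝ) ^ (k ^ 2 + 2 * j) ≤ 2 ^ (j ^ 2 + 1) := pow_le_pow_right₀ (by norm_num) h1
  have h3 : |(((2 : ℤ) ^ (k ^ 2) : ℤ) : ℝ)| = 2 ^ (k ^ 2) := by
    push_cast
    rw [abs_of_nonneg (by positivity)]
  rw [h3]
  have h4 : (2 : ℝ) ^ (k ^ 2 + 2 * j) = 2 ^ (k ^ 2) * (2 ^ j * 2 ^ j) := by
    rw [pow_add, two_mul, pow_add]
  have h5 : (2 : ℝ) ^ (j ^ 2 + 1) = 2 ^ (j ^ 2) * 2 := pow_succ _ _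
  rw [h4, h5] at h2
  have hj : (0 : ℝ) < 2 ^ j := by positivity
  have hjj : (0 : ℝ) < 2 ^ (j ^ 2) := by positivity
  have h6 : (2 : ℝ) ^ j * 2 ^ (k ^ 2) / 2 ^ (j ^ 2) ≤ 2 * (1 / 2) ^ j := by
    rw [one_div, inv_pow, div_le_iff₀ hjj]
    calc (2 : ℝ) ^ j * 2 ^ (k ^ 2) = (2 ^ (k ^ 2) * (2 ^ j * 2 ^ j)) * (2 ^ j)⁻¹ := by field_simp
      _ ≤ (2 ^ (j ^ 2) * 2) * (2 ^ j)⁻¹ := mul_le_mul_of_nonneg_right h2 (by positivity)
      _ = _ := by ring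
  have h7 := mul_le_mul_of_nonneg_left h6 (by positivity : 0 ≤ 2 * Real.pi)
  calc (2 : ℝ) ^ j * (2 * Real.pi * 2 ^ (k ^ 2) / 2 ^ (j ^ 2)) =
      2 * Real.pi * (2 ^ j * 2 ^ (k ^ 2) / 2 ^ (j ^ 2)) := by ring
    _ ≤ _ := h7
    _ = _ := by ring

theorem hh_rec : Tendsto (fun k : ℕ => ‖hh (2 ^ (k ^ 2))‖) atTop (𝓝 0) := by
  have h : Tendsto (fun k : ℕ => ∑' j, ‖ee (2 ^ (k ^ 2)) j‖ ^ 2) atTop (𝓝 (∑' _j : ℕ, (0 : ℝ))) := by
    refine tendsto_tsum_of_dominated_convergence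
      (bound := fun j : ℕ => (4 * Real.pi) ^ 2 * (1 / 4 : ℝ) ^ j) ?_ (fun j => ?_) ?_
    · exact (summable_geometric_of_lt_one (by norm_num) (by norm_num)).mul_left _
    · refine tendsto_const_nhds.congr' ?_
      filter_upwards [eventually_ge_atTop j] with k hk
      rw [ee_zero_of_le hk]; simp
    · refine Eventually.of_forall fun k j => ?_
      rw [Real.norm_eq_abs, abs_of_nonneg (by positivity)]
      rcases le_or_gt j k with hjk | hjk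
      · rw [ee_zero_of_le hjk]; simp; positivity
      · have h2 := pow_le_pow_left₀ (norm_nonneg _) (ee_le_of_lt hjk) 2
        refine h2.trans (le_of_eq ?_)
        rw [mul_pow, ← pow_mul, mul_comm j 2, pow_mul]
        norm_num
  rw [tsum_zero] at h
  have h2 : (fun k : ℕ => ‖hh (2 ^ (k ^ 2))‖) =
      fun k : ℕ => Real.sqrt (∑' j, ‖ee (2 ^ (k ^ 2)) j‖ ^ 2) := by
    funext k
    rw [← Real.sqrt_sq (norm_nonneg (hh (2 ^ (k ^ 2)))), norm_sq_eq]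
    rfl
  rw [h2]
  have := (Real.continuous_sqrt.tendsto 0).comp h
  rwa [Real.sqrt_zero] at this

theorem hh_unbdd (B : ℝ) : ∃ n : ℕ, B ≤ ‖hh n‖ := by
  obtain ⟨j, hj⟩ := pow_unbounded_of_one_lt B (one_lt_two (α := ℝ))
  refine ⟨2 ^ ((j + 1) ^ 2 - 1), ?_⟩
  have h1 : ‖ee ((2 ^ ((j + 1) ^ 2 - 1) : ℕ) : ℤ) (j + 1)‖ ≤
      ‖hh ((2 ^ ((j + 1) ^ 2 - 1) : ℕ) : ℤ)‖ :=
    lp.norm_apply_le_norm (by norm_num) (hh ((2 ^ ((j + 1) ^ 2 - 1) : ℕ) : ℤ)) (j + 1)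
  refine le_trans ?_ h1
  have h2 : ee ((2 ^ ((j + 1) ^ 2 - 1) : ℕ) : ℤ) (j + 1) = 2 ^ (j + 1) * (-2) := by
    unfold ee
    have h3 : Complex.I * ((2 * Real.pi * (((2 ^ ((j + 1) ^ 2 - 1) : ℕ) : ℤ) : ℝ) /
        2 ^ ((j + 1) ^ 2) : ℝ) : ℂ) = Real.pi * Complex.I := by
      have h4 : (2 : ℂ) ^ ((j + 1) ^ 2) = 2 ^ ((j + 1) ^ 2 - 1) * 2 := by
        rw [← pow_succ, Nat.sub_add_cancel (Nat.one_le_pow _ _ (Nat.succ_pos j))]
      push_cast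
      rw [h4]
      field_simp
    rw [h3, Complex.exp_pi_mul_I]
    ring
  rw [h2, norm_mul, norm_pow]
  simp only [Complex.norm_ofNat, norm_neg]
  have : (2 : ℝ) ^ (j + 1) = 2 ^ j * 2 := pow_succ _ _
  nlinarith [pow_pos (two_pos (α := ℝ)) j]

theorem hh_zero : hh 0 = 0 := by
  ext j
  change ee 0 j = 0
  unfold ee
  simp

theorem hh_nat_le (j : ℕ) : ‖hh j‖ ≤ j * ‖hh 1‖ := by
  induction j with
  | zero => simp [hh_zero]
  | succ j ih =>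
    have h1 := hh_diff_le ((j : ℤ) + 1) j
    rw [add_sub_cancel_left] at h1
    have h2 := (abs_le.1 h1).2
    push_cast
    linarith

/-- the cocycle norm comes close to every positive value. -/
theorem hh_near {t : ℝ} (ht : 0 ≤ t) : ∃ n : ℕ, t ≤ ‖hh n‖ ∧ ‖hh n‖ ≤ t + ‖hh 1‖ := by
  classical
  have hex : ∃ n : ℕ, t ≤ ‖hh n‖ := hh_unbdd t
  refine ⟨Nat.find hex, Nat.find_spec hex, ?_⟩
  rcases Nat.eq_zero_or_pos (Nat.find hex) with h0 | h0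
  · rw [h0]
    have : ‖hh ((0 : ℕ) : ℤ)‖ = 0 := by simp [hh_zero]
    rw [this]
    positivity
  · obtain ⟨m, hm⟩ : ∃ m, Nat.find hex = m + 1 := ⟨Nat.find hex - 1, by omega⟩
    have h1 := Nat.find_min hex (m := m) (by omega)
    rw [not_le] at h1
    rw [hm]
    have h2 := hh_diff_le ((m : ℤ) + 1) m
    rw [add_sub_cancel_left] at h2
    have h3 := (abs_le.1 h2).2
    push_cast
    linarith

/-- the sequence -/
noncomputable def xs (n : ℕ) : ℝ := Fs ‖hh n‖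

theorem xs_rec (i : ℕ) : Tendsto (fun k : ℕ => xs (i + 2 ^ (k ^ 2))) atTop (𝓝 (xs i)) := by
  rw [tendsto_iff_dist_tendsto_zero]
  refine squeeze_zero (fun _ => dist_nonneg) (fun k => ?_) hh_rec
  rw [Real.dist_eq]
  refine (Fs_lip (norm_nonneg _) (norm_nonneg _)).trans ?_
  have := hh_diff_le ((i + 2 ^ (k ^ 2) : ℕ) : ℤ) i
  push_cast at this ⊢
  rwa [add_sub_cancel_left] at this

/-- long stretches where the sequence is nearly constant with value `sin θ`. -/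
theorem xs_const (θ0 : ℝ) (J : ℕ) {η : ℝ} (hη : 0 < η) :
    ∃ n : ℕ, ∀ j, j < J → |xs (n + j) - Real.sin θ0| ≤ η := by
  set B := ‖hh 1‖ with hB
  have hB0 : 0 ≤ B := norm_nonneg _
  obtain ⟨K, hK⟩ := exists_nat_ge (max (2 * Real.exp (1 / η)) (2 * (J + 1) * B) + |θ0|)
  set θ := θ0 + K * (2 * Real.pi) with hθ
  have hsin : Real.sin θ = Real.sin θ0 := Real.sin_add_nat_mul_two_pi _ _
  set t := Real.exp (Real.exp θ - 1) - 1 with ht
  have hKθ : (K : ℝ) - |θ0| ≤ θ := by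
    have h1 : (K : ℝ) * 1 ≤ K * (2 * Real.pi) :=
      mul_le_mul_of_nonneg_left (by linarith [Real.pi_gt_three]) (by positivity)
    have h2 := neg_abs_le θ0
    linarith
  have htθ : θ ≤ t := le_arg θ
  have ht1 : 2 * Real.exp (1 / η) ≤ t := by
    have := le_max_left (2 * Real.exp (1 / η)) (2 * (J + 1) * B)
    linarith
  have ht2 : 2 * (J + 1) * B ≤ t := by
    have := le_max_right (2 * Real.exp (1 / η)) (2 * (J + 1) * B)
    linarith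
  have ht0 : 0 ≤ t := by have := Real.exp_pos (1 / η); linarith
  obtain ⟨n, hn1, hn2⟩ := hh_near ht0
  refine ⟨n, fun j hj => ?_⟩
  rw [← hsin, ← Fs_value θ, ← ht]
  have h1 := hh_diff_le ((n + j : ℕ) : ℤ) n
  push_cast at h1
  rw [add_sub_cancel_left] at h1
  have h2 := abs_le.1 (h1.trans (hh_nat_le j))
  have h3 : (j : ℝ) * B ≤ J * B := mul_le_mul_of_nonneg_right (by exact_mod_cast hj.le) hB0
  unfold xs
  push_cast
  have he := Real.exp_pos (1 / η)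
  refine Fs_slow hη ?_ (by linarith) ?_ ?_
  · linarith [h2.1]
  · linarith [h2.2]
  · linarith [h2.1]

end Pool.Agent.X301
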