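import Mathlib
import Pool.Agent.X301.NullCocycle

set_option autoImplicit false

/-!
# A null transitive system which is not mean equicontinuous
-/

open Set Filter Topology

namespace Pool.Agent.X301

/-- uniform control of the metric by finitely many coordinates -/
theorem modulus {Z : Type*} [MetricSpace Z] [CompactSpace Z] (c : ℕ → Z → ℝ)
    (hc : ∀ i, Continuous (c i)) (hsep : ∀ z z', (∀ i, c i z = c i z') → z = z')
    {ε : ℝ} (hε : 0 < ε) : ∃ J : ℕ, ∃ η : ℝ, 0 < η ∧ ∀ z z', (∀ j, j < J + 1 →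
      |c j z - c j z'| < η) → dist z z' < ε := by
  have hK : IsCompact {p : Z × Z | ε ≤ dist p.1 p.2} :=
    (isClosed_le continuous_const continuous_dist).isCompact
  have hU : ∀ m : ℕ, IsOpen {p : Z × Z | ∃ j, j < m + 1 ∧ 1 / ((m : ℝ) + 1) < |c j p.1 - c j p.2|} := by
    intro m
    have : {p : Z × Z | ∃ j, j < m + 1 ∧ 1 / ((m : ℝ) + 1) < |c j p.1 - c j p.2|} =
        ⋃ j, ⋃ (_ : j < m + 1), {p : Z × Z | 1 / ((m : ℝ) + 1) < |c j p.1 - c j p.2|} := by
      ext p; simp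
    rw [this]
    refine isOpen_iUnion fun j => isOpen_iUnion fun _ => isOpen_lt continuous_const ?_
    exact (((hc j).comp continuous_fst).sub ((hc j).comp continuous_snd)).abs
  have hmono : Monotone (fun m : ℕ =>
      {p : Z × Z | ∃ j, j < m + 1 ∧ 1 / ((m : ℝ) + 1) < |c j p.1 - c j p.2|}) := by
    intro m m' hm p hp
    obtain ⟨j, hj, hlt⟩ := hp
    refine ⟨j, by omega, lt_of_le_of_lt ?_ hlt⟩
    apply one_div_le_one_div_of_le (by positivity)
    have : (m : ℝ) ≤ m' := by exact_mod_cast hm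
    linarith
  obtain ⟨m, hm⟩ := hK.elim_directed_cover _ hU (by
    intro p hp
    have hne : p.1 ≠ p.2 := by
      intro h
      have h2 : ε ≤ dist p.1 p.2 := hp
      rw [h, dist_self] at h2
      linarith
    have : ∃ i, c i p.1 ≠ c i p.2 := by
      by_contra hcon
      push Not at hcon
      exact hne (hsep _ _ hcon)
    obtain ⟨i, hi⟩ := this
    have hpos : 0 < |c i p.1 - c i p.2| := abs_pos.2 (sub_ne_zero.2 hi)
    obtain ⟨k, hk⟩ := exists_nat_one_div_lt hpos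
    refine mem_iUnion.2 ⟨max i k, i, by omega, lt_of_le_of_lt ?_ hk⟩
    apply one_div_le_one_div_of_le (by positivity)
    have : (k : ℝ) ≤ (max i k : ℕ) := by exact_mod_cast le_max_right i k
    linarith) (directed_of_isDirected_le hmono)
  refine ⟨m, 1 / ((m : ℝ) + 1), by positivity, fun z z' h => ?_⟩
  by_contra hcon
  rw [not_lt] at hcon
  obtain ⟨j, hj, hlt⟩ := hm (show (z, z') ∈ {p : Z × Z | ε ≤ dist p.1 p.2} from hcon)
  exact absurd (h j hj) (not_lt.2 hlt.le)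

/-- the data of the system -/
structure Sys (Z : Type) [MetricSpace Z] [CompactSpace Z] (T : Z → Z) (c : ℕ → Z → ℝ)
    (z0 : Z) : Prop where
  cont : Continuous T
  hc : ∀ i, Continuous (c i)
  hsep : ∀ z z', (∀ i, c i z = c i z') → z = z'
  hcT : ∀ n j z, c j (T^[n] z) = c (j + n) z
  hz0 : ∀ n, c n z0 = xs n
  dense : DenseRange fun n : ℕ => T^[n] z0
  full : ∀ θ : ℝ, ∃ p, ∀ i, c i p = Real.sin θ

variable {Z : Type} [MetricSpace Z] [CompactSpace Z] {T : Z → Z} {c : ℕ → Z → ℝ} {z0 : Z}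

theorem Sys.recur (h : Sys Z T c z0) :
    Tendsto (fun k : ℕ => T^[2 ^ (k ^ 2)] z0) atTop (𝓝 z0) := by
  rw [Metric.tendsto_nhds]
  intro ε hε
  obtain ⟨J, η, hη, hJ⟩ := modulus c h.hc h.hsep hε
  have hall : ∀ᶠ k : ℕ in atTop, ∀ j ∈ Finset.range (J + 1),
      |xs (j + 2 ^ (k ^ 2)) - xs j| < η := by
    rw [Finset.eventually_all]
    intro j _
    have := Metric.tendsto_nhds.1 (xs_rec j) η hη
    simpa [Real.dist_eq] using this
  filter_upwards [hall] with k hk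
  refine hJ _ _ fun j hj => ?_
  rw [h.hcT, h.hz0, h.hz0]
  exact hk j (Finset.mem_range.2 hj)

theorem Sys.transitive (h : Sys Z T c z0) (U V : Set Z) (hU : IsOpen U) (hV : IsOpen V)
    (hUn : U.Nonempty) (hVn : V.Nonempty) : ∃ n : ℕ, 1 ≤ n ∧ (V ∩ T^[n] ⁻¹' U).Nonempty := by
  obtain ⟨m, hm⟩ := h.dense.exists_mem_open hV hVn
  obtain ⟨l, hl⟩ := h.dense.exists_mem_open hU hUn
  have hcl : Continuous (T^[l]) := h.cont.iterate l
  have ht : Tendsto (fun k : ℕ => T^[l] (T^[2 ^ (k ^ 2)] z0)) atTop (𝓝 (T^[l] z0)) :=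
    (hcl.tendsto z0).comp h.recur
  have hev := ht.eventually (hU.mem_nhds hl)
  have hbig : ∀ᶠ k : ℕ in atTop, m < 2 ^ (k ^ 2) := by
    filter_upwards [eventually_ge_atTop m, eventually_ge_atTop 1] with k hk hk1
    calc m ≤ k := hk
      _ < 2 ^ k := Nat.lt_two_pow_self
      _ ≤ 2 ^ (k ^ 2) := Nat.pow_le_pow_right (by norm_num) (by nlinarith)
  obtain ⟨k, hk1, hk2⟩ := (hev.and hbig).exists
  refine ⟨l + 2 ^ (k ^ 2) - m, by omega, T^[m] z0, hm, ?_⟩
  change T^[l + 2 ^ (k ^ 2) - m] (T^[m] z0) ∈ U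
  rw [← Function.iterate_add_apply]
  have : l + 2 ^ (k ^ 2) - m + m = l + 2 ^ (k ^ 2) := by omega
  rw [this, Function.iterate_add_apply]
  exact hk1

theorem poly_le_exp (C D : ℕ) {δ : ℝ} (hδ : 0 < δ) (J : ℕ) :
    ∀ᶠ n : ℕ in atTop, (C : ℝ) * ((n * (J + 1) + 1 : ℕ) : ℝ) ^ D ≤ Real.exp (δ * n) := by
  have h1 := isLittleO_pow_exp_pos_mul_atTop (k := D) hδ
  have hpos : (0 : ℝ) < 1 / (C * (J + 2) ^ D + 1) := by positivity
  have h2 := (h1.def hpos)
  have h3 := tendsto_natCast_atTop_atTop (R := ℝ) |>.eventually h2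
  filter_upwards [h3, eventually_ge_atTop 1] with n hn hn1
  have e1 : ‖(n : ℝ) ^ D‖ = (n : ℝ) ^ D := by
    rw [Real.norm_eq_abs, abs_of_nonneg (by positivity)]
  rw [e1, Real.norm_eq_abs, Real.abs_exp] at hn
  have hnn : (1 : ℝ) ≤ n := by exact_mod_cast hn1
  have h4 : ((n * (J + 1) + 1 : ℕ) : ℝ) ≤ (J + 2) * n := by
    push_cast; nlinarith
  have h5 : ((n * (J + 1) + 1 : ℕ) : ℝ) ^ D ≤ (J + 2) ^ D * (n : ℝ) ^ D := by
    rw [← mul_pow]
    exact pow_le_pow_left₀ (by positivity) h4 D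
  have h6 : 0 < (C : ℝ) * (J + 2) ^ D + 1 := by positivity
  have h7 : ((C : ℝ) * (J + 2) ^ D + 1) * (n : ℝ) ^ D ≤ Real.exp (δ * n) := by
    rw [div_mul_eq_mul_div, one_mul, le_div_iff₀ h6] at hn
    linarith
  have h8 : 0 ≤ (n : ℝ) ^ D := by positivity
  calc (C : ℝ) * ((n * (J + 1) + 1 : ℕ) : ℝ) ^ D ≤ C * ((J + 2) ^ D * (n : ℝ) ^ D) :=
        mul_le_mul_of_nonneg_left h5 (by positivity)
    _ ≤ ((C : ℝ) * (J + 2) ^ D + 1) * (n : ℝ) ^ D := by nlinarith
    _ ≤ _ := h7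

theorem Sys.null (h : Sys Z T c z0) (a : ℕ → ℕ) (ε : ℝ) (hε : 0 < ε) (δ : ℝ) (hδ : 0 < δ) :
    ∀ᶠ n in atTop, ∀ F : Finset Z,
      (∀ x ∈ F, ∀ y ∈ F, x ≠ y → ∃ i < n, ε ≤ dist (T^[a i] x) (T^[a i] y)) →
      (F.card : ℝ) ≤ Real.exp (δ * n) := by
  obtain ⟨J, η, hη, hJ⟩ := modulus c h.hc h.hsep hε
  let _ : InnerProductSpace ℝ Hil := InnerProductSpace.rclikeToReal ℂ Hil
  obtain ⟨C, D, hCD⟩ := cover (H := Hil) (η / 8) (by positivity)
  filter_upwards [poly_le_exp C D hδ J, eventually_ge_atTop 1] with n hn hn1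
  intro F hF
  have : Nonempty (Fin n × Fin (J + 1)) := ⟨(⟨0, hn1⟩, ⟨0, Nat.succ_pos J⟩)⟩
  obtain ⟨𝒢, hG1, hG2⟩ := hCD (Fin n × Fin (J + 1)) (fun q => hh ((q.2 : ℕ) + a q.1 : ℕ))
  have hcard : Fintype.card (Fin n × Fin (J + 1)) = n * (J + 1) := by simp
  rw [hcard] at hG1
  -- approximate points of the space by the orbit
  have happ : ∀ y : Z, ∃ m : ℕ, ∀ q : Fin n × Fin (J + 1),
      |c ((q.2 : ℕ) + a q.1) y - xs ((q.2 : ℕ) + a q.1 + m)| < η / 8 := by
    intro y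
    have hopen : IsOpen {z : Z | ∀ q : Fin n × Fin (J + 1),
        |c ((q.2 : ℕ) + a q.1) y - c ((q.2 : ℕ) + a q.1) z| < η / 8} := by
      have : {z : Z | ∀ q : Fin n × Fin (J + 1),
        |c ((q.2 : ℕ) + a q.1) y - c ((q.2 : ℕ) + a q.1) z| < η / 8} =
        ⋂ q : Fin n × Fin (J + 1), {z : Z |
          |c ((q.2 : ℕ) + a q.1) y - c ((q.2 : ℕ) + a q.1) z| < η / 8} := by
        ext z; simp
      rw [this]
      refine isOpen_iInter_of_finite fun q => isOpen_lt ?_ continuous_const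
      exact (continuous_const.sub (h.hc _)).abs
    obtain ⟨m, hm⟩ := h.dense.exists_mem_open hopen ⟨y, fun q => by simp; positivity⟩
    refine ⟨m, fun q => ?_⟩
    have := hm q
    rwa [h.hcT, h.hz0] at this
  choose mm hmm using happ
  have hval : ∀ y : Z, ∀ q : Fin n × Fin (J + 1), xs ((q.2 : ℕ) + a q.1 + mm y) =
      Fs ‖hh ((q.2 : ℕ) + a q.1 : ℕ) - hh (-(mm y : ℤ))‖ := by
    intro y q
    rw [hh_sub, sub_neg_eq_add]
    unfold xs
    push_cast
    rfl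
  choose g hg1 hg2 using fun y : Z => hG2 (hh (-(mm y : ℤ)))
  have hinj : Set.InjOn g F := by
    intro y hy y' hy' hgg
    by_contra hne
    obtain ⟨i, hi, hd⟩ := hF y hy y' hy' hne
    have hlt : dist (T^[a i] y) (T^[a i] y') < ε := by
      refine hJ _ _ fun j hj => ?_
      rw [h.hcT, h.hcT]
      have a1 := hmm y (⟨i, hi⟩, ⟨j, hj⟩)
      have a2 := hmm y' (⟨i, hi⟩, ⟨j, hj⟩)
      have b1 := hg2 y (⟨i, hi⟩, ⟨j, hj⟩)
      have b2 := hg2 y' (⟨i, hi⟩, ⟨j, hj⟩)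
      rw [← hval] at b1 b2
      rw [← hgg] at b2
      simp only at a1 a2 b1 b2
      rw [abs_lt] at a1 a2 ⊢
      rw [abs_le] at b1 b2
      constructor <;> linarith [a1.1, a1.2, a2.1, a2.2, b1.1, b1.2, b2.1, b2.2]
    linarith
  have hle : F.card ≤ 𝒢.card := by
    classical
    rw [← Finset.card_image_of_injOn hinj]
    apply Finset.card_le_card
    intro w hw
    obtain ⟨y, _, rfl⟩ := Finset.mem_image.1 hw
    exact hg1 y
  have : (F.card : ℝ) ≤ (C : ℝ) * ((n * (J + 1) + 1 : ℕ) : ℝ) ^ D := by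
    exact_mod_cast hle.trans hG1
  exact this.trans hn

theorem Sys.iter_const (h : Sys Z T c z0) {p : Z} {v : ℝ} (hp : ∀ i, c i p = v) (n : ℕ) :
    T^[n] p = p := by
  apply h.hsep
  intro i
  rw [h.hcT, hp, hp]

theorem avg_aux (f : ℕ → ℝ) (hf : ∀ i, 0 ≤ f i) (m M : ℕ) (hm : m ≤ M) (n : ℕ) :
    ∑ i ∈ Finset.range n, f (i + M) ≤ ∑ i ∈ Finset.range (n + (M - m)), f (i + m) := by
  have h1 : n + (M - m) = (M - m) + n := Nat.add_comm _ _
  rw [h1, Finset.sum_range_add]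
  have h2 : ∑ i ∈ Finset.range n, f (i + M) =
      ∑ i ∈ Finset.range n, f ((M - m) + i + m) := by
    refine Finset.sum_congr rfl fun i _ => ?_
    congr 1; omega
  rw [h2]
  have : 0 ≤ ∑ i ∈ Finset.range (M - m), f (i + m) := Finset.sum_nonneg fun i _ => hf _
  linarith

theorem Sys.not_mean_equicontinuous (h : Sys Z T c z0) :
    ¬ (∀ ε : ℝ, 0 < ε → ∃ δ : ℝ, 0 < δ ∧ ∀ x y : Z, dist x y < δ →
        ∀ᶠ n in atTop,
          (∑ i ∈ Finset.range n, dist (T^[i] x) (T^[i] y)) / (n : ℝ) < ε) := by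
  intro hME
  obtain ⟨p, hp⟩ := h.full (Real.pi / 2)
  obtain ⟨q, hq⟩ := h.full 0
  rw [Real.sin_pi_div_two] at hp
  rw [Real.sin_zero] at hq
  have hne : p ≠ q := by
    intro he
    have h1 := hp 0
    rw [he, hq 0] at h1
    exact zero_ne_one h1
  set dd := dist p q with hdd
  have hd : 0 < dd := dist_pos.2 hne
  obtain ⟨δ, hδ, hME⟩ := hME (dd / 4) (by positivity)
  obtain ⟨m, hm⟩ := h.dense.exists_mem_open (Metric.isOpen_ball (x := p) (ε := δ))
    ⟨p, Metric.mem_ball_self hδ⟩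
  obtain ⟨l, hl⟩ := h.dense.exists_mem_open (Metric.isOpen_ball (x := q) (ε := δ))
    ⟨q, Metric.mem_ball_self hδ⟩
  rw [Metric.mem_ball] at hm hl
  have e1 := hME _ _ hm
  have e2 := hME _ _ hl
  set M := max m l with hM
  have f1 := (tendsto_add_atTop_nat (M - m)).eventually e1
  have f2 := (tendsto_add_atTop_nat (M - l)).eventually e2
  obtain ⟨n, ⟨hn1, hn2⟩, hnM, hn0⟩ := ((f1.and f2).and
    ((eventually_gt_atTop (M + M)).and (eventually_gt_atTop 0))).exists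
  have hnpos : (0 : ℝ) < n := by exact_mod_cast hn0
  have g1 : ∑ i ∈ Finset.range (n + (M - m)), dist (T^[i + m] z0) p <
      dd / 4 * ((n : ℝ) + M) := by
    rw [div_lt_iff₀ (by exact_mod_cast (by omega : 0 < n + (M - m)))] at hn1
    have h1 : ∑ i ∈ Finset.range (n + (M - m)), dist (T^[i] (T^[m] z0)) (T^[i] p) =
        ∑ i ∈ Finset.range (n + (M - m)), dist (T^[i + m] z0) p := by
      refine Finset.sum_congr rfl fun i _ => ?_
      rw [h.iter_const hp, ← Function.iterate_add_apply]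
    rw [h1] at hn1
    refine hn1.trans_le (mul_le_mul_of_nonneg_left ?_ (by positivity))
    have : M - m ≤ M := Nat.sub_le _ _
    exact_mod_cast (by omega : n + (M - m) ≤ n + M)
  have g2 : ∑ i ∈ Finset.range (n + (M - l)), dist (T^[i + l] z0) q <
      dd / 4 * ((n : ℝ) + M) := by
    rw [div_lt_iff₀ (by exact_mod_cast (by omega : 0 < n + (M - l)))] at hn2
    have h1 : ∑ i ∈ Finset.range (n + (M - l)), dist (T^[i] (T^[l] z0)) (T^[i] q) =
        ∑ i ∈ Finset.range (n + (M - l)), dist (T^[i + l] z0) q := by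
      refine Finset.sum_congr rfl fun i _ => ?_
      rw [h.iter_const hq, ← Function.iterate_add_apply]
    rw [h1] at hn2
    refine hn2.trans_le (mul_le_mul_of_nonneg_left ?_ (by positivity))
    exact_mod_cast (by omega : n + (M - l) ≤ n + M)
  have k1 := avg_aux (fun i => dist (T^[i] z0) p) (fun _ => dist_nonneg) m M
    (le_max_left _ _) n
  have k2 := avg_aux (fun i => dist (T^[i] z0) q) (fun _ => dist_nonneg) l M
    (le_max_right _ _) n
  have k3 : (n : ℝ) * dd ≤ ∑ i ∈ Finset.range n, dist (T^[i + M] z0) p +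
      ∑ i ∈ Finset.range n, dist (T^[i + M] z0) q := by
    rw [← Finset.sum_add_distrib]
    calc (n : ℝ) * dd = ∑ _i ∈ Finset.range n, dd := by simp
      _ ≤ _ := Finset.sum_le_sum fun i _ => by
        rw [hdd, dist_comm (T^[i + M] z0) p]
        exact dist_triangle _ _ _
  have k4 : (n : ℝ) * dd < dd / 4 * ((n : ℝ) + M) + dd / 4 * ((n : ℝ) + M) := by linarith
  have k5 : ((M : ℝ) + M) < n := by exact_mod_cast hnM
  nlinarith

end Pool.Agent.X301
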