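import Mathlib

/-!
# Random substitutions on two letters

Letters: `false` is `a`, `true` is `b`.
-/

set_option autoImplicit false

namespace Pool.Agent.X301.Par

open MeasureTheory Filter Topology

/-- A random substitution on the alphabet `{a, b}` (`a = false`, `b = true`): every letter `α` has
finitely many distinct realisations, which are nonempty words, with positive probabilities of
sum one. -/
structure RandomSubstitution where
  /-- the realisations of a letter -/
  real : Bool → Finset (List Bool)
  /-- their probabilities -/
  prob : Bool → List Bool → ℝ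
  ne_nil : ∀ α, ∀ r ∈ real α, r ≠ []
  prob_pos : ∀ α, ∀ r ∈ real α, 0 < prob α r
  prob_sum : ∀ α, ∑ r ∈ real α, prob α r = 1

namespace RandomSubstitution

variable (θ : RandomSubstitution)

/-- The substitution matrix: the entry `(β, α)` is the expected number of letters `β` in the image
of the letter `α`. -/
noncomputable def matrix : Matrix Bool Bool ℝ :=
  fun β α => ∑ r ∈ θ.real α, θ.prob α r * (r.count β : ℝ)

/-- Some power of the substitution matrix has all entries positive. -/
def Primitive : Prop := ∃ k : ℕ, ∀ β α, 0 < (θ.matrix ^ k) β α

/-- The law of the image of a word: the letters are replaced independently of each other by one of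
their realisations. -/
noncomputable def law : List Bool → @Measure (List Bool) ⊤
  | [] => @Measure.dirac _ ⊤ []
  | α :: u => ∑ r ∈ θ.real α, ENNReal.ofReal (θ.prob α r) •
      (@Measure.map _ _ ⊤ ⊤ (fun w => r ++ w) (law u))

/-- The random words `W 0, W 1, …` on the probability space `(Ω, P)` are a realisation of
`α, ϑ(α), ϑ²(α), …`: `W 0 = α`, and given `W n = w`, the law of `W (n + 1)` is that of the image
of `w`. -/
structure IsRealisation (α : Bool) {Ω : Type} [MeasurableSpace Ω] (P : Measure Ω)
    (W : ℕ → Ω → List Bool) : Prop where
  measurable : ∀ n, @Measurable _ _ _ ⊤ (W n)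
  start : ∀ᵐ ω ∂P, W 0 ω = [α]
  step : ∀ (n : ℕ) (w : List Bool) (S : Set (List Bool)),
    P {ω | W n ω = w ∧ W (n + 1) ω ∈ S} = P {ω | W n ω = w} * θ.law w S

end RandomSubstitution

/-- The number of occurrences of the nonempty word `v` in the word `w`: the number of nonempty final
segments of `w` that begin with `v`. -/
def occ (v : List Bool) : List Bool → ℕ
  | [] => 0
  | x :: w => (if v <+: x :: w then 1 else 0) + occ v w

/-- The transition probabilities of the Parry measure of the golden mean shift: `τ⁻¹` from `a` to
`a`, `τ⁻²` from `a` to `b`, and `1` from `b` to `a`. -/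
noncomputable def trans : Bool → Bool → ℝ
  | false, false => Real.goldenRatio⁻¹
  | false, true => (Real.goldenRatio ^ 2)⁻¹
  | true, false => 1
  | true, true => 0

/-- The initial distribution of the Parry measure. -/
noncomputable def init : Bool → ℝ
  | false => Real.goldenRatio ^ 2 / (Real.goldenRatio ^ 2 + 1)
  | true => 1 / (Real.goldenRatio ^ 2 + 1)

/-- The probability that the Markov chain started at the letter `x` continues with the word `u`. -/
noncomputable def pathProb : Bool → List Bool → ℝ
  | _, [] => 1
  | x, y :: u => trans x y * pathProb y u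

/-- The two-sided sequences with the word `v` at the positions `k, k + 1, …`. -/
def cylinder (k : ℤ) (v : List Bool) : Set (ℤ → Bool) :=
  {x | ∀ (i : ℕ) (h : i < v.length), x (k + i) = v[i]}

/-- The Parry measure of the golden mean shift: the stationary Markov measure with the transition
probabilities `trans` and the initial distribution `init`. -/
def IsParry (μ : Measure (ℤ → Bool)) : Prop :=
  IsProbabilityMeasure μ ∧ ∀ (k : ℤ) (x : Bool) (u : List Bool),
    μ.real (cylinder k (x :: u)) = init x * pathProb x u

/-- `μ` is the frequency measure of the random substitution `θ`: it is a shift-invariant Borel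
probability measure on the two-sided sequences, and for all letters `α`, all nonempty words `v` and
all realisations `W n` of `ϑⁿ(α)`, the relative frequency of the occurrences of `v` in `W n` almost
surely converges to the measure of the cylinder `[v]` at the origin. -/
def IsFrequencyMeasure (θ : RandomSubstitution) (μ : Measure (ℤ → Bool)) : Prop :=
  IsProbabilityMeasure μ ∧ μ.map (fun (x : ℤ → Bool) i => x (i + 1)) = μ ∧
    ∀ (α : Bool) (v : List Bool), v ≠ [] →
      ∀ (Ω : Type) [MeasurableSpace Ω] (P : Measure Ω) [IsProbabilityMeasure P]
        (W : ℕ → Ω → List Bool), θ.IsRealisation α P W →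
        ∀ᵐ ω ∂P, Tendsto (fun n => (occ v (W n ω) : ℝ) / ((W n ω).length : ℝ)) atTop
          (𝓝 (μ.real (cylinder 0 v)))

/-! ### The averaging operator -/

/-- `τ⁻¹` -/
noncomputable def q : ℝ := Real.goldenRatio⁻¹
/-- `τ⁻²` -/
noncomputable def p : ℝ := (Real.goldenRatio ^ 2)⁻¹

theorem q_pos : 0 < q := inv_pos.2 Real.goldenRatio_pos
theorem p_pos : 0 < p := inv_pos.2 (pow_pos Real.goldenRatio_pos 2)
theorem q_add_p : q + p = 1 := by
  unfold q p
  have h := Real.goldenRatio_pos
  have h2 := Real.goldenRatio_sq
  generalize Real.goldenRatio = x at h h2
  field_simp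
  linarith
theorem q_le : q ≤ 1 := by have := q_add_p; have := p_pos; linarith
theorem p_le : p ≤ 1 := by have := q_add_p; have := q_pos; linarith

/-- average over one block in front -/
noncomputable def A (F : List Bool → ℝ) (w : List Bool) : ℝ :=
  q * F (false :: w) + p * F (false :: true :: w)

theorem A_mono {F G : List Bool → ℝ} {n : ℕ} (h : ∀ w, n + 1 ≤ w.length → F w ≤ G w) :
    ∀ w, n ≤ w.length → A F w ≤ A G w := by
  intro w hw
  have h1 := h (false :: w) (by simp; omega)
  have h2 := h (false :: true :: w) (by simp; omega)
  have := q_pos; have := p_pos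
  unfold A
  nlinarith

theorem iter_mono {F G : List Bool → ℝ} (m : ℕ) : ∀ {n : ℕ},
    (∀ w, n + m ≤ w.length → F w ≤ G w) → ∀ w, n ≤ w.length → (A^[m]) F w ≤ (A^[m]) G w := by
  induction m generalizing F G with
  | zero => intro n h w hw; exact h w (by omega)
  | succ m ih =>
    intro n h w hw
    rw [Function.iterate_succ_apply, Function.iterate_succ_apply]
    refine ih (n := n) (fun w hw => A_mono (n := n + m) (fun w hw => h w (by omega)) w hw) w hw

theorem A_add (F G : List Bool → ℝ) : A (fun w => F w + G w) = fun w => A F w + A G w := by
  funext w; unfold A; ring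

theorem A_smul (c : ℝ) (F : List Bool → ℝ) : A (fun w => c * F w) = fun w => c * A F w := by
  funext w; unfold A; ring

theorem A_const (c : ℝ) : A (fun _ => c) = fun _ => c := by
  funext w
  unfold A
  rw [← add_mul, q_add_p, one_mul]

theorem iter_const (m : ℕ) (c : ℝ) : (A^[m]) (fun _ => c) = fun _ => c := by
  induction m with
  | zero => rfl
  | succ m ih => rw [Function.iterate_succ_apply, A_const, ih]

theorem iter_add (m : ℕ) (F G : List Bool → ℝ) :
    (A^[m]) (fun w => F w + G w) = fun w => (A^[m]) F w + (A^[m]) G w := by
  induction m generalizing F G with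
  | zero => rfl
  | succ m ih => rw [Function.iterate_succ_apply, A_add, ih]; rfl

theorem iter_smul (m : ℕ) (c : ℝ) (F : List Bool → ℝ) :
    (A^[m]) (fun w => c * F w) = fun w => c * (A^[m]) F w := by
  induction m generalizing F with
  | zero => rfl
  | succ m ih => rw [Function.iterate_succ_apply, A_smul, ih]; rfl

/-- indicator of the words that begin with `u` -/
noncomputable def ind (u w : List Bool) : ℝ := by classical exact if u <+: w then 1 else 0

theorem A_ind_nil : A (ind []) = fun _ => 1 := by
  funext w; simp [A, ind, q_add_p]

theorem A_ind_a : A (ind [false]) = fun _ => 1 := by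
  funext w; simp [A, ind, q_add_p]

theorem A_ind_b (u : List Bool) : A (ind (true :: u)) = fun _ => 0 := by
  funext w; simp [A, ind]

theorem A_ind_aa (u : List Bool) :
    A (ind (false :: false :: u)) = fun w => q * ind (false :: u) w := by
  funext w; simp [A, ind]

theorem A_ind_ab (u : List Bool) :
    A (ind (false :: true :: u)) = fun w => q * ind (true :: u) w + p * ind u w := by
  funext w; simp [A, ind]

theorem pathProb_true_false (u : List Bool) : pathProb true (false :: u) = pathProb false u := by
  simp [pathProb, trans]

theorem iter_ind : ∀ (n : ℕ) (u : List Bool), u.length ≤ n → ∀ k, u.length ≤ k →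
    (A^[k]) (ind u) = fun _ => pathProb true u := by
  intro n
  induction n with
  | zero =>
    intro u hu k _
    have : u = [] := List.length_eq_zero_iff.1 (by omega)
    subst this
    have h1 : ind [] = fun _ => 1 := by funext w; simp [ind]
    rw [h1, iter_const]
    simp [pathProb]
  | succ n ih =>
    intro u hu k hk
    match u, hu, hk with
    | [], _, _ => exact ih [] (by simp) k (by simp)
    | [false], _, hk =>
      obtain ⟨k, rfl⟩ : ∃ k', k = k' + 1 := ⟨k - 1, by simp at hk; omega⟩
      rw [Function.iterate_succ_apply, A_ind_a, iter_const]
      simp [pathProb, trans]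
    | true :: u, _, hk =>
      obtain ⟨k, rfl⟩ : ∃ k', k = k' + 1 := ⟨k - 1, by simp at hk; omega⟩
      rw [Function.iterate_succ_apply, A_ind_b, iter_const]
      simp [pathProb, trans]
    | false :: false :: u, hu, hk =>
      obtain ⟨k, rfl⟩ : ∃ k', k = k' + 1 := ⟨k - 1, by simp at hk; omega⟩
      rw [Function.iterate_succ_apply, A_ind_aa, iter_smul,
        ih (false :: u) (by simp at hu ⊢; omega) k (by simp at hk ⊢; omega)]
      funext w
      simp only [pathProb, trans, q]
      ring
    | false :: true :: u, hu, hk =>
      obtain ⟨k, rfl⟩ : ∃ k', k = k' + 1 := ⟨k - 1, by simp at hk; omega⟩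
      rw [Function.iterate_succ_apply, A_ind_ab, iter_add, iter_smul, iter_smul,
        ih (true :: u) (by simp at hu ⊢; omega) k (by simp at hk ⊢; omega),
        ih u (by simp at hu ⊢; omega) k (by simp at hk ⊢; omega)]
      funext w
      simp only [pathProb, trans, p]
      ring

/-! ### The second moment -/

/-- the frequency of `v` under the Parry measure -/
noncomputable def fr : List Bool → ℝ
  | [] => 1
  | x :: u => init x * pathProb x u

/-- the centred number of occurrences -/
noncomputable def g (v w : List Bool) : ℝ := (occ v w : ℝ) - fr v * (w.length : ℝ)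

/-- the mean of the increment of `g` -/
noncomputable def mu (v w : List Bool) : ℝ := A (g v) w - g v w

theorem init_false : init false * (1 + p) = 1 := by
  unfold init p
  have h := Real.goldenRatio_pos
  field_simp
theorem init_true : init true * (1 + p) = p := by
  unfold init p
  have h := Real.goldenRatio_pos
  field_simp

theorem mu_eq (v w : List Bool) :
    mu v w = A (ind v) w + p * ind v (true :: w) - fr v * (1 + p) := by
  unfold mu A g
  simp only [occ, List.length_cons, ind]
  have h := q_add_p
  have hq : q = 1 - p := by linarith
  push_cast
  rw [hq]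
  by_cases h1 : v <+: false :: w <;> by_cases h2 : v <+: false :: true :: w <;>
    by_cases h3 : v <+: true :: w <;> simp [h1, h2, h3] <;> ring

theorem iter_mu (v : List Bool) (hv : v ≠ []) : (A^[v.length]) (mu v) = fun _ => 0 := by
  have h1 : mu v = fun w => (A (ind v) w + p * ind v (true :: w)) + (-(fr v * (1 + p))) := by
    funext w; rw [mu_eq]; ring
  match v, hv with
  | false :: u, _ =>
    have h2 : mu (false :: u) = fun w => A (ind (false :: u)) w + (-(fr (false :: u) * (1 + p))) := by
      rw [h1]; funext w; simp [ind]
    rw [h2, iter_add, iter_const, ← Function.iterate_succ_apply,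
      iter_ind _ _ le_rfl _ (by simp)]
    funext w
    simp only [fr, pathProb_true_false]
    have := init_false
    linear_combination (-pathProb false u) * this
  | true :: u, _ =>
    have h2 : mu (true :: u) = fun w => p * ind u w + (-(fr (true :: u) * (1 + p))) := by
      rw [h1, A_ind_b]; funext w; simp [ind]
    rw [h2, iter_add, iter_const, iter_smul, iter_ind _ _ le_rfl _ (by simp)]
    funext w
    simp only [fr]
    have := init_true
    linear_combination (-pathProb true u) * this

end Pool.Agent.X301.Par
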