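import Pool.Agent.X301.Par1

/-!
# The second moment of the number of occurrences, and the growth of the words
-/

set_option autoImplicit false

namespace Pool.Agent.X301.Par

open MeasureTheory Filter Topology

theorem iter_mono2 {F G : List Bool → ℝ} (m : ℕ) : ∀ {n N : ℕ},
    (∀ w, n + m ≤ w.length → w.length ≤ N + 2 * m → F w ≤ G w) →
    ∀ w, n ≤ w.length → w.length ≤ N → (A^[m]) F w ≤ (A^[m]) G w := by
  induction m generalizing F G with
  | zero => intro n N h w hw hw'; exact h w (by omega) (by omega)
  | succ m ih =>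
    intro n N h w hw hw'
    rw [Function.iterate_succ_apply, Function.iterate_succ_apply]
    refine ih (n := n) (N := N) (fun w hw hw' => ?_) w hw hw'
    have h1 := h (false :: w) (by simp; omega) (by simp; omega)
    have h2 := h (false :: true :: w) (by simp; omega) (by simp; omega)
    have := q_pos; have := p_pos
    unfold A
    nlinarith

theorem iter_le {F G : List Bool → ℝ} (m : ℕ) (h : ∀ w, F w ≤ G w) (w : List Bool) :
    (A^[m]) F w ≤ (A^[m]) G w :=
  iter_mono m (n := 0) (fun w _ => h w) w (Nat.zero_le _)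

theorem iter_abs {F : List Bool → ℝ} {M : ℝ} (m : ℕ) (h : ∀ w, |F w| ≤ M) (w : List Bool) :
    |(A^[m]) F w| ≤ M := by
  rw [abs_le]
  constructor
  · have := iter_le m (F := fun _ => -M) (G := F) (fun w => (abs_le.1 (h w)).1) w
    rwa [iter_const] at this
  · have := iter_le m (F := F) (G := fun _ => M) (fun w => (abs_le.1 (h w)).2) w
    rwa [iter_const] at this

theorem ind_nonneg (u w : List Bool) : 0 ≤ ind u w := by
  unfold ind; split_ifs <;> norm_num
theorem ind_le (u w : List Bool) : ind u w ≤ 1 := by
  unfold ind; split_ifs <;> norm_num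

theorem mu_abs (v w : List Bool) : |mu v w| ≤ 2 + 2 * |fr v| := by
  rw [mu_eq]
  have h1 : |A (ind v) w| ≤ 1 := by
    have := iter_abs 1 (F := ind v) (M := 1) (fun w => abs_le.2 ⟨by linarith [ind_nonneg v w],
      ind_le v w⟩) w
    simpa using this
  have h2 : |p * ind v (true :: w)| ≤ 1 := by
    rw [abs_of_nonneg (mul_nonneg p_pos.le (ind_nonneg _ _))]
    have := p_le; have := ind_le v (true :: w); have := ind_nonneg v (true :: w)
    nlinarith [p_pos]
  have h3 : |fr v * (1 + p)| ≤ 2 * |fr v| := by
    rw [abs_mul, abs_of_nonneg (by linarith [p_pos] : (0:ℝ) ≤ 1 + p)]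
    have := p_le; have := abs_nonneg (fr v)
    nlinarith
  calc |A (ind v) w + p * ind v (true :: w) - fr v * (1 + p)|
      ≤ |A (ind v) w + p * ind v (true :: w)| + |fr v * (1 + p)| := abs_sub _ _
    _ ≤ (|A (ind v) w| + |p * ind v (true :: w)|) + |fr v * (1 + p)| := by
        gcongr; exact abs_add_le _ _
    _ ≤ _ := by linarith

/-- the corrector -/
noncomputable def hh (v : List Bool) : ℕ → List Bool → ℝ
  | 0 => fun _ => 0
  | k + 1 => fun w => hh v k w + (A^[k]) (mu v) w

theorem A_hh (v : List Bool) (k : ℕ) (w : List Bool) :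
    A (hh v k) w = hh v k w - mu v w + (A^[k]) (mu v) w := by
  induction k with
  | zero =>
    have : hh v 0 = fun _ => 0 := rfl
    rw [this, A_const]
    simp
  | succ k ih =>
    have : hh v (k + 1) = fun w => hh v k w + (A^[k]) (mu v) w := rfl
    rw [this, A_add]
    simp only
    rw [ih, Function.iterate_succ_apply']
    ring

theorem hh_abs (v : List Bool) (k : ℕ) (w : List Bool) :
    |hh v k w| ≤ k * (2 + 2 * |fr v|) := by
  induction k with
  | zero => simp [hh]
  | succ k ih =>
    have h1 := iter_abs k (mu_abs v) w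
    calc |hh v (k + 1) w| ≤ |hh v k w| + |(A^[k]) (mu v) w| := abs_add_le _ _
      _ ≤ _ := by push_cast; linarith

/-- the martingale -/
noncomputable def GG (v w : List Bool) : ℝ := g v w + hh v v.length w

theorem A_GG (v : List Bool) (hv : v ≠ []) (w : List Bool) : A (GG v) w = GG v w := by
  have h1 : GG v = fun w => g v w + hh v v.length w := rfl
  rw [h1, A_add]
  simp only
  rw [A_hh, iter_mu v hv]
  unfold mu
  ring

/-- a bound for everything -/
noncomputable def HB (v : List Bool) : ℝ := v.length * (2 + 2 * |fr v|)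

theorem HB_nonneg (v : List Bool) : 0 ≤ HB v := by
  unfold HB; positivity

theorem inc1 (v w : List Bool) (x : Bool) :
    |GG v (x :: w) - GG v w| ≤ 1 + |fr v| + 2 * HB v := by
  have h1 := hh_abs v v.length (x :: w)
  have h2 := hh_abs v v.length w
  have h3 : g v (x :: w) - g v w = ind v (x :: w) - fr v := by
    have e : occ v (x :: w) = (if v <+: x :: w then 1 else 0) + occ v w := rfl
    unfold g ind
    rw [List.length_cons, e]
    split_ifs <;> push_cast <;> ring
  have h4 : |ind v (x :: w)| ≤ 1 :=
    abs_le.2 ⟨by linarith [ind_nonneg v (x :: w)], ind_le v (x :: w)⟩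
  have h5 : GG v (x :: w) - GG v w = (ind v (x :: w) - fr v) +
      (hh v v.length (x :: w) - hh v v.length w) := by
    rw [← h3]; unfold GG; ring
  rw [h5]
  calc _ ≤ |ind v (x :: w) - fr v| + |hh v v.length (x :: w) - hh v v.length w| := abs_add_le _ _
    _ ≤ (|ind v (x :: w)| + |fr v|) + (|hh v v.length (x :: w)| + |hh v v.length w|) :=
        add_le_add (abs_sub _ _) (abs_sub _ _)
    _ ≤ _ := by unfold HB; linarith

/-- the bound for the increments of the second moment -/
noncomputable def KB (v : List Bool) : ℝ := (2 * (1 + |fr v| + 2 * HB v)) ^ 2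

theorem A_sq (v : List Bool) (hv : v ≠ []) (w : List Bool) :
    A (fun w => GG v w ^ 2) w ≤ GG v w ^ 2 + KB v := by
  have h0 := A_GG v hv w
  have h1 := inc1 v w false
  have h2 := inc1 v w true
  have h3 := inc1 v (true :: w) false
  have hB := HB_nonneg v
  have hf := abs_nonneg (fr v)
  set D := 1 + |fr v| + 2 * HB v with hD
  have h4 : |GG v (false :: true :: w) - GG v w| ≤ 2 * D := by
    have : GG v (false :: true :: w) - GG v w = (GG v (false :: true :: w) - GG v (true :: w)) +
      (GG v (true :: w) - GG v w) := by ring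
    rw [this]
    refine (abs_add_le _ _).trans ?_
    linarith
  have hD0 : 0 ≤ D := by linarith
  have h5 : (GG v (false :: w) - GG v w) ^ 2 ≤ (2 * D) ^ 2 :=
    sq_le_sq' (by linarith [(abs_le.1 h1).1]) (by linarith [(abs_le.1 h1).2])
  have h6 : (GG v (false :: true :: w) - GG v w) ^ 2 ≤ (2 * D) ^ 2 :=
    sq_le_sq' (by linarith [(abs_le.1 h4).1]) (by linarith [(abs_le.1 h4).2])
  unfold A at h0 ⊢
  simp only
  have hq := q_pos
  have hp := p_pos
  have hqp := q_add_p
  have h7 : q * GG v (false :: w) ^ 2 + p * GG v (false :: true :: w) ^ 2 =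
      GG v w ^ 2 + q * (GG v (false :: w) - GG v w) ^ 2 +
        p * (GG v (false :: true :: w) - GG v w) ^ 2 := by
    have e : q = 1 - p := by linarith
    rw [e] at h0 ⊢
    linear_combination (2 * GG v w) * h0
  rw [h7]
  unfold KB
  rw [← hD]
  nlinarith

theorem iter_sq (v : List Bool) (hv : v ≠ []) (n : ℕ) (w : List Bool) :
    (A^[n]) (fun w => GG v w ^ 2) w ≤ GG v w ^ 2 + n * KB v := by
  induction n with
  | zero => simp
  | succ n ih =>
    rw [Function.iterate_succ_apply]
    have h1 := iter_le n (F := A (fun w => GG v w ^ 2)) (G := fun w => GG v w ^ 2 + KB v)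
      (fun w => A_sq v hv w) w
    rw [iter_add, iter_const] at h1
    push_cast
    linarith

/-- the constant in the second moment bound -/
noncomputable def CB (v : List Bool) : ℝ := 2 * GG v [] ^ 2 + 2 * KB v + 2 * HB v ^ 2

theorem CB_nonneg (v : List Bool) : 0 ≤ CB v := by
  unfold CB KB; positivity

theorem second_moment (v : List Bool) (hv : v ≠ []) (n : ℕ) (hn : 1 ≤ n) :
    (A^[n]) (fun w => g v w ^ 2) [] ≤ CB v * n := by
  have h1 := iter_le n (F := fun w => g v w ^ 2)
    (G := fun w => 2 * GG v w ^ 2 + 2 * HB v ^ 2) (fun w => by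
      have h2 := hh_abs v v.length w
      have h3 : hh v v.length w ^ 2 ≤ HB v ^ 2 := by
        refine sq_le_sq' ?_ ?_
        · exact (abs_le.1 h2).1
        · exact (abs_le.1 h2).2
      have h4 : g v w = GG v w - hh v v.length w := by unfold GG; ring
      rw [h4]
      nlinarith [sq_nonneg (GG v w + hh v v.length w)]) []
  rw [iter_add, iter_smul, iter_const] at h1
  have h2 := iter_sq v hv n []
  have hn' : (1 : ℝ) ≤ n := by exact_mod_cast hn
  unfold CB
  have h3 : 0 ≤ GG v [] ^ 2 := sq_nonneg _
  have h4 : 0 ≤ HB v ^ 2 := sq_nonneg _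
  nlinarith

open Classical in
/-- indicator of a set of words -/
noncomputable def indS (S : Set (List Bool)) (w : List Bool) : ℝ := if w ∈ S then 1 else 0

theorem indS_nonneg (S : Set (List Bool)) (w : List Bool) : 0 ≤ indS S w := by
  unfold indS; split_ifs <;> norm_num

/-- the bad words -/
def bad (v : List Bool) (ε : ℝ) : Set (List Bool) := {w | ε * w.length < |g v w|}

theorem bad_bound (v : List Bool) (hv : v ≠ []) {ε : ℝ} (hε : 0 < ε) (n : ℕ) :
    (A^[n]) (indS (bad v ε)) [] ≤ CB v / ε ^ 2 * (1 / (n : ℝ)) := by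
  rcases Nat.eq_zero_or_pos n with rfl | hn
  · simp [indS, bad, g, occ]
  have hn' : (0 : ℝ) < n := by exact_mod_cast hn
  have h1 := iter_mono n (n := 0) (F := indS (bad v ε))
    (G := fun w => (1 / (ε * n) ^ 2) * g v w ^ 2) (fun w hw => by
      have hw' : (n : ℝ) ≤ w.length := by exact_mod_cast (by omega : n ≤ w.length)
      unfold indS
      split_ifs with h
      · have h2 : ε * n < |g v w| := lt_of_le_of_lt (by nlinarith) h
        have h3 : (ε * n) ^ 2 ≤ g v w ^ 2 := by
          rw [← sq_abs (g v w)]
          exact pow_le_pow_left₀ (by positivity) h2.le 2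
        rw [one_div, inv_mul_eq_div, le_div_iff₀ (by positivity), one_mul]
        exact h3
      · positivity) [] (by simp)
  rw [iter_smul] at h1
  have h2 := second_moment v hv n hn
  refine h1.trans ?_
  have h3 : (1 / (ε * n) ^ 2) * (A^[n]) (fun w => g v w ^ 2) [] ≤
      (1 / (ε * n) ^ 2) * (CB v * n) := by gcongr
  refine h3.trans (le_of_eq ?_)
  field_simp

theorem iter_len (n : ℕ) (w : List Bool) :
    (A^[n]) (fun w => (w.length : ℝ)) w = w.length + n * (1 + p) := by
  induction n with
  | zero => simp
  | succ n ih =>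
    rw [Function.iterate_succ_apply]
    have : A (fun w => (w.length : ℝ)) = fun w => (w.length : ℝ) + (1 + p) := by
      funext w
      unfold A
      simp only [List.length_cons]
      push_cast
      have := q_add_p
      linear_combination ((w.length : ℝ) + 1) * this
    rw [this, iter_add, iter_const]
    simp only
    rw [ih]
    push_cast
    ring

theorem inv_bound (n : ℕ) :
    (A^[n]) (fun w => 1 / (w.length : ℝ)) [] ≤ (1 - p / 2) * (1 / (n : ℝ)) := by
  rcases Nat.eq_zero_or_pos n with rfl | hn
  · simp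
  have hn' : (0 : ℝ) < n := by exact_mod_cast hn
  have h1 := iter_mono2 n (n := 0) (N := 0) (F := fun w => 1 / (w.length : ℝ))
    (G := fun w => (-(1 / (2 * (n : ℝ) ^ 2))) * (w.length : ℝ) + 3 / (2 * n)) (fun w hw hw' => by
      have h2 : (n : ℝ) ≤ w.length := by exact_mod_cast (by omega : n ≤ w.length)
      have h3 : (w.length : ℝ) ≤ 2 * n := by exact_mod_cast (by omega : w.length ≤ 2 * n)
      generalize (w.length : ℝ) = x at h2 h3
      have hx : 0 < x := by linarith
      rw [div_le_iff₀ hx]
      have e : ((-(1 / (2 * (n : ℝ) ^ 2))) * x + 3 / (2 * n)) * x - 1 =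
          (x - n) * (2 * n - x) / (2 * (n : ℝ) ^ 2) := by
        field_simp; ring
      have : 0 ≤ (x - n) * (2 * n - x) / (2 * (n : ℝ) ^ 2) := by
        apply div_nonneg (mul_nonneg (by linarith) (by linarith)) (by positivity)
      linarith) [] (by simp) (by simp)
  rw [iter_add, iter_smul, iter_const] at h1
  simp only at h1
  rw [iter_len] at h1
  refine h1.trans (le_of_eq ?_)
  simp only [List.length_nil, Nat.cast_zero]
  field_simp
  ring

end Pool.Agent.X301.Par
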