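import Pool.Agent.X301.Par2

/-!
# The random substitution and the almost sure convergence of the frequencies
-/

set_option autoImplicit false
set_option linter.unusedSectionVars false

namespace Pool.Agent.X301.Par

open MeasureTheory Filter Topology
open scoped ENNReal

/-- Both letters are replaced by `a` with probability `τ⁻¹` and by `ab` with probability `τ⁻²`. -/
noncomputable def rs : RandomSubstitution where
  real _ := {[false], [false, true]}
  prob _ r := if r = [false] then q else p
  ne_nil := by
    intro α r hr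
    rw [Finset.mem_insert, Finset.mem_singleton] at hr
    rcases hr with rfl | rfl <;> simp
  prob_pos := by
    intro α r _
    split_ifs
    · exact q_pos
    · exact p_pos
  prob_sum := by
    intro α
    rw [Finset.sum_pair (by simp)]
    simp [q_add_p]

theorem rs_primitive : rs.Primitive := by
  refine ⟨1, fun β α => ?_⟩
  rw [pow_one]
  unfold RandomSubstitution.matrix
  change 0 < ∑ r ∈ ({[false], [false, true]} : Finset (List Bool)),
    (if r = [false] then q else p) * (r.count β : ℝ)
  rw [Finset.sum_pair (by simp)]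
  have := q_pos
  have := p_pos
  cases β <;> simp <;> linarith

/-- the averaging operator for functions with values in `[0, ∞]` -/
noncomputable def AE (F : List Bool → ℝ≥0∞) (w : List Bool) : ℝ≥0∞ :=
  ENNReal.ofReal q * F (false :: w) + ENNReal.ofReal p * F (false :: true :: w)

theorem iterE_add (m : ℕ) (a b : ℝ≥0∞) (F G : List Bool → ℝ≥0∞) :
    (AE^[m]) (fun w => a * F w + b * G w) = fun w => a * (AE^[m]) F w + b * (AE^[m]) G w := by
  induction m generalizing F G with
  | zero => rfl
  | succ m ih =>
    rw [Function.iterate_succ_apply]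
    have : AE (fun w => a * F w + b * G w) = fun w => a * AE F w + b * AE G w := by
      funext w; unfold AE; ring
    rw [this, ih]; rfl

theorem iterE_comp (m : ℕ) (F : List Bool → ℝ≥0∞) :
    (AE^[m]) (AE F) = fun w => ENNReal.ofReal q * (AE^[m]) (fun w => F (false :: w)) w +
      ENNReal.ofReal p * (AE^[m]) (fun w => F (false :: true :: w)) w := by
  rw [← iterE_add]; rfl

theorem iterE_ofReal (m : ℕ) (F : List Bool → ℝ) (hF : ∀ w, 0 ≤ F w) :
    (AE^[m]) (fun w => ENNReal.ofReal (F w)) = fun w => ENNReal.ofReal ((A^[m]) F w) := by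
  induction m generalizing F with
  | zero => rfl
  | succ m ih =>
    rw [Function.iterate_succ_apply, Function.iterate_succ_apply]
    have hq := q_pos
    have hp := p_pos
    have : AE (fun w => ENNReal.ofReal (F w)) = fun w => ENNReal.ofReal (A F w) := by
      funext w
      unfold AE A
      rw [ENNReal.ofReal_add (mul_nonneg hq.le (hF _)) (mul_nonneg hp.le (hF _)),
        ENNReal.ofReal_mul hq.le, ENNReal.ofReal_mul hp.le]
    rw [this, ih]
    intro w
    unfold A
    have h1 := hF (false :: w)
    have h2 := hF (false :: true :: w)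
    positivity

section

/-- all sets of words are measurable -/
@[local instance, instance_reducible] def topM : MeasurableSpace (List Bool) := ⊤

local instance : DiscreteMeasurableSpace (List Bool) := ⟨fun _ => trivial⟩

theorem lintegral_law (u : List Bool) (F : List Bool → ℝ≥0∞) :
    ∫⁻ w, F w ∂(rs.law u) = (AE^[u.length]) F [] := by
  induction u generalizing F with
  | nil =>
    change ∫⁻ w, F w ∂(Measure.dirac []) = F []
    rw [lintegral_dirac]
  | cons α u ih =>
    have h1 : rs.law (α :: u) =
        ENNReal.ofReal q • (Measure.map (fun w => [false] ++ w) (rs.law u)) +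
          ENNReal.ofReal p • (Measure.map (fun w => [false, true] ++ w) (rs.law u)) := by
      change ∑ r ∈ ({[false], [false, true]} : Finset (List Bool)),
        ENNReal.ofReal (if r = [false] then q else p) •
          (Measure.map (fun w => r ++ w) (rs.law u)) = _
      rw [Finset.sum_pair (by simp)]
      simp
    rw [h1, lintegral_add_measure, lintegral_smul_measure, lintegral_smul_measure,
      lintegral_map (by measurability) (by measurability),
      lintegral_map (by measurability) (by measurability), ih, ih, List.length_cons,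
      Function.iterate_succ_apply, iterE_comp]
    rfl

theorem lintegral_law_ofReal (u : List Bool) (F : List Bool → ℝ) (hF : ∀ w, 0 ≤ F w) :
    ∫⁻ w, ENNReal.ofReal (F w) ∂(rs.law u) = ENNReal.ofReal ((A^[u.length]) F []) := by
  rw [lintegral_law, iterE_ofReal _ _ hF]

variable {α : Bool} {Ω : Type} [MeasurableSpace Ω] {P : Measure Ω} [IsProbabilityMeasure P]
  {W : ℕ → Ω → List Bool}

theorem lintegral_now (hW : rs.IsRealisation α P W) (n : ℕ) (F : List Bool → ℝ≥0∞) :
    ∫⁻ ω, F (W n ω) ∂P = ∑' w, P {ω | W n ω = w} * F w := by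
  have hm : Measurable (W n) := hW.measurable n
  rw [← lintegral_map (f := F) (by measurability) hm, lintegral_countable']
  congr 1
  funext w
  rw [Measure.map_apply hm (MeasurableSet.singleton w), mul_comm]
  rfl

theorem lintegral_step (hW : rs.IsRealisation α P W) (n : ℕ) (F : List Bool → ℝ≥0∞) :
    ∫⁻ ω, F (W (n + 1) ω) ∂P = ∑' w, P {ω | W n ω = w} * ∫⁻ w', F w' ∂(rs.law w) := by
  have hm : Measurable (W n) := hW.measurable n
  have hm' : Measurable (W (n + 1)) := hW.measurable (n + 1)
  have hs : ∀ w, MeasurableSet {ω | W n ω = w} := fun w => hm (MeasurableSet.singleton w)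
  have h1 : (⋃ w, {ω | W n ω = w}) = Set.univ := by
    ext ω; simp
  rw [← setLIntegral_univ, ← h1, lintegral_iUnion hs]
  · congr 1
    funext w
    have h2 : (P.restrict {ω | W n ω = w}).map (W (n + 1)) = P {ω | W n ω = w} • rs.law w := by
      ext S _
      rw [Measure.map_apply hm' (MeasurableSet.of_discrete (s := S)),
        Measure.restrict_apply (hm' (MeasurableSet.of_discrete (s := S))), Measure.smul_apply,
        smul_eq_mul, ← hW.step n w S]
      congr 1
      ext ω
      simp [and_comm]
    rw [← lintegral_map (f := F) (by measurability) hm', h2, lintegral_smul_measure, smul_eq_mul]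
  · intro w w' hne
    rw [Function.onFun, Set.disjoint_left]
    intro ω h3 h4
    exact hne (h3.symm.trans h4)

theorem step_le (hW : rs.IsRealisation α P W) (n : ℕ) (F G : List Bool → ℝ≥0∞)
    (h : ∀ w, ∫⁻ w', F w' ∂(rs.law w) ≤ G w) :
    ∫⁻ ω, F (W (n + 1) ω) ∂P ≤ ∫⁻ ω, G (W n ω) ∂P := by
  rw [lintegral_step hW, lintegral_now hW]
  exact ENNReal.tsum_le_tsum fun w => by gcongr; exact h w

theorem inv_decay (hW : rs.IsRealisation α P W) (n : ℕ) :
    ∫⁻ ω, ENNReal.ofReal (1 / ((W n ω).length : ℝ)) ∂P ≤ ENNReal.ofReal (1 - p / 2) ^ n := by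
  have hp : 0 ≤ 1 - p / 2 := by have := p_le; linarith
  induction n with
  | zero =>
    rw [pow_zero]
    have : ∀ᵐ ω ∂P, ENNReal.ofReal (1 / ((W 0 ω).length : ℝ)) = 1 := by
      filter_upwards [hW.start] with ω hω
      rw [hω]; simp
    rw [lintegral_congr_ae this]
    simp
  | succ n ih =>
    refine (step_le hW n (fun w => ENNReal.ofReal (1 / (w.length : ℝ)))
      (fun w => ENNReal.ofReal (1 - p / 2) *
      ENNReal.ofReal (1 / (w.length : ℝ))) fun w => ?_).trans ?_
    · rw [lintegral_law_ofReal w (fun w => 1 / (w.length : ℝ)) (fun w => by positivity),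
        ← ENNReal.ofReal_mul hp]
      exact ENNReal.ofReal_le_ofReal (inv_bound _)
    · have hm : Measurable (W n) := hW.measurable n
      have hm2 : Measurable (fun ω => ENNReal.ofReal (1 / ((W n ω).length : ℝ))) :=
        (measurable_from_top (f := fun w : List Bool => ENNReal.ofReal (1 / (w.length : ℝ)))).comp
          hm
      rw [lintegral_const_mul _ hm2, pow_succ, mul_comm]
      gcongr

theorem prob_le (hW : rs.IsRealisation α P W) (n : ℕ) (S : Set (List Bool)) (G : List Bool → ℝ)
    (h : ∀ w, (A^[w.length]) (indS S) [] ≤ G w) :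
    P {ω | W (n + 1) ω ∈ S} ≤ ∫⁻ ω, ENNReal.ofReal (G (W n ω)) ∂P := by
  have hm' : Measurable (W (n + 1)) := hW.measurable (n + 1)
  have h1 : P {ω | W (n + 1) ω ∈ S} = ∫⁻ ω, ENNReal.ofReal (indS S (W (n + 1) ω)) ∂P := by
    have h2 : ∀ ω, ENNReal.ofReal (indS S (W (n + 1) ω)) =
        ({ω | W (n + 1) ω ∈ S}).indicator 1 ω := by
      intro ω
      unfold indS
      by_cases h3 : W (n + 1) ω ∈ S
      · simp [h3]
      · simp [h3]
    simp_rw [h2]
    have hS : MeasurableSet {ω | W (n + 1) ω ∈ S} := hm' (MeasurableSet.of_discrete (s := S))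
    rw [lintegral_indicator_one hS]
  rw [h1]
  refine step_le hW n (fun w => ENNReal.ofReal (indS S w)) (fun w => ENNReal.ofReal (G w))
    fun w => ?_
  rw [lintegral_law_ofReal w _ (indS_nonneg S)]
  exact ENNReal.ofReal_le_ofReal (h w)

theorem ae_ne_nil (hW : rs.IsRealisation α P W) (n : ℕ) : ∀ᵐ ω ∂P, W n ω ≠ [] := by
  induction n with
  | zero =>
    filter_upwards [hW.start] with ω hω
    rw [hω]; simp
  | succ n ih =>
    have h1 := prob_le hW n {[]} (fun w => indS {[]} w) (fun w => by
      rcases Nat.eq_zero_or_pos w.length with h | h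
      · have : w = [] := List.length_eq_zero_iff.1 h
        subst this; simp
      · have h2 := iter_mono w.length (n := 0) (F := indS {[]}) (G := fun _ => 0)
          (fun w' hw' => by
            have : w' ≠ [] := by rintro rfl; rw [List.length_nil] at hw'; omega
            simp [indS, this]) [] (by simp)
        rw [iter_const] at h2
        exact h2.trans (indS_nonneg _ _))
    have h2 : ∫⁻ ω, ENNReal.ofReal (indS {[]} (W n ω)) ∂P = 0 := by
      have : ∀ᵐ ω ∂P, ENNReal.ofReal (indS {[]} (W n ω)) = 0 := by
        filter_upwards [ih] with ω hω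
        simp [indS, hω]
      rw [lintegral_congr_ae this, lintegral_zero]
    rw [h2] at h1
    rw [ae_iff]
    simpa using le_antisymm h1 bot_le

theorem ae_eventually (hW : rs.IsRealisation α P W) (v : List Bool) (hv : v ≠ []) {ε : ℝ}
    (hε : 0 < ε) : ∀ᵐ ω ∂P, ∀ᶠ n in atTop, W n ω ∉ bad v ε := by
  have h1 : ∑' n : ℕ, P {ω | W (n + 1) ω ∈ bad v ε} ≠ ∞ := by
    have hC : 0 ≤ CB v / ε ^ 2 := div_nonneg (CB_nonneg v) (by positivity)
    have h2 : ∀ n : ℕ, P {ω | W (n + 1) ω ∈ bad v ε} ≤
        ENNReal.ofReal (CB v / ε ^ 2) * ENNReal.ofReal (1 - p / 2) ^ n := by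
      intro n
      refine (prob_le hW n _ _ (fun w => bad_bound v hv hε w.length)).trans ?_
      have hm : Measurable (W n) := hW.measurable n
      have hm2 : Measurable (fun ω => ENNReal.ofReal (1 / ((W n ω).length : ℝ))) :=
        (measurable_from_top (f := fun w : List Bool => ENNReal.ofReal (1 / (w.length : ℝ)))).comp
          hm
      simp_rw [ENNReal.ofReal_mul hC]
      rw [lintegral_const_mul _ hm2]
      gcongr
      exact inv_decay hW n
    refine ne_top_of_le_ne_top ?_ (ENNReal.tsum_le_tsum h2)
    rw [ENNReal.tsum_mul_left, ENNReal.tsum_geometric]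
    refine ENNReal.mul_ne_top ENNReal.ofReal_ne_top ?_
    rw [ENNReal.inv_ne_top]
    have h3 : ENNReal.ofReal (1 - p / 2) < 1 := by
      rw [ENNReal.ofReal_lt_one]
      have := p_pos
      linarith
    exact (tsub_pos_of_lt h3).ne'
  have h2 := ae_eventually_notMem h1
  filter_upwards [h2] with ω hω
  obtain ⟨N, hN⟩ := eventually_atTop.1 hω
  refine eventually_atTop.2 ⟨N + 1, fun n hn => ?_⟩
  have := hN (n - 1) (by omega)
  rw [Nat.sub_add_cancel (by omega)] at this
  exact this

end

theorem freq_tendsto (α : Bool) {Ω : Type} [MeasurableSpace Ω] (P : Measure Ω)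
    [IsProbabilityMeasure P] (W : ℕ → Ω → List Bool) (hW : rs.IsRealisation α P W)
    (v : List Bool) (hv : v ≠ []) :
    ∀ᵐ ω ∂P, Tendsto (fun n => (occ v (W n ω) : ℝ) / ((W n ω).length : ℝ)) atTop
      (𝓝 (fr v)) := by
  have h1 : ∀ k : ℕ, ∀ᵐ ω ∂P, ∀ᶠ n in atTop, W n ω ∉ bad v (1 / ((k : ℝ) + 1)) :=
    fun k => ae_eventually hW v hv (by positivity)
  rw [← ae_all_iff] at h1
  have h2 : ∀ᵐ ω ∂P, ∀ n, W n ω ≠ [] := ae_all_iff.2 (ae_ne_nil hW)
  filter_upwards [h1, h2] with ω h3 h4
  rw [Metric.tendsto_atTop']
  intro ε hε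
  obtain ⟨k, hk⟩ := exists_nat_one_div_lt hε
  obtain ⟨N, hN⟩ := eventually_atTop.1 (h3 k)
  refine ⟨N, fun n hn => ?_⟩
  have h5 := hN n hn.le
  unfold bad at h5
  rw [Set.mem_ofPred_eq, not_lt] at h5
  have h6 : (0 : ℝ) < (W n ω).length := by
    exact_mod_cast List.length_pos_iff.2 (h4 n)
  rw [Real.dist_eq]
  have h7 : (occ v (W n ω) : ℝ) / ((W n ω).length : ℝ) - fr v =
      g v (W n ω) / (W n ω).length := by
    unfold g; field_simp
  rw [h7, abs_div, abs_of_pos h6]
  refine lt_of_le_of_lt ?_ hk
  rw [div_le_iff₀ h6]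
  exact h5

end Pool.Agent.X301.Par
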