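import Pool.Agent.X301.Par3
import Pool.Agent.H282R3.MK.Process

/-!
# Existence and shift-invariance of the Parry measure
-/

set_option autoImplicit false

namespace Pool.Agent.X301.Par

open MeasureTheory Filter Topology
open scoped ENNReal

/-- the initial distribution as a measure -/
noncomputable def pi0 : Measure Bool :=
  ENNReal.ofReal (init false) • Measure.dirac false + ENNReal.ofReal (init true) • Measure.dirac true

theorem init_pos (x : Bool) : 0 < init x := by
  have := Real.goldenRatio_pos
  cases x <;> unfold init <;> simp only <;> positivity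

theorem init_sum : init false + init true = 1 := by
  unfold init
  have := Real.goldenRatio_pos
  field_simp

theorem lintegral_pi0 (f : Bool → ℝ≥0∞) :
    ∫⁻ x, f x ∂pi0 = ENNReal.ofReal (init false) * f false + ENNReal.ofReal (init true) * f true := by
  unfold pi0
  rw [lintegral_add_measure, lintegral_smul_measure, lintegral_smul_measure, lintegral_dirac,
    lintegral_dirac, smul_eq_mul, smul_eq_mul]

instance : IsProbabilityMeasure pi0 := by
  constructor
  have := lintegral_pi0 (fun _ => 1)
  rw [lintegral_one] at this
  rw [this, mul_one, mul_one, ← ENNReal.ofReal_add (init_pos _).le (init_pos _).le, init_sum,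
    ENNReal.ofReal_one]

/-- the transition densities -/
noncomputable def PP (x y : Bool) : ℝ≥0∞ := ENNReal.ofReal (trans x y / init y)

theorem trans_nonneg (x y : Bool) : 0 ≤ trans x y := by
  have := Real.goldenRatio_pos
  cases x <;> cases y <;> unfold trans <;> simp only <;> positivity

theorem PP_row (x : Bool) : ∫⁻ y, PP x y ∂pi0 = 1 := by
  rw [lintegral_pi0]
  unfold PP
  have h0 := init_pos false
  have h1 := init_pos true
  rw [← ENNReal.ofReal_mul h0.le, ← ENNReal.ofReal_mul h1.le,
    mul_div_cancel₀ _ h0.ne', mul_div_cancel₀ _ h1.ne',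
    ← ENNReal.ofReal_add (trans_nonneg _ _) (trans_nonneg _ _)]
  have h2 : trans x false + trans x true = 1 := by
    cases x
    · exact q_add_p
    · simp [trans]
  rw [h2, ENNReal.ofReal_one]

theorem PP_col (y : Bool) : ∫⁻ x, PP x y ∂pi0 = 1 := by
  rw [lintegral_pi0]
  unfold PP
  have h0 := init_pos false
  have h1 := init_pos true
  have hy := init_pos y
  rw [← ENNReal.ofReal_mul h0.le, ← ENNReal.ofReal_mul h1.le,
    ← ENNReal.ofReal_add (mul_nonneg h0.le (div_nonneg (trans_nonneg _ _) hy.le))
      (mul_nonneg h1.le (div_nonneg (trans_nonneg _ _) hy.le))]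
  have h2 : init false * (trans false y / init y) + init true * (trans true y / init y) = 1 := by
    have h3 : init false * trans false y + init true * trans true y = init y := by
      have hs := Real.goldenRatio_sq
      have hg := Real.goldenRatio_pos
      cases y <;> unfold trans init <;> simp only
      · generalize Real.goldenRatio = x at hs hg
        field_simp
        nlinarith
      · generalize Real.goldenRatio = x at hs hg
        field_simp
        ring
    field_simp
    linarith
  rw [h2, ENNReal.ofReal_one]

theorem pi0_singleton (x : Bool) : pi0 {x} = ENNReal.ofReal (init x) := by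
  rw [← lintegral_indicator_one (MeasurableSet.singleton x), lintegral_pi0]
  cases x <;> simp

theorem path_eq (x : Bool) (u : List Bool) :
    (∏ i ∈ Finset.range u.length, PP ((x :: u).getD i false) ((x :: u).getD (i + 1) false)) *
      ∏ i ∈ Finset.range (u.length + 1), pi0 {(x :: u).getD i false} =
    ENNReal.ofReal (init x * pathProb x u) := by
  induction u generalizing x with
  | nil => simp [pathProb, pi0_singleton]
  | cons y u ih =>
    have h1 := ih y
    rw [List.length_cons, Finset.prod_range_succ', Finset.prod_range_succ' (n := u.length + 1)]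
    simp only [List.getD_cons_succ, List.getD_cons_zero]
    have h2 : (∏ i ∈ Finset.range u.length,
        PP ((y :: u).getD i false) (u.getD i false)) =
        (∏ i ∈ Finset.range u.length,
        PP ((y :: u).getD i false) ((y :: u).getD (i + 1) false)) := by
      simp only [List.getD_cons_succ]
    rw [h2]
    have hx := init_pos x
    have hy := init_pos y
    have ht := trans_nonneg x y
    calc _ = PP x y * pi0 {x} * ((∏ i ∈ Finset.range u.length,
          PP ((y :: u).getD i false) ((y :: u).getD (i + 1) false)) *
          ∏ i ∈ Finset.range (u.length + 1), pi0 {(y :: u).getD i false}) := by ring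
      _ = ENNReal.ofReal (trans x y / init y * init x * (init y * pathProb y u)) := by
          rw [h1, pi0_singleton]
          unfold PP
          rw [← ENNReal.ofReal_mul (div_nonneg ht hy.le), ← ENNReal.ofReal_mul
            (mul_nonneg (div_nonneg ht hy.le) hx.le)]
      _ = _ := by
          congr 1
          simp only [pathProb]
          field_simp

theorem mem_cylinder (k : ℤ) (v : List Bool) (ω : ℤ → Bool) :
    ω ∈ cylinder k v ↔ ∀ i ∈ Finset.range v.length, ω (k + (i : ℕ)) = v.getD i false := by
  unfold cylinder
  constructor
  · intro h i hi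
    have hi' := Finset.mem_range.1 hi
    rw [h i hi', List.getD_eq_getElem _ _ hi']
  · intro h i hi
    rw [h i (Finset.mem_range.2 hi), List.getD_eq_getElem _ _ hi]

theorem meas_cylinder (k : ℤ) (v : List Bool) : MeasurableSet (cylinder k v) := by
  have : cylinder k v = ⋂ i ∈ Finset.range v.length,
      (fun ω : ℤ → Bool => ω (k + (i : ℕ))) ⁻¹' {v.getD i false} := by
    ext ω
    rw [mem_cylinder]
    simp
  rw [this]
  exact Finset.measurableSet_biInter _ fun i _ =>
    measurable_pi_apply (k + (i : ℤ)) (MeasurableSet.singleton _)

theorem ref_cylinder (k : ℤ) (v : List Bool) :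
    H282R3.MK.ref pi0 (cylinder k v) = ∏ i ∈ Finset.range v.length, pi0 {v.getD i false} := by
  have hinj : Function.Injective (fun i : ℕ => k + (i : ℤ)) := by
    intro i j h
    have : k + (i : ℤ) = k + (j : ℤ) := h
    omega
  have h1 : cylinder k v = Set.pi (((Finset.range v.length).map ⟨_, hinj⟩ : Finset ℤ) : Set ℤ)
      (fun j => {v.getD (j - k).toNat false}) := by
    ext ω
    rw [mem_cylinder]
    simp only [Finset.coe_map, Function.Embedding.coeFn_mk, Set.mem_pi, Set.mem_image,
      Finset.mem_coe, Set.mem_singleton_iff]
    constructor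
    · rintro h j ⟨i, hi, rfl⟩
      rw [h i hi]
      congr 1
      omega
    · intro h i hi
      rw [h _ ⟨i, hi, rfl⟩]
      congr 1
      omega
  rw [h1]
  unfold H282R3.MK.ref
  rw [Measure.infinitePi_pi _ (fun i _ => MeasurableSet.singleton _), Finset.prod_map]
  refine Finset.prod_congr rfl fun i _ => ?_
  simp only [Function.Embedding.coeFn_mk]
  congr 3
  omega

theorem exists_parry : ∃ μ : Measure (ℤ → Bool), IsParry μ ∧
    μ.map (fun (x : ℤ → Bool) i => x (i + 1)) = μ := by
  let _ : MetricSpace Bool := TopologicalSpace.metrizableSpaceMetric Bool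
  have hP : Measurable (Function.uncurry PP) := Measurable.of_discrete
  obtain ⟨μ, h1, h2⟩ := H282R3.MK.exists_limit pi0 PP hP PP_row PP_col
  refine ⟨μ, ⟨h1, fun k x u => ?_⟩, ?_⟩
  · let v' : Fin (u.length + 1) → Bool := fun i => (x :: u).getD i false
    have h3 := h2 k u.length (Set.indicator {v'} 1)
      ((measurable_one).indicator (MeasurableSet.singleton _))
    have hcyl : ∀ ω : ℤ → Bool, H282R3.MK.Rw k u.length ω ∈
        ({v'} : Set (Fin (u.length + 1) → Bool)) ↔ ω ∈ cylinder k (x :: u) := by
      intro ω
      rw [mem_cylinder, Set.mem_singleton_iff]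
      unfold H282R3.MK.Rw
      constructor
      · intro h i hi
        have := congrFun h ⟨i, by simpa using hi⟩
        exact this
      · intro h
        funext i
        exact h i (by simpa using i.2)
    have h4 : ∀ ω : ℤ → Bool, (Set.indicator {v'} 1
        (H282R3.MK.Rw k u.length ω) : ℝ≥0∞) = (cylinder k (x :: u)).indicator 1 ω := by
      intro ω
      by_cases h : ω ∈ cylinder k (x :: u)
      · rw [Set.indicator_of_mem h, Set.indicator_of_mem ((hcyl ω).2 h)]; rfl
      · rw [Set.indicator_of_notMem h, Set.indicator_of_notMem (fun h' => h ((hcyl ω).1 h'))]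
    simp_rw [h4] at h3
    rw [lintegral_indicator_one (meas_cylinder _ _)] at h3
    set c : ℝ≥0∞ := ∏ i ∈ Finset.range u.length,
      PP ((x :: u).getD i false) ((x :: u).getD (i + 1) false) with hc
    have h5 : ∀ ω : ℤ → Bool, ((cylinder k (x :: u)).indicator 1 ω : ℝ≥0∞) *
        H282R3.MK.Wd PP k u.length ω = (cylinder k (x :: u)).indicator (fun _ => c) ω := by
      intro ω
      by_cases h : ω ∈ cylinder k (x :: u)
      · rw [Set.indicator_of_mem h, Set.indicator_of_mem h, Pi.one_apply, one_mul]
        rw [mem_cylinder] at h
        unfold H282R3.MK.Wd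
        rw [hc]
        refine Finset.prod_congr rfl fun i hi => ?_
        have hi' := Finset.mem_range.1 hi
        have e1 := h i (Finset.mem_range.2 (by simp; omega))
        have e2 := h (i + 1) (Finset.mem_range.2 (by simp; omega))
        rw [e1]
        congr 1
        rw [← e2]
        congr 1
        push_cast
        ring
      · rw [Set.indicator_of_notMem h, Set.indicator_of_notMem h, zero_mul]
    simp_rw [h5] at h3
    rw [lintegral_indicator_const (meas_cylinder _ _), ref_cylinder] at h3
    have h6 := path_eq x u
    rw [← hc] at h6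
    rw [List.length_cons, h6] at h3
    unfold Measure.real
    rw [h3, ENNReal.toReal_ofReal]
    have h7 : ∀ (x : Bool) (u : List Bool), 0 ≤ pathProb x u := by
      intro x u
      induction u generalizing x with
      | nil => simp [pathProb]
      | cons y u ih => exact mul_nonneg (trans_nonneg _ _) (ih y)
    exact mul_nonneg (init_pos x).le (h7 x u)
  · have h3 : H282R3.MK.Win pi0 PP μ := h2
    have h4 := H282R3.MK.Win.stationary h3 hP 1
    have h5 : μ.map (fun (ω : ℤ → Bool) (i : ℤ) => ω i) = μ := Measure.map_id
    rw [h5] at h4
    exact h4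

end Pool.Agent.X301.Par
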