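import Mathlib

open MeasureTheory Real Set Filter

namespace Pool.Agent.X301.StableZ

/-- `g u = - log |sin (π u)|`. -/
noncomputable def g (u : ℝ) : ℝ := - Real.log (Real.sin (π * u))

lemma g_nonneg (u : ℝ) : 0 ≤ g u := by
  unfold g
  rw [neg_nonneg, ← Real.log_abs]
  exact Real.log_nonpos (abs_nonneg _) (Real.abs_sin_le_one _)

lemma g_periodic : Function.Periodic g 1 := by
  intro u
  unfold g
  rw [mul_add, mul_one, Real.sin_add_pi, Real.log_neg_eq_log]

lemma exp_neg_g {u : ℝ} (h : Real.sin (π * u) ≠ 0) : Real.exp (- g u) = |Real.sin (π * u)| := by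
  unfold g
  rw [neg_neg, ← Real.log_abs, Real.exp_log (abs_pos.2 h)]

lemma g_int (a b : ℝ) : IntervalIntegrable g volume a b := by
  have h1 : IntervalIntegrable (Real.log ∘ Real.sin) volume (π * a) (π * b) :=
    intervalIntegrable_log_sin
  have h2 := h1.comp_mul_left (c := π)
  have h3 : π * a / π = a := by field_simp
  have h4 : π * b / π = b := by field_simp
  rw [h3, h4] at h2
  exact h2.neg

noncomputable def L0 : ℝ := ∫ u in (0:ℝ)..1, g u

lemma L0_nonneg : 0 ≤ L0 :=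
  intervalIntegral.integral_nonneg (by norm_num) (fun u _ => g_nonneg u)

lemma int_unit (a : ℝ) : ∫ u in a..(a+1), g u = L0 := by
  have := g_periodic.intervalIntegral_add_eq a 0
  rw [this, zero_add]; rfl

lemma int_shift (θ : ℝ) : ∫ u in (0:ℝ)..1, g (u + θ) = L0 := by
  rw [intervalIntegral.integral_comp_add_right, zero_add, add_comm, int_unit]

lemma int_two (a : ℝ) : ∫ u in a..(a+2), g u = 2 * L0 := by
  have h : ∫ u in a..(a+2), g u = (∫ u in a..(a+1), g u) + ∫ u in (a+1)..(a+1+1), g u := by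
    rw [intervalIntegral.integral_add_adjacent_intervals (g_int _ _) (g_int _ _)]
    congr 1; ring
  rw [h, int_unit, int_unit]; ring

lemma int_scale {α : ℝ} (hα : 0 < α) (hα2 : α ≤ 2) (d : ℝ) :
    ∫ u in (0:ℝ)..1, g (α * u + d) ≤ α⁻¹ * (2 * L0) := by
  rw [intervalIntegral.integral_comp_mul_add _ hα.ne', smul_eq_mul]
  apply mul_le_mul_of_nonneg_left _ (by positivity)
  rw [← int_two (α * 0 + d)]
  apply intervalIntegral.integral_mono_interval (le_refl _) (by linarith) (by linarith)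
  · exact Filter.Eventually.of_forall g_nonneg
  · exact g_int _ _

lemma g_scale_int {α : ℝ} (hα : 0 < α) (d : ℝ) :
    IntervalIntegrable (fun u => g (α * u + d)) volume 0 1 := by
  have h1 := ((g_int (α * 0 + d) (α * 1 + d)).comp_add_right d)
  have h2 := h1.comp_mul_left (c := α)
  have h3 : (α * 0 + d - d) / α = 0 := by field_simp; ring
  have h4 : (α * 1 + d - d) / α = 1 := by field_simp; ring
  rw [h3, h4] at h2
  exact h2

lemma sum_int {M : ℕ} {f : ℕ → ℝ → ℝ} (h : ∀ j ∈ Finset.range M, IntervalIntegrable (f j) volume 0 1) :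
    IntervalIntegrable (fun x => ∑ j ∈ Finset.range M, f j x) volume 0 1 := by
  have h2 : (fun x => ∑ j ∈ Finset.range M, f j x) = ∑ j ∈ Finset.range M, f j := by
    ext x
    simp
  rw [h2]
  exact IntervalIntegrable.sum (Finset.range M) h

/-- The total logarithmic defect. -/
noncomputable def F (α : ℝ) (M N : ℕ) (ρ : ℝ) : ℝ :=
  ∑ j ∈ Finset.range M, g (ρ + j / α) + ∑ j ∈ Finset.range N, g (α * ρ + α * j)

lemma F_nonneg (α : ℝ) (M N : ℕ) (ρ : ℝ) : 0 ≤ F α M N ρ :=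
  add_nonneg (Finset.sum_nonneg fun _ _ => g_nonneg _) (Finset.sum_nonneg fun _ _ => g_nonneg _)

/-- the integrated bound constant -/
noncomputable def L (α : ℝ) : ℝ := L0 + α⁻¹ * (2 * L0)

lemma L_nonneg {α : ℝ} (hα : 0 < α) : 0 ≤ L α := by
  have := L0_nonneg
  unfold L; positivity

lemma F_int {α : ℝ} (hα : 0 < α) (M N : ℕ) : IntervalIntegrable (F α M N) volume 0 1 := by
  unfold F
  apply IntervalIntegrable.add
  · apply sum_int
    intro j _
    have := g_scale_int (α := 1) one_pos ((j:ℝ)/α)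
    simpa using this
  · apply sum_int
    intro j _
    exact g_scale_int hα _

lemma F_integral {α : ℝ} (hα : 0 < α) (hα2 : α ≤ 2) (M N : ℕ) :
    ∫ u in (0:ℝ)..1, F α M N u ≤ L α * (M + N) := by
  have hI1 : ∀ j ∈ Finset.range M, IntervalIntegrable (fun u => g (u + (j:ℝ)/α)) volume 0 1 := by
    intro j _
    have := g_scale_int (α := 1) one_pos ((j:ℝ)/α)
    simpa using this
  have hI2 : ∀ j ∈ Finset.range N, IntervalIntegrable (fun u => g (α * u + α * (j:ℝ))) volume 0 1 :=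
    fun j _ => g_scale_int hα _
  have h1 : ∫ u in (0:ℝ)..1, F α M N u = (∑ j ∈ Finset.range M, ∫ u in (0:ℝ)..1, g (u + (j:ℝ)/α)) +
      ∑ j ∈ Finset.range N, ∫ u in (0:ℝ)..1, g (α * u + α * (j:ℝ)) := by
    unfold F
    rw [intervalIntegral.integral_add, intervalIntegral.integral_finsetSum hI1,
      intervalIntegral.integral_finsetSum hI2]
    · exact sum_int hI1
    · exact sum_int hI2
  rw [h1]
  have h2 : (∑ j ∈ Finset.range M, ∫ u in (0:ℝ)..1, g (u + (j:ℝ)/α)) = M * L0 := by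
    rw [Finset.sum_congr rfl (fun j _ => int_shift _)]
    simp
  have h3 : (∑ j ∈ Finset.range N, ∫ u in (0:ℝ)..1, g (α * u + α * (j:ℝ)))
      ≤ N * (α⁻¹ * (2 * L0)) := by
    calc _ ≤ ∑ j ∈ Finset.range N, α⁻¹ * (2 * L0) :=
          Finset.sum_le_sum fun j _ => int_scale hα hα2 _
      _ = _ := by simp
  rw [h2]
  have := L0_nonneg
  have h4 : 0 ≤ α⁻¹ * (2 * L0) := by positivity
  unfold L
  nlinarith [Nat.cast_nonneg (α := ℝ) M, Nat.cast_nonneg (α := ℝ) N, mul_nonneg (Nat.cast_nonneg (α := ℝ) M) h4, mul_nonneg (Nat.cast_nonneg (α := ℝ) N) this]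

lemma exists_pt {α : ℝ} (hα : 0 < α) (hα2 : α ≤ 2) {E Z : Set ℝ} (hE : E ⊆ Ioo 0 1)
    (hE0 : volume E ≠ 0) (hZ : volume Z = 0) (M N : ℕ) :
    ∃ ρ ∈ E, ρ ∉ Z ∧ F α M N ρ ≤ L α * (M + N) / (volume E).toReal := by
  have hvol : volume (E \ Z) = volume E := measure_sdiff_null hZ
  have hfin : volume E ≠ ⊤ := by
    have : volume E ≤ volume (Ioo (0:ℝ) 1) := measure_mono hE
    rw [Real.volume_Ioo] at this
    exact ne_top_of_le_ne_top ENNReal.ofReal_ne_top this
  have hIoc : IntegrableOn (F α M N) (Ioc 0 1) volume :=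
    (intervalIntegrable_iff_integrableOn_Ioc_of_le (by norm_num)).1 (F_int hα M N)
  have hsub : E \ Z ⊆ Ioc 0 1 := fun x hx => ⟨(hE hx.1).1, (hE hx.1).2.le⟩
  obtain ⟨ρ, hρ, hle⟩ := exists_le_setAverage (μ := volume) (s := E \ Z) (f := F α M N)
    (by rw [hvol]; exact hE0) (by rw [hvol]; exact hfin) (hIoc.mono_set hsub)
  refine ⟨ρ, hρ.1, hρ.2, hle.trans ?_⟩
  rw [setAverage_eq, smul_eq_mul, measureReal_def, hvol, inv_mul_eq_div]
  apply div_le_div_of_nonneg_right _ ENNReal.toReal_nonneg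
  calc ∫ x in E \ Z, F α M N x ≤ ∫ x in Ioc 0 1, F α M N x := by
        apply setIntegral_mono_set hIoc
        · exact Filter.Eventually.of_forall (fun x => F_nonneg α M N x)
        · exact LE.le.eventuallyLE hsub
    _ = ∫ x in (0:ℝ)..1, F α M N x := by rw [intervalIntegral.integral_of_le (by norm_num)]
    _ ≤ _ := F_integral hα hα2 M N


/-- Abstract zero-one law. -/
theorem core {α : ℝ} (hα : 0 < α) (hα2 : α ≤ 2) (c : ℕ → ℕ → ℝ → ℝ) (D : ℕ → ℕ → ℝ)
    (hD : ∀ m n, 0 ≤ D m n) {Z : Set ℝ} (hZ : volume Z = 0) {κ : ℝ} (hκ : 0 ≤ κ)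
    (h1 : ∀ ρ ∈ Ioo (0:ℝ) 1, ∃ C : ℝ, 0 ≤ C ∧ ∀ m n, |c m n ρ| ≤ C * D m n * exp (κ * (m + n)))
    (h2 : ∀ ρ ∈ Ioo (0:ℝ) 1, ρ ∉ Z → ∀ m n, ρ * D m n ≤
      |c m n ρ| * exp (κ * (m + n + 1) + F α (m+1) (n+1) ρ))
    (S : Set ℝ) (hS : S = {ρ | ρ ∈ Ioo (0:ℝ) 1 ∧ ∀ y : ℝ, 0 < y →
      Summable (fun p : ℕ × ℕ => |c p.1 p.2 ρ| * y ^ ((p.1 : ℝ) + α * p.2))}) :
    volume S = 0 ∨ S = Ioo 0 1 := by
  by_cases hS0 : volume S = 0
  · exact Or.inl hS0
  right
  have hSsub : S ⊆ Ioo 0 1 := by rw [hS]; exact fun x hx => hx.1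
  have hfin : volume S ≠ ⊤ := by
    have : volume S ≤ volume (Ioo (0:ℝ) 1) := measure_mono hSsub
    rw [Real.volume_Ioo] at this
    exact ne_top_of_le_ne_top ENNReal.ofReal_ne_top this
  set v := (volume S).toReal with hv
  have hvpos : 0 < v := ENNReal.toReal_pos hS0 hfin
  set K := 2 * L α / v with hK
  have hKn : 0 ≤ K := by have := L_nonneg hα; positivity
  refine le_antisymm hSsub ?_
  intro ρ' hρ'
  rw [hS]
  refine ⟨hρ', ?_⟩
  intro y hy
  obtain ⟨C, hC0, hC⟩ := h1 ρ' hρ'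
  set B := (2 * κ + K + 1) / min 1 α with hB
  have hmin : 0 < min 1 α := lt_min one_pos hα
  have hBn : 0 ≤ B := by positivity
  set T := exp B with hT
  have hTpos : 0 < T := exp_pos _
  have hTpow : ∀ m n : ℕ, exp ((2 * κ + K + 1) * (m + n)) ≤ T ^ ((m : ℝ) + α * n) := by
    intro m n
    rw [hT, ← Real.exp_mul]
    apply Real.exp_le_exp.2
    have : (2 * κ + K + 1) = B * min 1 α := by rw [hB]; field_simp
    rw [this, mul_assoc]
    apply mul_le_mul_of_nonneg_left _ hBn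
    have e1 : min 1 α * m ≤ 1 * m := mul_le_mul_of_nonneg_right (min_le_left _ _) (Nat.cast_nonneg _)
    have e2 : min 1 α * n ≤ α * n := mul_le_mul_of_nonneg_right (min_le_right _ _) (Nat.cast_nonneg _)
    linarith
  -- the level sets
  set P : ℕ → Set ℝ := fun M => {ρ | ρ ∈ S ∧ 1 / ((M:ℝ) + 1) ≤ ρ ∧
    ∀ m n : ℕ, |c m n ρ| * (y * T) ^ ((m : ℝ) + α * n) ≤ M} with hP
  have hmono : Monotone P := by
    intro M M' hMM ρ hρ
    have hc : (M : ℝ) ≤ M' := by exact_mod_cast hMM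
    refine ⟨hρ.1, le_trans ?_ hρ.2.1, fun m n => (hρ.2.2 m n).trans hc⟩
    apply one_div_le_one_div_of_le (by positivity) (by linarith)
  have hUn : ⋃ M, P M = S := by
    apply le_antisymm
    · intro ρ hρ
      obtain ⟨M, hM⟩ := mem_iUnion.1 hρ
      exact hM.1
    · intro ρ hρ
      have hρS := hρ
      rw [hS] at hρS
      obtain ⟨h01, hsum⟩ := hρS
      have hs := hsum (y * T) (by positivity)
      have hnn : ∀ p : ℕ × ℕ, 0 ≤ |c p.1 p.2 ρ| * (y * T) ^ ((p.1 : ℝ) + α * p.2) := by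
        intro p; positivity
      obtain ⟨M1, hM1⟩ := exists_nat_ge (∑' p : ℕ × ℕ, |c p.1 p.2 ρ| * (y * T) ^ ((p.1 : ℝ) + α * p.2))
      obtain ⟨M2, hM2⟩ := exists_nat_ge (1 / ρ)
      refine mem_iUnion.2 ⟨max M1 M2, hρ, ?_, ?_⟩
      · rw [div_le_iff₀ (by positivity)]
        have : (1:ℝ) ≤ ρ * M2 := by
          rw [div_le_iff₀ h01.1] at hM2; linarith
        have h3 : (M2 : ℝ) ≤ ((max M1 M2 : ℕ) : ℝ) := by exact_mod_cast le_max_right _ _
        nlinarith [h01.1]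
      · intro m n
        have h3 : (M1 : ℝ) ≤ ((max M1 M2 : ℕ) : ℝ) := by exact_mod_cast le_max_left _ _
        exact ((hs.le_tsum (m, n) (fun p _ => hnn p)).trans hM1).trans h3
  have hlim := tendsto_measure_iUnion_atTop (μ := volume) hmono
  rw [hUn] at hlim
  have hlim2 : Tendsto (fun M => (volume (P M)).toReal) atTop (nhds v) :=
    (ENNReal.tendsto_toReal hfin).comp hlim
  obtain ⟨M, hM⟩ := (hlim2.eventually (lt_mem_nhds (show v / 2 < v by linarith))).exists
  have hPsub : P M ⊆ S := fun x hx => hx.1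
  have hPM0 : volume (P M) ≠ 0 := by
    intro h
    rw [h] at hM
    simp only [ENNReal.toReal_zero] at hM
    linarith
  -- bound of D
  have hDb : ∀ m n : ℕ, D m n ≤ ((M:ℝ) + 1) * M * exp (κ * (m + n + 1) + K * (m + n + 2)) *
      ((y * T) ^ ((m : ℝ) + α * n))⁻¹ := by
    intro m n
    obtain ⟨ρ, hρP, hρZ, hρF⟩ := exists_pt hα hα2 (hPsub.trans hSsub) hPM0 hZ (m+1) (n+1)
    have hρ01 := hSsub (hPsub hρP)
    have hF : F α (m+1) (n+1) ρ ≤ K * (m + n + 2) := by
      refine hρF.trans ?_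
      push_cast
      rw [hK, div_le_iff₀ (by linarith)]
      have hLn := L_nonneg hα
      have e1 : 2 * L α / v * (m + n + 2) * (volume (P M)).toReal =
        L α * (m + n + 2) * (2 * (volume (P M)).toReal / v) := by ring
      rw [e1]
      have e2 : 1 ≤ 2 * (volume (P M)).toReal / v := by
        rw [le_div_iff₀ hvpos]; linarith
      have e3 : 0 ≤ L α * (m + n + 2) := by positivity
      calc L α * (m + 1 + (n + 1)) = L α * (m + n + 2) * 1 := by ring
        _ ≤ _ := mul_le_mul_of_nonneg_left e2 e3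
    have h3 := h2 ρ hρ01 hρZ m n
    have h4 := hρP.2.2 m n
    have hpow : 0 < (y * T) ^ ((m : ℝ) + α * n) := by positivity
    have h5 : |c m n ρ| ≤ M * ((y * T) ^ ((m : ℝ) + α * n))⁻¹ := by
      rw [← div_eq_mul_inv, le_div_iff₀ hpow]; exact h4
    have h6 : 1 ≤ ρ * ((M:ℝ) + 1) := by
      have := hρP.2.1
      rw [div_le_iff₀ (by positivity)] at this
      exact this
    have h7 : exp (κ * (m + n + 1) + F α (m+1) (n+1) ρ) ≤ exp (κ * (m + n + 1) + K * (m + n + 2)) :=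
      Real.exp_le_exp.2 (by linarith)
    calc D m n = 1 * D m n := by ring
      _ ≤ (ρ * ((M:ℝ) + 1)) * D m n := mul_le_mul_of_nonneg_right h6 (hD m n)
      _ = ((M:ℝ) + 1) * (ρ * D m n) := by ring
      _ ≤ ((M:ℝ) + 1) * (|c m n ρ| * exp (κ * (m + n + 1) + F α (m+1) (n+1) ρ)) :=
          mul_le_mul_of_nonneg_left h3 (by positivity)
      _ ≤ ((M:ℝ) + 1) * ((M * ((y * T) ^ ((m : ℝ) + α * n))⁻¹) *
            exp (κ * (m + n + 1) + K * (m + n + 2))) := by
          apply mul_le_mul_of_nonneg_left _ (by positivity)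
          apply mul_le_mul h5 h7 (exp_pos _).le (by positivity)
      _ = _ := by ring
  have hexp1 : Summable (fun m : ℕ => exp (-(m:ℝ))) := by
    have := Real.summable_exp_neg_nat
    exact this
  have hsum : Summable (fun p : ℕ × ℕ => exp (-(p.1:ℝ)) * exp (-(p.2:ℝ))) :=
    hexp1.mul_of_nonneg hexp1 (fun _ => (exp_pos _).le) (fun _ => (exp_pos _).le)
  have hsum2 := hsum.mul_left (C * (((M:ℝ) + 1) * M * exp (κ + 2 * K)))
  refine Summable.of_nonneg_of_le (fun p => by positivity) (fun p => ?_) hsum2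
  obtain ⟨m, n⟩ := p
  simp only
  have hTp := hTpow m n
  have hyp : 0 < y ^ ((m : ℝ) + α * n) := by positivity
  have hTpp : 0 < T ^ ((m : ℝ) + α * n) := by positivity
  have hmul : (y * T) ^ ((m : ℝ) + α * n) = y ^ ((m : ℝ) + α * n) * T ^ ((m : ℝ) + α * n) :=
    Real.mul_rpow hy.le hTpos.le
  calc |c m n ρ'| * y ^ ((m : ℝ) + α * n)
      ≤ (C * D m n * exp (κ * (m + n))) * y ^ ((m : ℝ) + α * n) :=
        mul_le_mul_of_nonneg_right (hC m n) hyp.le
    _ ≤ (C * (((M:ℝ) + 1) * M * exp (κ * (m + n + 1) + K * (m + n + 2)) *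
      ((y * T) ^ ((m : ℝ) + α * n))⁻¹) * exp (κ * (m + n))) * y ^ ((m : ℝ) + α * n) := by
        apply mul_le_mul_of_nonneg_right _ hyp.le
        apply mul_le_mul_of_nonneg_right _ (exp_pos _).le
        exact mul_le_mul_of_nonneg_left (hDb m n) hC0
    _ = C * (((M:ℝ) + 1) * M) * (exp (κ * (m + n + 1) + K * (m + n + 2)) * exp (κ * (m + n))) *
        (T ^ ((m : ℝ) + α * n))⁻¹ := by
        rw [hmul]; field_simp
    _ ≤ C * (((M:ℝ) + 1) * M) * (exp (κ * (m + n + 1) + K * (m + n + 2)) * exp (κ * (m + n))) *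
        (exp ((2 * κ + K + 1) * (m + n)))⁻¹ := by
        apply mul_le_mul_of_nonneg_left _ (by positivity)
        exact inv_anti₀ (exp_pos _) hTp
    _ = C * (((M:ℝ) + 1) * M * exp (κ + 2 * K)) * (exp (-(m:ℝ)) * exp (-(n:ℝ))) := by
        rw [← Real.exp_add, ← Real.exp_neg, ← Real.exp_add]
        have e1 : C * (((M:ℝ) + 1) * M * exp (κ + 2 * K)) * exp (-(m:ℝ) + -(n:ℝ)) =
          C * (((M:ℝ) + 1) * M) * (exp (κ + 2 * K) * exp (-(m:ℝ) + -(n:ℝ))) := by ring
        rw [e1, ← Real.exp_add, mul_assoc, ← Real.exp_add]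
        congr 2
        ring

end Pool.Agent.X301.StableZ
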