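import Pool.Agent.X301.StableZ

open MeasureTheory Real Set Filter

namespace Pool.Agent.X301.StableZ

/-- `a_{m,n}`. -/
noncomputable def aCoef (α ρ : ℝ) (m n : ℕ) : ℝ :=
  (-1) ^ (m + n) / (Real.Gamma (1 - ρ - n - m / α) * Real.Gamma (α * ρ + m + α * n)) *
    (∏ j ∈ Finset.Icc 1 m, Real.sin (π / α * (α * ρ + j - 1)) / Real.sin (π * j / α)) *
    (∏ j ∈ Finset.Icc 1 n, Real.sin (π * α * (ρ + j - 1)) / Real.sin (π * α * j))

/-- `b_{m,n}`, literally as defined from `a_{m,n}`. -/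
noncomputable def bCoef (α ρ : ℝ) (m n : ℕ) : ℝ :=
  Real.Gamma (1 - ρ - n - m / α) * Real.Gamma (α * ρ + m + α * n) /
    (Real.Gamma (1 + n + m / α) * Real.Gamma (-m - α * n)) * aCoef α ρ m n

/-- `b_{m,n}` with the Gamma factors cancelled. -/
noncomputable def bReg (α ρ : ℝ) (m n : ℕ) : ℝ :=
  (-1) ^ (m + n) / (Real.Gamma (1 + n + m / α) * Real.Gamma (-m - α * n)) *
    (∏ j ∈ Finset.Icc 1 m, Real.sin (π / α * (α * ρ + j - 1)) / Real.sin (π * j / α)) *
    (∏ j ∈ Finset.Icc 1 n, Real.sin (π * α * (ρ + j - 1)) / Real.sin (π * α * j))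

noncomputable def PD (α : ℝ) (m n : ℕ) : ℝ :=
  (∏ j ∈ Finset.Icc 1 m, |Real.sin (π * j / α)|⁻¹) * ∏ j ∈ Finset.Icc 1 n, |Real.sin (π * α * j)|⁻¹

noncomputable def Num (α ρ : ℝ) (m n : ℕ) : ℝ :=
  (∏ j ∈ Finset.range m, |Real.sin (π * (ρ + j / α))|) *
    ∏ j ∈ Finset.range n, |Real.sin (π * (α * ρ + α * j))|

lemma PD_nonneg (α : ℝ) (m n : ℕ) : 0 ≤ PD α m n := by unfold PD; positivity
lemma Num_nonneg (α ρ : ℝ) (m n : ℕ) : 0 ≤ Num α ρ m n := by unfold Num; positivity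
lemma Num_le_one (α ρ : ℝ) (m n : ℕ) : Num α ρ m n ≤ 1 := by
  unfold Num
  have h1 : (∏ j ∈ Finset.range m, |Real.sin (π * (ρ + j / α))|) ≤ 1 :=
    Finset.prod_le_one (fun _ _ => abs_nonneg _) (fun _ _ => Real.abs_sin_le_one _)
  have h2 : (∏ j ∈ Finset.range n, |Real.sin (π * (α * ρ + α * j))|) ≤ 1 :=
    Finset.prod_le_one (fun _ _ => abs_nonneg _) (fun _ _ => Real.abs_sin_le_one _)
  exact mul_le_one₀ h1 (by positivity) h2

lemma prod_Icc (f : ℕ → ℝ) (m : ℕ) : ∏ j ∈ Finset.Icc 1 m, f j = ∏ j ∈ Finset.range m, f (j+1) := by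
  induction m with
  | zero => simp
  | succ m ih => rw [Finset.prod_Icc_succ_top (by omega), Finset.prod_range_succ, ih]

lemma prods_abs {α : ℝ} (hα : α ≠ 0) (ρ : ℝ) (m n : ℕ) :
    |(∏ j ∈ Finset.Icc 1 m, Real.sin (π / α * (α * ρ + j - 1)) / Real.sin (π * j / α)) *
    (∏ j ∈ Finset.Icc 1 n, Real.sin (π * α * (ρ + j - 1)) / Real.sin (π * α * j))| =
    Num α ρ m n * PD α m n := by
  unfold Num PD
  rw [abs_mul, Finset.abs_prod, Finset.abs_prod]
  simp only [div_eq_mul_inv, abs_mul, abs_inv, Finset.prod_mul_distrib]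
  have e1 : ∏ j ∈ Finset.Icc 1 m, |Real.sin (π * α⁻¹ * (α * ρ + j - 1))| =
      ∏ j ∈ Finset.range m, |Real.sin (π * (ρ + j * α⁻¹))| := by
    rw [prod_Icc (fun j => |Real.sin (π * α⁻¹ * (α * ρ + j - 1))|)]
    apply Finset.prod_congr rfl
    intro j _
    congr 2
    push_cast
    field_simp
    ring
  have e2 : ∏ j ∈ Finset.Icc 1 n, |Real.sin (π * α * (ρ + j - 1))| =
      ∏ j ∈ Finset.range n, |Real.sin (π * (α * ρ + α * j))| := by
    rw [prod_Icc (fun j => |Real.sin (π * α * (ρ + j - 1))|)]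
    apply Finset.prod_congr rfl
    intro j _
    congr 2
    push_cast
    ring
  rw [e1, e2]
  ring

/-- The exceptional null set. -/
def Z (α : ℝ) : Set ℝ := (⋃ j : ℕ, {ρ | Real.sin (π * (ρ + j / α)) = 0}) ∪
  ⋃ j : ℕ, {ρ | Real.sin (π * (α * ρ + α * j)) = 0}

lemma Z_null {α : ℝ} (hα : 0 < α) : volume (Z α) = 0 := by
  apply Set.Countable.measure_zero
  apply Set.Countable.union
  · apply Set.countable_iUnion
    intro j
    apply (Set.countable_range (fun k : ℤ => (k:ℝ) - j / α)).mono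
    intro ρ hρ
    obtain ⟨k, hk⟩ := Real.sin_eq_zero_iff.1 hρ
    refine ⟨k, ?_⟩
    have : (k:ℝ) = ρ + j / α := by
      have hpi := Real.pi_pos
      nlinarith [mul_right_cancel₀ hpi.ne' (hk.trans (mul_comm _ _))]
    simp only
    linarith
  · apply Set.countable_iUnion
    intro j
    apply (Set.countable_range (fun k : ℤ => ((k:ℝ) - α * j) / α)).mono
    intro ρ hρ
    obtain ⟨k, hk⟩ := Real.sin_eq_zero_iff.1 hρ
    refine ⟨k, ?_⟩
    have : (k:ℝ) = α * ρ + α * j := by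
      have hpi := Real.pi_pos
      exact mul_right_cancel₀ hpi.ne' (hk.trans (mul_comm _ _))
    simp only
    rw [this]
    field_simp
    ring

lemma Num_exp {α ρ : ℝ} (h : ρ ∉ Z α) (m n : ℕ) : Num α ρ m n = exp (- F α m n ρ) := by
  unfold Num F
  rw [neg_add, Real.exp_add, ← Finset.sum_neg_distrib, ← Finset.sum_neg_distrib, Real.exp_sum,
    Real.exp_sum]
  congr 1
  · apply Finset.prod_congr rfl
    intro j _
    rw [exp_neg_g]
    intro h0
    exact h (Or.inl (mem_iUnion.2 ⟨j, h0⟩))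
  · apply Finset.prod_congr rfl
    intro j _
    rw [exp_neg_g]
    intro h0
    exact h (Or.inr (mem_iUnion.2 ⟨j, h0⟩))

lemma F_mono {α ρ : ℝ} {M N M' N' : ℕ} (h1 : M ≤ M') (h2 : N ≤ N') : F α M N ρ ≤ F α M' N' ρ := by
  unfold F
  apply add_le_add
  · exact Finset.sum_le_sum_of_subset_of_nonneg (Finset.range_mono h1) (fun _ _ _ => g_nonneg _)
  · exact Finset.sum_le_sum_of_subset_of_nonneg (Finset.range_mono h2) (fun _ _ _ => g_nonneg _)

lemma abs_bReg {α : ℝ} (hα : α ≠ 0) (ρ : ℝ) (m n : ℕ) : |bReg α ρ m n| =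
    |Real.Gamma (1 + n + m / α) * Real.Gamma (-m - α * n)|⁻¹ * (Num α ρ m n * PD α m n) := by
  unfold bReg
  rw [mul_assoc, abs_mul, prods_abs hα, abs_div, abs_pow, abs_neg, abs_one, one_pow, one_div]

lemma bCoef_eq {α ρ : ℝ} (m n : ℕ) (h1 : Real.Gamma (1 - ρ - n - m / α) ≠ 0)
    (h2 : Real.Gamma (α * ρ + m + α * n) ≠ 0) : bCoef α ρ m n = bReg α ρ m n := by
  unfold bCoef bReg aCoef
  generalize Real.Gamma (1 - ρ - n - m / α) = A at *
  generalize Real.Gamma (α * ρ + m + α * n) = B at *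
  generalize Real.Gamma (1 + n + m / α) = C
  generalize Real.Gamma (-m - α * n) = E
  generalize (∏ j ∈ Finset.Icc 1 m, Real.sin (π / α * (α * ρ + j - 1)) / Real.sin (π * j / α)) = P
  generalize (∏ j ∈ Finset.Icc 1 n, Real.sin (π * α * (ρ + j - 1)) / Real.sin (π * α * j)) = Q
  have e : A * B / (C * E) * ((-1) ^ (m + n) / (A * B) * P * Q) =
    (A * B) * (A * B)⁻¹ * ((-1) ^ (m + n) / (C * E) * P * Q) := by ring
  rw [e, mul_inv_cancel₀ (mul_ne_zero h1 h2), one_mul]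

lemma Gamma_ne {α ρ : ℝ} (hα : 0 < α) (hρ : 0 < ρ) (m n : ℕ) :
    Real.Gamma (α * ρ + m + α * n) ≠ 0 := by
  have h : 0 < α * ρ + m + α * n := by positivity
  exact (Real.Gamma_pos_of_pos h).ne'

lemma abs_bCoef_le {α ρ : ℝ} (m n : ℕ) : |bCoef α ρ m n| ≤ |bReg α ρ m n| := by
  by_cases h1 : Real.Gamma (1 - ρ - n - m / α) = 0
  · unfold bCoef
    rw [h1]
    simp
  by_cases h2 : Real.Gamma (α * ρ + m + α * n) = 0
  · unfold bCoef
    rw [h2]
    simp
  rw [bCoef_eq m n h1 h2]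

lemma Gamma_one_sub_ne {α ρ : ℝ} (h : ρ ∉ Z α) (m n : ℕ) :
    Real.Gamma (1 - ρ - n - m / α) ≠ 0 := by
  apply Real.Gamma_ne_zero
  intro k hk
  apply h
  refine Or.inl (mem_iUnion.2 ⟨m, ?_⟩)
  show Real.sin (π * (ρ + m / α)) = 0
  have : ρ + m / α = ((1 - (n:ℤ) + (k:ℤ) : ℤ) : ℝ) := by push_cast; linarith
  rw [this, mul_comm]
  exact Real.sin_int_mul_pi _

lemma inv_Gamma_one_sub {s : ℝ} (hs : 0 < s) :
    (Real.Gamma (1 - s))⁻¹ = Real.Gamma s * Real.sin (π * s) / π := by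
  have h := Real.Gamma_mul_Gamma_one_sub s
  have hG := (Real.Gamma_pos_of_pos hs).ne'
  have hpi := Real.pi_pos.ne'
  by_cases h0 : Real.sin (π * s) = 0
  · rw [h0] at h
    simp only [div_zero, mul_eq_zero] at h
    rcases h with h | h
    · exact absurd h hG
    · rw [h, h0]; simp
  · have h1 : Real.Gamma (1 - s) = π / (Real.sin (π * s) * Real.Gamma s) := by
      field_simp
      field_simp at h
      linarith
    rw [h1, inv_div]
    ring

lemma Gam_shift {s : ℝ} (hs : 0 < s) : Real.Gamma (s + 2) = (s + 1) * s * Real.Gamma s := by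
  rw [show s + 2 = (s + 1) + 1 by ring, Real.Gamma_add_one (by linarith), Real.Gamma_add_one hs.ne']
  ring

lemma Gam_mono {s t : ℝ} (hs : 2 ≤ s) (h : s ≤ t) : Real.Gamma s ≤ Real.Gamma t :=
  Real.Gamma_strictMonoOn_Ici.monotoneOn hs (hs.trans h) h

lemma poly_le {w : ℝ} (hw : 0 ≤ w) : (2 * w + 3) ^ 4 ≤ exp (2 * w + 7) := by
  have h1 := Real.pow_div_factorial_le_exp (2 * w + 3) (by positivity) 4
  have h2 : (2 * w + 3) ^ 4 ≤ 24 * exp (2 * w + 3) := by
    rw [div_le_iff₀ (by positivity)] at h1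
    simpa [Nat.factorial, mul_comm] using h1
  have h3 : (24:ℝ) ≤ exp 4 := by
    have h4 : (2.7:ℝ) ≤ exp 1 := by have := Real.exp_one_gt_d9; linarith
    have : exp 4 = (exp 1) ^ 4 := by rw [← Real.exp_nat_mul]; norm_num
    rw [this]
    calc (24:ℝ) ≤ 2.7 ^ 4 := by norm_num
      _ ≤ _ := pow_le_pow_left₀ (by norm_num) h4 4
  calc _ ≤ 24 * exp (2 * w + 3) := h2
    _ ≤ exp 4 * exp (2 * w + 3) := mul_le_mul_of_nonneg_right h3 (exp_pos _).le
    _ = _ := by rw [← Real.exp_add]; congr 1; ring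

/-- comparison of Gamma ratios, upper -/
lemma ratio_upper {α ρ w : ℝ} (hα : 1 < α) (hα2 : α < 2) (hρ : 0 < ρ) (hρ1 : ρ < 1) (hw : 0 ≤ w) :
    Real.Gamma (ρ + w) / Real.Gamma (α * (ρ + w)) ≤
      (1 / ρ) * (Real.Gamma (w + 2) / Real.Gamma (α * w + 2)) * exp (2 * w + 7) := by
  have hαw : 0 ≤ α * w := by positivity
  have hs : 0 < ρ + w := by positivity
  have hαs : 0 < α * (ρ + w) := by positivity
  have g1 : 0 < Real.Gamma (ρ + w) := Real.Gamma_pos_of_pos hs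
  have g2 : 0 < Real.Gamma (α * (ρ + w)) := Real.Gamma_pos_of_pos hαs
  have g3 : 0 < Real.Gamma (w + 2) := Real.Gamma_pos_of_pos (by linarith)
  have g4 : 0 < Real.Gamma (α * w + 2) := Real.Gamma_pos_of_pos (by linarith)
  have a1 : ρ * Real.Gamma (ρ + w) ≤ (w + 2) * Real.Gamma (w + 2) := by
    have e1 := Gam_shift hs
    have e2 : Real.Gamma (ρ + w + 2) ≤ Real.Gamma (w + 3) := Gam_mono (by linarith) (by linarith)
    have e3 : Real.Gamma (w + 3) = (w + 2) * Real.Gamma (w + 2) := by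
      rw [show w + 3 = (w + 2) + 1 by ring, Real.Gamma_add_one (by linarith)]
    rw [← e3]
    refine le_trans ?_ e2
    rw [e1]
    have : ρ ≤ (ρ + w + 1) * (ρ + w) := by nlinarith
    exact mul_le_mul_of_nonneg_right this g1.le
  have a2 : Real.Gamma (α * w + 2) ≤ (2 * w + 2) * (2 * w + 3) * Real.Gamma (α * (ρ + w)) := by
    have e1 := Gam_shift hαs
    have e2 : Real.Gamma (α * w + 2) ≤ Real.Gamma (α * (ρ + w) + 2) :=
      Gam_mono (by linarith) (by nlinarith)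
    refine e2.trans ?_
    rw [e1]
    have e3 : α * (ρ + w) ≤ 2 * w + 2 := by nlinarith
    apply mul_le_mul_of_nonneg_right _ g2.le
    nlinarith
  have hp := poly_le hw
  rw [div_le_iff₀ g2]
  have e5 : Real.Gamma (ρ + w) ≤ (1/ρ) * ((w + 2) * Real.Gamma (w + 2)) := by
    rw [one_div, ← div_eq_inv_mul, le_div_iff₀ hρ]; linarith
  have e6 : 1 ≤ (2 * w + 2) * (2 * w + 3) * Real.Gamma (α * (ρ + w)) / Real.Gamma (α * w + 2) := by
    rw [le_div_iff₀ g4]; linarith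
  have e7 : (w + 2) * ((2 * w + 2) * (2 * w + 3)) ≤ exp (2 * w + 7) := by
    refine le_trans ?_ hp
    have : (w + 2) * ((2 * w + 2) * (2 * w + 3)) ≤ (2*w+3) * ((2*w+3) * (2*w+3)) := by gcongr <;> linarith
    refine this.trans ?_
    have h1 : (1:ℝ) ≤ 2 * w + 3 := by linarith
    nlinarith [pow_pos (show (0:ℝ) < 2*w+3 by linarith) 3]
  calc Real.Gamma (ρ + w) ≤ (1/ρ) * ((w + 2) * Real.Gamma (w + 2)) * 1 := by rw [mul_one]; exact e5
    _ ≤ (1/ρ) * ((w + 2) * Real.Gamma (w + 2)) *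
        ((2 * w + 2) * (2 * w + 3) * Real.Gamma (α * (ρ + w)) / Real.Gamma (α * w + 2)) :=
        mul_le_mul_of_nonneg_left e6 (by positivity)
    _ = (1/ρ) * (Real.Gamma (w + 2) / Real.Gamma (α * w + 2)) *
        ((w + 2) * ((2 * w + 2) * (2 * w + 3))) * Real.Gamma (α * (ρ + w)) := by ring
    _ ≤ (1/ρ) * (Real.Gamma (w + 2) / Real.Gamma (α * w + 2)) *
        exp (2 * w + 7) * Real.Gamma (α * (ρ + w)) := by gcongr

lemma ratio_lower {α ρ w : ℝ} (hα : 1 < α) (hα2 : α < 2) (hρ : 0 < ρ) (hρ1 : ρ < 1) (hw : 0 ≤ w) :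
    ρ * (Real.Gamma (w + 2) / Real.Gamma (α * w + 2)) ≤
      Real.Gamma (ρ + w) / Real.Gamma (α * (ρ + w)) * exp (2 * w + 7) := by
  have hαw : 0 ≤ α * w := by positivity
  have hs : 0 < ρ + w := by positivity
  have hαs : 0 < α * (ρ + w) := by positivity
  have g1 : 0 < Real.Gamma (ρ + w) := Real.Gamma_pos_of_pos hs
  have g2 : 0 < Real.Gamma (α * (ρ + w)) := Real.Gamma_pos_of_pos hαs
  have g3 : 0 < Real.Gamma (w + 2) := Real.Gamma_pos_of_pos (by linarith)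
  have g4 : 0 < Real.Gamma (α * w + 2) := Real.Gamma_pos_of_pos (by linarith)
  have a1 : Real.Gamma (w + 2) ≤ (w + 2) * (w + 1) * Real.Gamma (ρ + w) := by
    have e1 := Gam_shift hs
    have e2 : Real.Gamma (w + 2) ≤ Real.Gamma (ρ + w + 2) := Gam_mono (by linarith) (by linarith)
    refine e2.trans ?_
    rw [e1]
    apply mul_le_mul_of_nonneg_right _ g1.le
    apply mul_le_mul <;> linarith
  have a2 : ρ * Real.Gamma (α * (ρ + w)) ≤ (2 * w + 3) * (2 * w + 2) * Real.Gamma (α * w + 2) := by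
    have e1 := Gam_shift hαs
    have e2 : Real.Gamma (α * (ρ + w) + 2) ≤ Real.Gamma (α * w + 2 + 2) :=
      Gam_mono (by linarith) (by nlinarith)
    have e3 := Gam_shift (s := α * w + 2) (by linarith)
    have e4 : ρ * Real.Gamma (α * (ρ + w)) ≤ Real.Gamma (α * (ρ + w) + 2) := by
      rw [e1]
      apply mul_le_mul_of_nonneg_right _ g2.le
      have : ρ ≤ α * (ρ + w) := by nlinarith
      nlinarith
    refine e4.trans (e2.trans ?_)
    rw [e3]
    have : α * w ≤ 2 * w := by nlinarith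
    apply mul_le_mul_of_nonneg_right _ g4.le
    apply mul_le_mul <;> linarith
  have hp := poly_le hw
  rw [div_mul_eq_mul_div, le_div_iff₀ g2]
  have e7 : (w + 2) * (w + 1) * ((2 * w + 3) * (2 * w + 2)) ≤ exp (2 * w + 7) := by
    refine le_trans ?_ hp
    have : (w + 2) * (w + 1) * ((2 * w + 3) * (2 * w + 2)) ≤
        (2*w+3) * (2*w+3) * ((2 * w + 3) * (2 * w + 3)) := by gcongr <;> linarith
    refine this.trans (le_of_eq ?_)
    ring
  calc ρ * (Real.Gamma (w + 2) / Real.Gamma (α * w + 2)) * Real.Gamma (α * (ρ + w))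
      = (ρ * Real.Gamma (α * (ρ + w))) * Real.Gamma (w + 2) / Real.Gamma (α * w + 2) := by ring
    _ ≤ ((2 * w + 3) * (2 * w + 2) * Real.Gamma (α * w + 2)) * ((w + 2) * (w + 1) * Real.Gamma (ρ + w))
        / Real.Gamma (α * w + 2) := by gcongr
    _ = Real.Gamma (ρ + w) * ((w + 2) * (w + 1) * ((2 * w + 3) * (2 * w + 2))) := by field_simp
    _ ≤ Real.Gamma (ρ + w) * exp (2 * w + 7) := by gcongr

end Pool.Agent.X301.StableZ
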