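import Pool.Agent.X301.StableZ2

open MeasureTheory Real Set Filter

namespace Pool.Agent.X301.StableZ

/-- The `(m,n)` term of the series at `x`, with the coefficients `b` used for `α < 1`. -/
noncomputable def sTerm (b : ℝ → ℝ → ℕ → ℕ → ℝ) (α ρ x : ℝ) (m n : ℕ) : ℝ :=
  if α < 1 then x ^ (-1 - α) * (b α ρ m (n + 1) * x ^ (-(m:ℝ) - α * n))
  else x ^ (α * ρ - 1) * (aCoef α ρ m n * x ^ ((m:ℝ) + α * n))

/-- Absolute convergence at `(α, ρ)`. -/
def AbsConv (b : ℝ → ℝ → ℕ → ℕ → ℝ) (α ρ : ℝ) : Prop :=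
  ∀ x : ℝ, 0 < x → Summable (fun p : ℕ × ℕ => |sTerm b α ρ x p.1 p.2|)

lemma absConv_iff_lt {b : ℝ → ℝ → ℕ → ℕ → ℝ} {α ρ : ℝ} (hα : α < 1) :
    AbsConv b α ρ ↔ ∀ y : ℝ, 0 < y →
      Summable (fun p : ℕ × ℕ => |b α ρ p.1 (p.2 + 1)| * y ^ ((p.1 : ℝ) + α * p.2)) := by
  have key : ∀ x : ℝ, 0 < x → ∀ p : ℕ × ℕ, |sTerm b α ρ x p.1 p.2| =
      x ^ (-1 - α) * (|b α ρ p.1 (p.2 + 1)| * (x⁻¹) ^ ((p.1 : ℝ) + α * p.2)) := by
    intro x hx p
    unfold sTerm
    rw [if_pos hα, abs_mul, abs_mul, abs_of_pos (rpow_pos_of_pos hx _),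
      abs_of_pos (rpow_pos_of_pos hx _), Real.inv_rpow hx.le, ← Real.rpow_neg hx.le]
    congr 3
    ring
  constructor
  · intro h y hy
    have h1 := h y⁻¹ (by positivity)
    have h2 : (fun p : ℕ × ℕ => |sTerm b α ρ y⁻¹ p.1 p.2|) = fun p : ℕ × ℕ =>
        (y⁻¹) ^ (-1 - α) * (|b α ρ p.1 (p.2 + 1)| * y ^ ((p.1 : ℝ) + α * p.2)) := by
      funext p
      rw [key y⁻¹ (by positivity) p, inv_inv]
    rw [h2] at h1
    exact (summable_mul_left_iff (rpow_pos_of_pos (inv_pos.2 hy) _).ne').1 h1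
  · intro h x hx
    have h1 := (h x⁻¹ (by positivity)).mul_left (x ^ (-1 - α))
    refine h1.congr ?_
    intro p
    rw [key x hx p]

lemma absConv_iff_gt {b : ℝ → ℝ → ℕ → ℕ → ℝ} {α ρ : ℝ} (hα : 1 < α) :
    AbsConv b α ρ ↔ ∀ y : ℝ, 0 < y →
      Summable (fun p : ℕ × ℕ => |aCoef α ρ p.1 p.2| * y ^ ((p.1 : ℝ) + α * p.2)) := by
  have key : ∀ x : ℝ, 0 < x → ∀ p : ℕ × ℕ, |sTerm b α ρ x p.1 p.2| =
      x ^ (α * ρ - 1) * (|aCoef α ρ p.1 p.2| * x ^ ((p.1 : ℝ) + α * p.2)) := by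
    intro x hx p
    unfold sTerm
    rw [if_neg (not_lt.2 hα.le), abs_mul, abs_mul, abs_of_pos (rpow_pos_of_pos hx _),
      abs_of_pos (rpow_pos_of_pos hx _)]
  constructor
  · intro h y hy
    have h1 := h y hy
    have h2 : (fun p : ℕ × ℕ => |sTerm b α ρ y p.1 p.2|) = fun p : ℕ × ℕ =>
        y ^ (α * ρ - 1) * (|aCoef α ρ p.1 p.2| * y ^ ((p.1 : ℝ) + α * p.2)) := by
      funext p
      rw [key y hy p]
    rw [h2] at h1
    exact (summable_mul_left_iff (rpow_pos_of_pos hy _).ne').1 h1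
  · intro h x hx
    have h1 := (h x hx).mul_left (x ^ (α * ρ - 1))
    refine h1.congr ?_
    intro p
    rw [key x hx p]

theorem zeroOne_lt {b : ℝ → ℝ → ℕ → ℕ → ℝ} (hb : b = bCoef ∨ b = bReg) {α : ℝ} (hα0 : 0 < α)
    (hα : α < 1) : volume {ρ | ρ ∈ Ioo (0:ℝ) 1 ∧ AbsConv b α ρ} = 0 ∨
      {ρ | ρ ∈ Ioo (0:ℝ) 1 ∧ AbsConv b α ρ} = Ioo 0 1 := by
  have hle : ∀ ρ m n, |b α ρ m n| ≤ |bReg α ρ m n| := by
    intro ρ m n
    rcases hb with rfl | rfl
    · exact abs_bCoef_le m n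
    · exact le_refl _
  have heq : ∀ ρ, 0 < ρ → ρ ∉ Z α → ∀ m n, b α ρ m n = bReg α ρ m n := by
    intro ρ hρ hZ m n
    rcases hb with rfl | rfl
    · exact bCoef_eq m n (Gamma_one_sub_ne hZ m n) (Gamma_ne hα0 hρ m n)
    · rfl
  apply core hα0 (by linarith) (fun m n ρ => b α ρ m (n+1))
    (fun m n => |Real.Gamma (1 + (n+1 : ℕ) + m / α) * Real.Gamma (-m - α * (n+1 : ℕ))|⁻¹ * PD α m (n+1))
    (fun m n => mul_nonneg (by positivity) (PD_nonneg _ _ _)) (Z_null hα0) (κ := 0) (le_refl _)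
  · intro ρ hρ
    refine ⟨1, by norm_num, fun m n => ?_⟩
    rw [zero_mul, Real.exp_zero, mul_one, one_mul]
    refine (hle ρ m (n+1)).trans ?_
    rw [abs_bReg hα0.ne']
    apply mul_le_mul_of_nonneg_left _ (by positivity)
    have := Num_le_one α ρ m (n+1)
    have h2 := PD_nonneg α m (n+1)
    nlinarith
  · intro ρ hρ hZ m n
    rw [heq ρ hρ.1 hZ, abs_bReg hα0.ne', Num_exp hZ, zero_mul, zero_add]
    set G := |Real.Gamma (1 + (n+1 : ℕ) + m / α) * Real.Gamma (-m - α * (n+1 : ℕ))|⁻¹ with hG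
    have hGn : 0 ≤ G := by positivity
    have hPD := PD_nonneg α m (n+1)
    have e : G * (exp (-F α m (n + 1) ρ) * PD α m (n + 1)) * exp (F α (m + 1) (n + 1) ρ) =
        exp (F α (m + 1) (n + 1) ρ - F α m (n + 1) ρ) * (G * PD α m (n+1)) := by
      rw [sub_eq_add_neg, Real.exp_add]; ring
    rw [e]
    apply mul_le_mul_of_nonneg_right _ (by positivity)
    have : F α m (n + 1) ρ ≤ F α (m + 1) (n + 1) ρ := F_mono (by omega) (le_refl _)
    have h1 : 1 ≤ exp (F α (m + 1) (n + 1) ρ - F α m (n + 1) ρ) := Real.one_le_exp (by linarith)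
    linarith [hρ.2]
  · ext ρ
    simp only [Set.mem_ofPred_eq]
    rw [absConv_iff_lt hα]

lemma abs_aCoef {α ρ : ℝ} (hα : 0 < α) (hρ : 0 < ρ) (m n : ℕ) :
    |aCoef α ρ m n| = Real.Gamma (ρ + (n + m / α)) / Real.Gamma (α * (ρ + (n + m / α))) *
      (|Real.sin (π * (ρ + m / α))| / π) * (Num α ρ m n * PD α m n) := by
  unfold aCoef
  rw [mul_assoc, abs_mul, prods_abs hα.ne', abs_div, abs_pow, abs_neg, abs_one, one_pow]
  congr 1
  have hs : 0 < ρ + (n + m / α) := by positivity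
  have h1 : 1 - ρ - n - m / α = 1 - (ρ + (n + m / α)) := by ring
  have h2 : α * ρ + m + α * n = α * (ρ + (n + m / α)) := by field_simp; ring
  rw [h1, h2, abs_mul, one_div, mul_inv, ← abs_inv, inv_Gamma_one_sub hs, abs_div, abs_mul,
    abs_of_pos (Real.Gamma_pos_of_pos hs), abs_of_pos (Real.Gamma_pos_of_pos (show 0 < α * (ρ + (n + m / α)) by positivity)),
    abs_of_pos Real.pi_pos]
  have h3 : |Real.sin (π * (ρ + (n + m / α)))| = |Real.sin (π * (ρ + m / α))| := by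
    rw [show π * (ρ + (n + m / α)) = π * (ρ + m / α) + n * π by ring, Real.sin_add_nat_mul_pi,
      abs_mul, abs_pow, abs_neg, abs_one, one_pow, one_mul]
  rw [h3]
  ring

theorem zeroOne_gt (b : ℝ → ℝ → ℕ → ℕ → ℝ) {α : ℝ} (hα : 1 < α) (hα2 : α < 2) :
    volume {ρ | ρ ∈ Ioo (0:ℝ) 1 ∧ AbsConv b α ρ} = 0 ∨
      {ρ | ρ ∈ Ioo (0:ℝ) 1 ∧ AbsConv b α ρ} = Ioo 0 1 := by
  have hα0 : 0 < α := by linarith
  have hpi := Real.pi_pos
  have hpi3 := Real.pi_gt_three
  have hw0 : ∀ m n : ℕ, (0:ℝ) ≤ n + m / α := fun m n => by positivity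
  have hw1 : ∀ m n : ℕ, (n + m / α : ℝ) ≤ m + n := by
    intro m n
    have : (m:ℝ) / α ≤ m := div_le_self (Nat.cast_nonneg _) hα.le
    linarith
  apply core hα0 hα2.le (fun m n ρ => aCoef α ρ m n)
    (fun m n => Real.Gamma ((n + m / α) + 2) / Real.Gamma (α * (n + m / α) + 2) * PD α m n)
    (fun m n => ?_) (Z_null hα0) (κ := 9) (by norm_num)
  · intro ρ hρ
    refine ⟨(1/ρ) * exp 7, by have := hρ.1; positivity, fun m n => ?_⟩
    rw [abs_aCoef hα0 hρ.1]
    have h1 := ratio_upper hα hα2 hρ.1 hρ.2 (hw0 m n)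
    have h2 := Num_le_one α ρ m n
    have h3 := Num_nonneg α ρ m n
    have h4 := PD_nonneg α m n
    have h5 : |Real.sin (π * (ρ + m / α))| / π ≤ 1 := by
      rw [div_le_one hpi]
      exact (Real.abs_sin_le_one _).trans (by linarith)
    have hs : 0 < ρ + (n + m / α) := by have := hρ.1; positivity
    have g1 := Real.Gamma_pos_of_pos hs
    have g2 := Real.Gamma_pos_of_pos (show 0 < α * (ρ + (n + m / α)) by positivity)
    have g3 : 0 < Real.Gamma ((n + m / α) + 2) := Real.Gamma_pos_of_pos (by have := hw0 m n; linarith)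
    have g4 : 0 < Real.Gamma (α * (n + m / α) + 2) := Real.Gamma_pos_of_pos (by
      have := hw0 m n; positivity)
    have h6 : exp (2 * (n + m / α) + 7) ≤ exp 7 * exp (9 * (m + n)) := by
      rw [← Real.exp_add]
      apply Real.exp_le_exp.2
      have := hw1 m n
      have := hw0 m n
      linarith
    have hρ0 := hρ.1
    calc _ ≤ Real.Gamma (ρ + (n + m / α)) / Real.Gamma (α * (ρ + (n + m / α))) * 1 * (1 * PD α m n) := by
          gcongr
      _ = Real.Gamma (ρ + (n + m / α)) / Real.Gamma (α * (ρ + (n + m / α))) * PD α m n := by ring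
      _ ≤ ((1 / ρ) * (Real.Gamma ((n + m / α) + 2) / Real.Gamma (α * (n + m / α) + 2)) *
          exp (2 * (n + m / α) + 7)) * PD α m n := by gcongr
      _ ≤ ((1 / ρ) * (Real.Gamma ((n + m / α) + 2) / Real.Gamma (α * (n + m / α) + 2)) *
          (exp 7 * exp (9 * (m + n)))) * PD α m n := by gcongr
      _ = _ := by ring
  · intro ρ hρ hZ m n
    have hρ0 := hρ.1
    rw [abs_aCoef hα0 hρ.1]
    have h1 := ratio_lower hα hα2 hρ.1 hρ.2 (hw0 m n)
    have h4 := PD_nonneg α m n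
    have hs : 0 < ρ + (n + m / α) := by positivity
    have g1 := Real.Gamma_pos_of_pos hs
    have g2 := Real.Gamma_pos_of_pos (show 0 < α * (ρ + (n + m / α)) by positivity)
    have hsin : |Real.sin (π * (ρ + m / α))| = exp (- g (ρ + m / α)) := by
      rw [exp_neg_g]
      intro h0
      exact hZ (Or.inl (mem_iUnion.2 ⟨m, h0⟩))
    have hF : F α (m+1) n ρ = F α m n ρ + g (ρ + m / α) := by
      unfold F
      rw [Finset.sum_range_succ]; ring
    have hF2 : F α (m+1) n ρ ≤ F α (m+1) (n+1) ρ := F_mono (le_refl _) (by omega)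
    have hpi2 : π ≤ exp 2 := by
      have : (2:ℝ) + 1 ≤ exp 2 := Real.add_one_le_exp 2
      have h2 : (2.7:ℝ) ≤ exp 1 := by have := Real.exp_one_gt_d9; linarith
      have h3 : exp 2 = exp 1 * exp 1 := by rw [← Real.exp_add]; norm_num
      have := Real.pi_lt_four
      nlinarith
    rw [hsin, Num_exp hZ]
    set R := Real.Gamma (ρ + (n + m / α)) / Real.Gamma (α * (ρ + (n + m / α))) with hR
    have hRp : 0 < R := by positivity
    have e : R * (exp (-g (ρ + m / α)) / π) * (exp (-F α m n ρ) * PD α m n) *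
        exp (9 * (m + n + 1) + F α (m + 1) (n + 1) ρ) =
        R * PD α m n * (exp (-g (ρ + m / α) + -F α m n ρ +
          (9 * (m + n + 1) + F α (m + 1) (n + 1) ρ)) / π) := by
      simp only [Real.exp_add]; ring
    rw [e]
    have h7 : exp (2 * (n + m / α) + 7) ≤ exp (-g (ρ + m / α) + -F α m n ρ +
          (9 * (m + n + 1) + F α (m + 1) (n + 1) ρ)) / π := by
      rw [le_div_iff₀ hpi]
      calc exp (2 * (n + m / α) + 7) * π ≤ exp (2 * (n + m / α) + 7) * exp 2 := by gcongr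
        _ = exp (2 * (n + m / α) + 7 + 2) := by rw [← Real.exp_add]
        _ ≤ _ := by
          apply Real.exp_le_exp.2
          have := hw1 m n
          have := hw0 m n
          linarith
    calc ρ * (Real.Gamma ((n + m / α) + 2) / Real.Gamma (α * (n + m / α) + 2) * PD α m n)
        = (ρ * (Real.Gamma ((n + m / α) + 2) / Real.Gamma (α * (n + m / α) + 2))) * PD α m n := by ring
      _ ≤ (R * exp (2 * (n + m / α) + 7)) * PD α m n := mul_le_mul_of_nonneg_right h1 h4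
      _ = R * PD α m n * exp (2 * (n + m / α) + 7) := by ring
      _ ≤ _ := by gcongr
  · ext ρ
    simp only [Set.mem_ofPred_eq]
    rw [absConv_iff_gt hα]
  · have g3 : 0 < Real.Gamma ((n + m / α) + 2) := Real.Gamma_pos_of_pos (by have := hw0 m n; linarith)
    have g4 : 0 < Real.Gamma (α * (n + m / α) + 2) := Real.Gamma_pos_of_pos (by
      have := hw0 m n; positivity)
    have := PD_nonneg α m n
    positivity

end Pool.Agent.X301.StableZ
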