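import Mathlib

open scoped ComplexConjugate InnerProductSpace ENNReal
open Complex

namespace Pool.Agent.X301.Wco

/-- The Hardy space, as the space of square summable sequences of Taylor coefficients. -/
abbrev H2 : Type := lp (fun _ : ℕ => ℂ) 2

/-- The value at `z` of the function with the Taylor coefficients `f`. -/
noncomputable def ev (f : H2) (z : ℂ) : ℂ := ∑' n : ℕ, f n * z ^ n

lemma ker_mem {w : ℂ} (hw : ‖w‖ < 1) : Memℓp (fun n : ℕ => (conj w) ^ n) 2 := by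
  rw [memℓp_gen_iff (by norm_num)]
  have h : ∀ n : ℕ, ‖(conj w) ^ n‖ ^ (2:ℝ≥0∞).toReal = (‖w‖ ^ 2) ^ n := by
    intro n
    simp only [ENNReal.toReal_ofNat, norm_pow, RCLike.norm_conj]
    norm_cast
    rw [← pow_mul, ← pow_mul, mul_comm]
  simp_rw [h]
  exact summable_geometric_of_lt_one (by positivity) (by
    have := norm_nonneg w
    nlinarith)

/-- reproducing kernel -/
noncomputable def ker (w : ℂ) (hw : ‖w‖ < 1) : H2 := ⟨fun n => (conj w) ^ n, ker_mem hw⟩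

lemma ker_apply {w : ℂ} (hw : ‖w‖ < 1) (n : ℕ) : (ker w hw) n = (conj w) ^ n := rfl

lemma inner_ker {w : ℂ} (hw : ‖w‖ < 1) (f : H2) : ⟪ker w hw, f⟫_ℂ = ev f w := by
  rw [lp.inner_eq_tsum]
  unfold ev
  apply tsum_congr
  intro n
  rw [ker_apply]
  simp

lemma ev_summable {w : ℂ} (hw : ‖w‖ < 1) (f : H2) : Summable (fun n : ℕ => f n * w ^ n) := by
  have := lp.summable_inner (𝕜 := ℂ) (ker w hw) f
  refine this.congr ?_
  intro n
  rw [ker_apply]
  simp

lemma ev_add {w : ℂ} (hw : ‖w‖ < 1) (f g : H2) : ev (f + g) w = ev f w + ev g w := by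
  rw [← inner_ker hw, ← inner_ker hw, ← inner_ker hw, inner_add_right]

lemma ev_sub {w : ℂ} (hw : ‖w‖ < 1) (f g : H2) : ev (f - g) w = ev f w - ev g w := by
  rw [← inner_ker hw, ← inner_ker hw, ← inner_ker hw, inner_sub_right]

lemma ev_smul {w : ℂ} (hw : ‖w‖ < 1) (t : ℂ) (f : H2) : ev (t • f) w = t * ev f w := by
  rw [← inner_ker hw, ← inner_ker hw, inner_smul_right]

lemma ev_ker {w z : ℂ} (hw : ‖w‖ < 1) (hz : ‖z‖ < 1) : ev (ker w hw) z = (1 - z * conj w)⁻¹ := by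
  unfold ev
  have h : ∀ n : ℕ, (ker w hw) n * z ^ n = (z * conj w) ^ n := by
    intro n; rw [ker_apply, mul_pow]; ring
  simp_rw [h]
  apply tsum_geometric_of_norm_lt_one
  rw [norm_mul, RCLike.norm_conj]
  have := norm_nonneg w
  have := norm_nonneg z
  nlinarith

lemma coeff_le (f : H2) (n : ℕ) : ‖f n‖ ≤ ‖f‖ := lp.norm_apply_le_norm (by norm_num) f n

lemma ev_inj {f : H2} (h : ∀ z : ℂ, ‖z‖ < 1 → ev f z = 0) : f = 0 := by
  have hb : ∀ n, ‖FormalMultilinearSeries.ofScalars ℂ (fun n => f n) n‖ ≤ ‖f‖ := by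
    intro n
    rw [FormalMultilinearSeries.ofScalars_norm]
    exact coeff_le f n
  have hps : HasFPowerSeriesOnBall (fun _ : ℂ => (0:ℂ))
      (FormalMultilinearSeries.ofScalars ℂ (fun n => f n)) 0 1 := by
    refine ⟨?_, by norm_num, ?_⟩
    · refine FormalMultilinearSeries.le_radius_of_bound _ (‖f‖) ?_
      intro n
      simpa using hb n
    · intro y hy
      have hy' : ‖y‖ < 1 := by
        have h9 : ‖y‖ₑ < 1 := by simpa [edist_zero_right] using hy
        rwa [← ofReal_norm, ENNReal.ofReal_lt_one] at h9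
      have h1 := (ev_summable hy' f).hasSum
      have h2 : ∑' n : ℕ, f n * y ^ n = 0 := h y hy'
      rw [h2] at h1
      refine h1.congr_fun ?_
      intro n
      simp [FormalMultilinearSeries.ofScalars, smul_eq_mul]
  have h3 := hps.hasFPowerSeriesAt.eq_zero
  ext n
  have h4 := hb n
  have h5 : ‖f n‖ = ‖FormalMultilinearSeries.ofScalars ℂ (fun n => f n) n‖ := by
    rw [FormalMultilinearSeries.ofScalars_norm]
  rw [h3] at h5
  simpa using h5

/-- the shift as a function -/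
def shf (f : ℕ → ℂ) : ℕ → ℂ
  | 0 => 0
  | n + 1 => f n

lemma shf_mem (f : H2) : Memℓp (shf f) 2 := by
  rw [memℓp_gen_iff (by norm_num)]
  have h := (memℓp_gen_iff (by norm_num : (0:ℝ) < (2:ℝ≥0∞).toReal)).1 (lp.memℓp f)
  rw [← summable_nat_add_iff 1]
  exact h

/-- the shift -/
noncomputable def Sh0 (f : H2) : H2 := ⟨shf f, shf_mem f⟩

lemma Sh0_zero (f : H2) : Sh0 f 0 = 0 := rfl
lemma Sh0_succ (f : H2) (n : ℕ) : Sh0 f (n+1) = f n := rfl

lemma inner_Sh0 (f g : H2) : ⟪Sh0 f, Sh0 g⟫_ℂ = ⟪f, g⟫_ℂ := by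
  rw [lp.inner_eq_tsum, lp.inner_eq_tsum]
  have hs := lp.summable_inner (𝕜 := ℂ) (Sh0 f) (Sh0 g)
  rw [hs.tsum_eq_zero_add]
  simp [Sh0_zero, Sh0_succ]

/-- the shift as a continuous linear map -/
noncomputable def Sh : H2 →L[ℂ] H2 :=
  LinearMap.mkContinuous
    { toFun := Sh0
      map_add' := by
        intro f g
        ext n
        cases n with
        | zero => simp [Sh0_zero]
        | succ n => simp [Sh0_succ]
      map_smul' := by
        intro t f
        ext n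
        cases n with
        | zero => simp [Sh0_zero]
        | succ n => simp [Sh0_succ] } 1 (by
      intro f
      rw [one_mul]
      have h := inner_Sh0 f f
      rw [inner_self_eq_norm_sq_to_K, inner_self_eq_norm_sq_to_K] at h
      have h2 : ‖Sh0 f‖ ^ 2 = ‖f‖ ^ 2 := by exact_mod_cast h
      have h3 : ‖Sh0 f‖ = ‖f‖ := (pow_left_inj₀ (norm_nonneg _) (norm_nonneg _) two_ne_zero).1 h2
      exact h3.le)

lemma Sh_apply (f : H2) : Sh f = Sh0 f := rfl

lemma inner_Sh (f g : H2) : ⟪Sh f, Sh g⟫_ℂ = ⟪f, g⟫_ℂ := inner_Sh0 f g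

lemma norm_Sh : ‖Sh‖ ≤ 1 := LinearMap.mkContinuous_norm_le _ (by norm_num) _

lemma ev_Sh {z : ℂ} (hz : ‖z‖ < 1) (f : H2) : ev (Sh f) z = z * ev f z := by
  have hs := ev_summable hz (Sh f)
  unfold ev
  rw [hs.tsum_eq_zero_add, ← tsum_mul_left]
  have h0 : (Sh f) 0 = 0 := Sh0_zero f
  rw [h0, zero_mul, zero_add]
  apply tsum_congr
  intro n
  have : (Sh f) (n+1) = f n := Sh0_succ f n
  rw [this, pow_succ]
  ring

/-- solving `(d + c S) g = f` -/
lemma solve {c d : ℂ} (h : ‖c‖ < ‖d‖) (f : H2) : ∃ g : H2, d • g + c • Sh g = f := by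
  have hd : d ≠ 0 := by
    intro h0
    rw [h0, norm_zero] at h
    exact absurd h (not_lt.2 (norm_nonneg c))
  have hn : ‖(-(c/d)) • Sh‖ < 1 := by
    rw [norm_smul, norm_neg, norm_div]
    have h1 : ‖c‖ / ‖d‖ < 1 := by rw [div_lt_one (norm_pos_iff.2 hd)]; exact h
    have h2 := norm_Sh
    have h3 : 0 ≤ ‖c‖ / ‖d‖ := by positivity
    nlinarith [norm_nonneg Sh]
  obtain ⟨u, hu⟩ := isUnit_one_sub_of_norm_lt_one hn
  refine ⟨d⁻¹ • (↑u⁻¹ : H2 →L[ℂ] H2) f, ?_⟩
  have h1 : (u : H2 →L[ℂ] H2) ((↑u⁻¹ : H2 →L[ℂ] H2) f) = f := by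
    have : ((u : H2 →L[ℂ] H2) * (↑u⁻¹ : H2 →L[ℂ] H2)) f = f := by
      rw [Units.mul_inv]; rfl
    exact this
  rw [hu] at h1
  set g := (↑u⁻¹ : H2 →L[ℂ] H2) f with hg
  have h2 : g + (c/d) • Sh g = f := by
    rw [← h1]
    simp
  rw [map_smul, smul_smul, mul_inv_cancel₀ hd, one_smul, smul_smul, ← div_eq_mul_inv, h2]

end Pool.Agent.X301.Wco
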