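import Pool.Agent.X301.Wco1

open scoped ComplexConjugate InnerProductSpace ENNReal
open Complex

namespace Pool.Agent.X301.Wco

section alg

variable {a b c d : ℂ}

/-- basic facts of a linear fractional self-map -/
lemma selfmap_lt (hdet : a * d - b * c ≠ 0)
    (hφ : ∀ z : ℂ, ‖z‖ < 1 → c * z + d ≠ 0 ∧ ‖(a * z + b) / (c * z + d)‖ < 1) : ‖c‖ < ‖d‖ := by
  by_contra hcon
  push Not at hcon
  have hd : d ≠ 0 := by
    have := (hφ 0 (by simp)).1
    simpa using this
  have hdp : 0 < ‖d‖ := norm_pos_iff.2 hd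
  have hcp : 0 < ‖c‖ := hdp.trans_le hcon
  have hc : c ≠ 0 := norm_pos_iff.1 hcp
  have hz0 : ‖d‖ / ‖c‖ ≤ 1 := by rw [div_le_one hcp]; exact hcon
  have hnl : ∀ z : ℂ, ‖z‖ < 1 → ‖a * z + b‖ < ‖c * z + d‖ := by
    intro z hz
    obtain ⟨h1, h2⟩ := hφ z hz
    rw [norm_div, div_lt_one (norm_pos_iff.2 h1)] at h2
    exact h2
  -- the pole
  have hpole : ‖-(d / c)‖ ≤ 1 := by rw [norm_neg, norm_div]; exact hz0
  have hbound : ∀ r : ℝ, 0 < r → r < 1 → ‖a * (-(d/c)) + b‖ ≤ (‖a‖ + ‖d‖) * (1 - r) := by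
    intro r hr0 hr1
    have hz : ‖(r:ℂ) * (-(d/c))‖ < 1 := by
      rw [norm_mul, Complex.norm_real, Real.norm_eq_abs, abs_of_pos hr0]
      have := norm_nonneg (-(d/c))
      nlinarith
    have h1 := hnl _ hz
    have h2 : c * ((r:ℂ) * (-(d/c))) + d = d * (1 - r : ℂ) := by field_simp; ring
    have h3 : ‖d * (1 - r : ℂ)‖ = ‖d‖ * (1 - r) := by
      rw [norm_mul]
      congr 1
      rw [show (1 - r : ℂ) = ((1 - r : ℝ) : ℂ) by push_cast; ring, Complex.norm_real,
        Real.norm_eq_abs, abs_of_pos (by linarith)]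
    rw [h2, h3] at h1
    have h4 : a * (-(d/c)) + b = (a * ((r:ℂ) * (-(d/c))) + b) + a * ((1 - r : ℂ) * (-(d/c))) := by ring
    rw [h4]
    refine (norm_add_le _ _).trans ?_
    have h5 : ‖a * ((1 - r : ℂ) * (-(d/c)))‖ ≤ ‖a‖ * (1 - r) := by
      rw [norm_mul, norm_mul]
      have h6 : ‖(1 - r : ℂ)‖ = 1 - r := by
        rw [show (1 - r : ℂ) = ((1 - r : ℝ) : ℂ) by push_cast; ring, Complex.norm_real,
          Real.norm_eq_abs, abs_of_pos (by linarith)]
      rw [h6]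
      have : (1 - r) * ‖-(d/c)‖ ≤ 1 - r := by
        have : 0 < 1 - r := by linarith
        nlinarith
      exact mul_le_mul_of_nonneg_left this (norm_nonneg _)
    linarith
  have hzero : ‖a * (-(d/c)) + b‖ = 0 := by
    by_contra h0
    have hpos : 0 < ‖a * (-(d/c)) + b‖ := lt_of_le_of_ne (norm_nonneg _) (Ne.symm h0)
    set X := ‖a * (-(d/c)) + b‖ with hX
    set Y := ‖a‖ + ‖d‖ with hY
    have hYp : 0 < Y := by have := norm_nonneg a; linarith
    have hr := hbound (1 - min (1/2) (X / (2 * Y))) (by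
      have : min (1/2) (X / (2 * Y)) ≤ 1/2 := min_le_left _ _
      linarith) (by
      have : 0 < min (1/2) (X / (2 * Y)) := lt_min (by norm_num) (by positivity)
      linarith)
    have h1 : min (1/2) (X / (2 * Y)) ≤ X / (2 * Y) := min_le_right _ _
    have h2 : Y * (1 - (1 - min (1/2) (X / (2 * Y)))) ≤ Y * (X / (2 * Y)) := by
      apply mul_le_mul_of_nonneg_left _ hYp.le
      linarith
    have h3 : Y * (X / (2 * Y)) = X / 2 := by field_simp
    linarith
  have h0 := norm_eq_zero.1 hzero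
  apply hdet
  field_simp at h0
  linear_combination -h0

end alg

/-- A polynomial of degree two with three given roots. -/
lemma quad_zero {p0 p1 p2 x y z : ℂ} (hxy : x ≠ y) (hxz : x ≠ z) (hyz : y ≠ z)
    (hx : p0 + p1 * x + p2 * x ^ 2 = 0) (hy : p0 + p1 * y + p2 * y ^ 2 = 0)
    (hz : p0 + p1 * z + p2 * z ^ 2 = 0) : p0 = 0 ∧ p1 = 0 ∧ p2 = 0 := by
  have h1 : (x - y) * (p1 + p2 * (x + y)) = 0 := by linear_combination hx - hy
  have h2 : (x - z) * (p1 + p2 * (x + z)) = 0 := by linear_combination hx - hz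
  have h1' := (mul_eq_zero.1 h1).resolve_left (sub_ne_zero.2 hxy)
  have h2' := (mul_eq_zero.1 h2).resolve_left (sub_ne_zero.2 hxz)
  have h3 : (y - z) * p2 = 0 := by linear_combination h1' - h2'
  have hp2 := (mul_eq_zero.1 h3).resolve_left (sub_ne_zero.2 hyz)
  have hp1 : p1 = 0 := by rw [hp2] at h1'; linear_combination h1'
  refine ⟨?_, hp1, hp2⟩
  rw [hp1, hp2] at hx
  linear_combination hx

/-- A biaffine form vanishing on the punctured disc vanishes. -/
lemma biaff_zero {B0 B1 B2 B3 : ℂ}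
    (h : ∀ w v : ℂ, w ≠ 0 → ‖w‖ < 1 → v ≠ 0 → ‖v‖ < 1 →
      B0 + B1 * w + B2 * conj v + B3 * w * conj v = 0) : B0 = 0 ∧ B1 = 0 ∧ B2 = 0 ∧ B3 = 0 := by
  have hn1 : ‖(1/2 : ℂ)‖ < 1 := by norm_num
  have hn2 : ‖(1/4 : ℂ)‖ < 1 := by norm_num
  have h11 := h (1/2) (1/2) (by norm_num) hn1 (by norm_num) hn1
  have h12 := h (1/2) (1/4) (by norm_num) hn1 (by norm_num) hn2
  have h21 := h (1/4) (1/2) (by norm_num) hn2 (by norm_num) hn1
  have h22 := h (1/4) (1/4) (by norm_num) hn2 (by norm_num) hn2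
  have c1 : conj (1/2 : ℂ) = 1/2 := by rw [map_div₀, map_one, map_ofNat]
  have c2 : conj (1/4 : ℂ) = 1/4 := by rw [map_div₀, map_one, map_ofNat]
  rw [c1] at h11 h21
  rw [c2] at h12 h22
  have e3 : B3 = 0 := by linear_combination 16 * (h11 - h12 - h21 + h22)
  subst e3
  have e1 : B1 = 0 := by linear_combination 4 * (h11 - h21)
  subst e1
  have e2 : B2 = 0 := by linear_combination 4 * (h11 - h12)
  subst e2
  refine ⟨?_, rfl, rfl, rfl⟩
  linear_combination h11

/-- If `e w * conj (e v) * M w v = K * B w v` on the punctured disc, with biaffine `M`, `B`, then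
`B = 0` or `B` is proportional to `M`. -/
lemma prop_of_factor {m0 m1 m2 m3 b0 b1 b2 b3 K : ℂ} (hK : K ≠ 0)
    (hdet : m1 * m2 - m0 * m3 ≠ 0) (e : ℂ → ℂ)
    (h : ∀ w v : ℂ, w ≠ 0 → ‖w‖ < 1 → v ≠ 0 → ‖v‖ < 1 →
      e w * conj (e v) * (m0 + m1 * w + m2 * conj v + m3 * w * conj v) =
        K * (b0 + b1 * w + b2 * conj v + b3 * w * conj v)) :
    (∀ w : ℂ, w ≠ 0 → ‖w‖ < 1 → e w = 0) ∨
      (b0 * m2 = b2 * m0 ∧ b1 * m3 = b3 * m1 ∧ b0 * m3 + b1 * m2 = b2 * m1 + b3 * m0) := by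
  by_cases hall : ∀ w : ℂ, w ≠ 0 → ‖w‖ < 1 → e w = 0
  · exact Or.inl hall
  right
  push Not at hall
  obtain ⟨w', hw'0, hw'1, hew'⟩ := hall
  have key : ∀ w : ℂ, w ≠ 0 → ‖w‖ < 1 → w ≠ w' →
      (b0 + b1 * w) * (m2 + m3 * w) - (b2 + b3 * w) * (m0 + m1 * w) = 0 := by
    intro w hw0 hw1 hne
    have hx : ∀ x : ℂ, x ≠ 0 → ‖x‖ < 1 →
        e w' * ((b0 + b1 * w) + (b2 + b3 * w) * conj x) * ((m0 + m1 * w') + (m2 + m3 * w') * conj x) =
        e w * ((b0 + b1 * w') + (b2 + b3 * w') * conj x) * ((m0 + m1 * w) + (m2 + m3 * w) * conj x) := by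
      intro x hx0 hx1
      have h1 := h w x hw0 hw1 hx0 hx1
      have h2 := h w' x hw'0 hw'1 hx0 hx1
      have h3 : K * (e w' * ((b0 + b1 * w) + (b2 + b3 * w) * conj x) * ((m0 + m1 * w') + (m2 + m3 * w') * conj x)
        - e w * ((b0 + b1 * w') + (b2 + b3 * w') * conj x) * ((m0 + m1 * w) + (m2 + m3 * w) * conj x)) = 0 := by
        linear_combination (-(e w' * ((m0 + m1 * w') + (m2 + m3 * w') * conj x))) * h1 +
          (e w * ((m0 + m1 * w) + (m2 + m3 * w) * conj x)) * h2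
      exact sub_eq_zero.1 ((mul_eq_zero.1 h3).resolve_left hK)
    have c1 : conj (1/2 : ℂ) = 1/2 := by rw [map_div₀, map_one, map_ofNat]
    have c2 : conj (1/4 : ℂ) = 1/4 := by rw [map_div₀, map_one, map_ofNat]
    have c3 : conj (-1/2 : ℂ) = -1/2 := by rw [map_div₀, map_neg, map_one, map_ofNat]
    have x1 := hx (1/2) (by norm_num) (by norm_num)
    have x2 := hx (1/4) (by norm_num) (by norm_num)
    have x3 := hx (-1/2) (by norm_num) (by norm_num)
    rw [c1] at x1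
    rw [c2] at x2
    rw [c3] at x3
    obtain ⟨q0, q1, q2⟩ := quad_zero
      (p0 := e w' * (b0 + b1 * w) * (m0 + m1 * w') - e w * (b0 + b1 * w') * (m0 + m1 * w))
      (p1 := e w' * ((b0 + b1 * w) * (m2 + m3 * w') + (b2 + b3 * w) * (m0 + m1 * w')) -
        e w * ((b0 + b1 * w') * (m2 + m3 * w) + (b2 + b3 * w') * (m0 + m1 * w)))
      (p2 := e w' * (b2 + b3 * w) * (m2 + m3 * w') - e w * (b2 + b3 * w') * (m2 + m3 * w))
      (x := 1/2) (y := 1/4) (z := -1/2) (by norm_num) (by norm_num) (by norm_num)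
      (by linear_combination x1) (by linear_combination x2) (by linear_combination x3)
    have h5 : e w' * ((m1 * m2 - m0 * m3) * (w - w')) *
        ((b0 + b1 * w) * (m2 + m3 * w) - (b2 + b3 * w) * (m0 + m1 * w)) = 0 := by
      linear_combination ((m0 + m1 * w) * (m2 + m3 * w)) * q1 - ((m2 + m3 * w) ^ 2) * q0 -
        ((m0 + m1 * w) ^ 2) * q2
    have h6 := mul_eq_zero.1 h5
    rcases h6 with h6 | h6
    · exfalso
      rcases mul_eq_zero.1 h6 with h7 | h7
      · exact hew' h7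
      · rcases mul_eq_zero.1 h7 with h8 | h8
        · exact hdet h8
        · exact hne (sub_eq_zero.1 h8)
    · exact h6
  have hnw : 0 < ‖w'‖ := norm_pos_iff.2 hw'0
  have mk : ∀ n : ℕ, 2 ≤ n → (w' / n ≠ 0 ∧ ‖w' / n‖ < 1 ∧ w' / n ≠ w') := by
    intro n hn
    have hn' : (2:ℝ) ≤ n := by exact_mod_cast hn
    have hnc : (n:ℂ) ≠ 0 := by
      have : n ≠ 0 := by omega
      exact_mod_cast this
    refine ⟨div_ne_zero hw'0 hnc, ?_, ?_⟩
    · rw [norm_div, Complex.norm_natCast, div_lt_one (by linarith)]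
      linarith
    · intro h9
      rw [div_eq_iff hnc] at h9
      have h10 : w' * ((n:ℂ) - 1) = 0 := by linear_combination -h9
      rcases mul_eq_zero.1 h10 with h11 | h11
      · exact hw'0 h11
      · have h12 : (n:ℂ) = 1 := by linear_combination h11
        have h13 : n = 1 := by exact_mod_cast h12
        omega
  obtain ⟨a1, a2, a3⟩ := mk 2 (le_refl _)
  obtain ⟨b1', b2', b3'⟩ := mk 3 (by norm_num)
  obtain ⟨c1', c2', c3'⟩ := mk 4 (by norm_num)
  have k1 := key _ a1 a2 a3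
  have k2 := key _ b1' b2' b3'
  have k3 := key _ c1' c2' c3'
  obtain ⟨q0, q1, q2⟩ := quad_zero (p0 := b0 * m2 - b2 * m0)
    (p1 := b0 * m3 + b1 * m2 - (b2 * m1 + b3 * m0)) (p2 := b1 * m3 - b3 * m1)
    (x := w' / (2:ℕ)) (y := w' / (3:ℕ)) (z := w' / (4:ℕ))
    (by
      intro h
      field_simp at h
      norm_num at h)
    (by
      intro h
      field_simp at h
      norm_num at h)
    (by
      intro h
      field_simp at h
      norm_num at h)
    (by linear_combination k1) (by linear_combination k2) (by linear_combination k3)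
  exact ⟨sub_eq_zero.1 q0, sub_eq_zero.1 q2, sub_eq_zero.1 q1⟩

end Pool.Agent.X301.Wco
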