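import Pool.Agent.X301.Wco2

open scoped ComplexConjugate InnerProductSpace ENNReal
open Complex

namespace Pool.Agent.X301.Wco

section fe

variable {a b c d : ℂ}

/-- `|d|^2 - |c|^2` -/
noncomputable def dl (c d : ℂ) : ℂ := d * conj d - c * conj c
/-- centre of the image disc -/
noncomputable def kp (a b c d : ℂ) : ℂ := (b * conj d - a * conj c) / dl c d
/-- squared radius of the image disc -/
noncomputable def rh (a b c d : ℂ) : ℂ := (a * d - b * c) * conj (a * d - b * c) / dl c d ^ 2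

lemma conj_dl (c d : ℂ) : conj (dl c d) = dl c d := by
  unfold dl
  simp only [map_sub, map_mul, Complex.conj_conj]
  ring

lemma dl_eq (c d : ℂ) : dl c d = ((Complex.normSq d - Complex.normSq c : ℝ) : ℂ) := by
  unfold dl
  rw [Complex.mul_conj, Complex.mul_conj]; push_cast; ring

lemma normSq_lt {c d : ℂ} (h : ‖c‖ < ‖d‖) : Complex.normSq c < Complex.normSq d := by
  rw [Complex.normSq_eq_norm_sq, Complex.normSq_eq_norm_sq]
  have := norm_nonneg c
  nlinarith

lemma dl_ne {c d : ℂ} (h : ‖c‖ < ‖d‖) : dl c d ≠ 0 := by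
  rw [dl_eq]
  have := normSq_lt h
  exact_mod_cast (sub_pos.2 this).ne'

lemma iso (hcd : ‖c‖ < ‖d‖) (g g' : H2) :
    ⟪(b - kp a b c d * d) • g + (a - kp a b c d * c) • Sh g,
      (b - kp a b c d * d) • g' + (a - kp a b c d * c) • Sh g'⟫_ℂ =
    rh a b c d * ⟪d • g + c • Sh g, d • g' + c • Sh g'⟫_ℂ := by
  have hdl := dl_ne hcd
  have e1 : b - kp a b c d * d = conj c * (a * d - b * c) / dl c d := by
    unfold kp
    field_simp
    unfold dl
    ring
  have e2 : a - kp a b c d * c = conj d * (a * d - b * c) / dl c d := by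
    unfold kp
    field_simp
    unfold dl
    ring
  rw [e1, e2]
  simp only [inner_add_left, inner_add_right, inner_smul_left, inner_smul_right, inner_Sh, map_mul,
    map_div₀, map_sub, Complex.conj_conj, conj_dl]
  unfold rh
  simp only [map_mul, map_sub]
  field_simp
  ring

variable (hdet : a * d - b * c ≠ 0)
  (hφ : ∀ z : ℂ, ‖z‖ < 1 → c * z + d ≠ 0 ∧ ‖(a * z + b) / (c * z + d)‖ < 1)
  {ψ : ℂ → ℂ} {W : H2 →L[ℂ] H2}
  (hW : ∀ f : H2, ∀ z : ℂ, ‖z‖ < 1 → ev (W f) z = ψ z * ev f ((a * z + b) / (c * z + d)))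
  (hN : W ∘L ContinuousLinearMap.adjoint W = ContinuousLinearMap.adjoint W ∘L W)

include hφ hW in
lemma adj_ker {w : ℂ} (hw : ‖w‖ < 1) :
    ContinuousLinearMap.adjoint W (ker w hw) = conj (ψ w) • ker ((a * w + b) / (c * w + d)) (hφ w hw).2 := by
  apply ext_inner_right ℂ
  intro f
  rw [ContinuousLinearMap.adjoint_inner_left, inner_ker, hW f w hw, inner_smul_left, inner_ker,
    Complex.conj_conj]

include hφ hW hN in
lemma inner_F {w v : ℂ} (hw : ‖w‖ < 1) (hv : ‖v‖ < 1) :
    ⟪W (ker w hw), W (ker v hv)⟫_ℂ = ψ w * conj (ψ v) *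
      (1 - (a * w + b) / (c * w + d) * conj ((a * v + b) / (c * v + d)))⁻¹ := by
  have h1 : ⟪W (ker w hw), W (ker v hv)⟫_ℂ =
      ⟪ContinuousLinearMap.adjoint W (ker w hw), ContinuousLinearMap.adjoint W (ker v hv)⟫_ℂ := by
    rw [← ContinuousLinearMap.adjoint_inner_right, ← ContinuousLinearMap.adjoint_inner_right,
      ContinuousLinearMap.adjoint_adjoint]
    have := congrArg (fun T : H2 →L[ℂ] H2 => T (ker v hv)) hN
    simp only [ContinuousLinearMap.comp_apply] at this
    rw [this]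
  rw [h1, adj_ker hφ hW hw, adj_ker hφ hW hv, inner_smul_left, inner_smul_right, inner_ker,
    ev_ker _ (hφ w hw).2, Complex.conj_conj]
  ring

include hdet hφ hW hN in
/-- The functional equation of the kernel. -/
lemma func_eq {w v : ℂ} (hw : ‖w‖ < 1) (hv : ‖v‖ < 1) (h0 : ‖(0:ℂ)‖ < 1) :
    (1 - conj (kp a b c d) * w) * (1 - kp a b c d * conj v) * ⟪W (ker w hw), W (ker v hv)⟫_ℂ
      - (1 - conj (kp a b c d) * w) * ⟪W (ker w hw), W (ker 0 h0)⟫_ℂ
      - (1 - kp a b c d * conj v) * ⟪W (ker 0 h0), W (ker v hv)⟫_ℂ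
      + ⟪W (ker 0 h0), W (ker 0 h0)⟫_ℂ =
    w * conj v * rh a b c d * ⟪W (ker w hw), W (ker v hv)⟫_ℂ := by
  have hcd := selfmap_lt hdet hφ
  have main : ∀ w : ℂ, ∀ hw : ‖w‖ < 1, ∃ g : H2, d • g + c • Sh g = W (ker w hw) ∧
      conj w • (b • g + a • Sh g) = W (ker w hw) - W (ker 0 h0) := by
    intro w hw
    obtain ⟨g, hg⟩ := solve hcd (W (ker w hw))
    refine ⟨g, hg, ?_⟩
    rw [← sub_eq_zero]
    apply ev_inj
    intro z hz
    obtain ⟨hz1, hz2⟩ := hφ z hz
    have e1 := congrArg (fun f : H2 => ev f z) hg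
    simp only [ev_add hz, ev_smul hz, ev_Sh hz] at e1
    rw [hW _ z hz, ev_ker hw hz2] at e1
    rw [ev_sub hz, ev_smul hz, ev_add hz, ev_smul hz, ev_smul hz, ev_Sh hz, ev_sub hz, hW _ z hz,
      hW _ z hz, ev_ker hw hz2, ev_ker h0 hz2]
    have hne : 1 - (a * z + b) / (c * z + d) * conj w ≠ 0 := by
      intro h
      have h2 : (a * z + b) / (c * z + d) * conj w = 1 := by linear_combination -h
      have h3 : ‖(a * z + b) / (c * z + d) * conj w‖ < 1 := by
        rw [norm_mul, RCLike.norm_conj]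
        have := norm_nonneg w
        have := norm_nonneg ((a * z + b) / (c * z + d))
        nlinarith
      rw [h2] at h3
      simp at h3
    have e2 : ev g z = ψ z * (1 - (a * z + b) / (c * z + d) * conj w)⁻¹ / (c * z + d) := by
      rw [eq_div_iff hz1, ← e1]; ring
    rw [e2, map_zero, mul_zero, sub_zero, inv_one, mul_one]
    set t := (a * z + b) / (c * z + d) with ht
    have e3 : a * z + b = t * (c * z + d) := (div_mul_cancel₀ _ hz1).symm
    have e4 : conj w * (b * (ψ z * (1 - t * conj w)⁻¹ / (c * z + d)) +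
        a * (z * (ψ z * (1 - t * conj w)⁻¹ / (c * z + d)))) =
        conj w * ψ z * (1 - t * conj w)⁻¹ * ((a * z + b) / (c * z + d)) := by ring
    rw [e4, ← ht]
    have e5 : (1 - t * conj w)⁻¹ * (1 - t * conj w) = 1 := inv_mul_cancel₀ hne
    linear_combination (-ψ z) * e5
  obtain ⟨g, hg1, hg2⟩ := main w hw
  obtain ⟨g', hg1', hg2'⟩ := main v hv
  have hi := iso (a := a) (b := b) hcd g g'
  rw [hg1, hg1'] at hi
  set κ := kp a b c d with hκ
  have p1 : conj w • ((b - κ * d) • g + (a - κ * c) • Sh g) =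
      (1 - conj w * κ) • W (ker w hw) - W (ker 0 h0) := by
    have : (b - κ * d) • g + (a - κ * c) • Sh g = (b • g + a • Sh g) - κ • (d • g + c • Sh g) := by
      module
    rw [this, hg1, smul_sub, hg2]
    module
  have p2 : conj v • ((b - κ * d) • g' + (a - κ * c) • Sh g') =
      (1 - conj v * κ) • W (ker v hv) - W (ker 0 h0) := by
    have : (b - κ * d) • g' + (a - κ * c) • Sh g' = (b • g' + a • Sh g') - κ • (d • g' + c • Sh g') := by
      module
    rw [this, hg1', smul_sub, hg2']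
    module
  have h3 : ⟪conj w • ((b - κ * d) • g + (a - κ * c) • Sh g),
      conj v • ((b - κ * d) • g' + (a - κ * c) • Sh g')⟫_ℂ =
      w * conj v * (rh a b c d * ⟪W (ker w hw), W (ker v hv)⟫_ℂ) := by
    rw [inner_smul_left, inner_smul_right, hi, Complex.conj_conj]; ring
  rw [p1, p2] at h3
  simp only [inner_sub_left, inner_sub_right, inner_smul_left, inner_smul_right, map_sub, map_one,
    map_mul, Complex.conj_conj] at h3
  linear_combination h3

end fe

/-- pure algebra -/
lemma alg1 {x y s s' A A' M0 Mm C C' r2 DD d db u u' : ℂ} (hM0 : M0 ≠ 0)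
    (h : (C * C' - r2 * x * y) * s * s' * (A * A') * M0 =
      C * s * db * u' * Mm * A' * M0 + C' * d * s' * u * Mm * A * M0 - u * u' * (d * db) * Mm * A * A')
    (hAA : A * A' = M0 * Mm + DD * x * y) :
    (d * db * u / M0 * A - C * s * db) * (d * db * u' / M0 * A' - C' * s' * d) * Mm =
      (d * db / M0) * (r2 * A * A' - DD * C * C') * (x * s) * (y * s') := by
  have e : (d * db * u / M0 * A - C * s * db) * (d * db * u' / M0 * A' - C' * s' * d) * Mm =
    (d * db / M0 ^ 2) * (u * u' * (d * db) * Mm * A * A' - C * s * db * u' * Mm * A' * M0 -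
      C' * d * s' * u * Mm * A * M0 + M0 ^ 2 * C * C' * s * s' * Mm) := by
    field_simp
    ring
  rw [e]
  have e2 : (u * u' * (d * db) * Mm * A * A' - C * s * db * u' * Mm * A' * M0 -
      C' * d * s' * u * Mm * A * M0 + M0 ^ 2 * C * C' * s * s' * Mm) =
      M0 * ((r2 * A * A' - DD * C * C') * (x * s) * (y * s')) := by
    linear_combination h - M0 * C * C' * s * s' * hAA
  rw [e2]
  field_simp

end Pool.Agent.X301.Wco
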