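import Pool.Agent.X301.Wco3

open scoped ComplexConjugate InnerProductSpace ENNReal
open Complex

namespace Pool.Agent.X301.Wco

lemma norm_zero_lt : ‖(0:ℂ)‖ < 1 := by simp

section fin

variable {a b c d : ℂ} (hdet : a * d - b * c ≠ 0)
  (hφ : ∀ z : ℂ, ‖z‖ < 1 → c * z + d ≠ 0 ∧ ‖(a * z + b) / (c * z + d)‖ < 1)

include hφ in
lemma nl {z : ℂ} (hz : ‖z‖ < 1) : ‖a * z + b‖ < ‖c * z + d‖ := by
  obtain ⟨h1, h2⟩ := hφ z hz
  rw [norm_div, div_lt_one (norm_pos_iff.2 h1)] at h2
  exact h2

/-- `M w v = s(w) conj s(v) - n(w) conj n(v)` -/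
noncomputable def MM (a b c d w v : ℂ) : ℂ :=
  (c * w + d) * conj (c * v + d) - (a * w + b) * conj (a * v + b)

lemma conj_MM (w v : ℂ) : conj (MM a b c d w v) = MM a b c d v w := by
  unfold MM
  simp only [map_sub, map_mul, Complex.conj_conj]
  ring

include hφ in
lemma MM_ne {w v : ℂ} (hw : ‖w‖ < 1) (hv : ‖v‖ < 1) : MM a b c d w v ≠ 0 := by
  unfold MM
  intro h
  have h1 := nl hφ hw
  have h2 := nl hφ hv
  have h3 : (c * w + d) * conj (c * v + d) = (a * w + b) * conj (a * v + b) := by
    linear_combination h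
  have h4 := congrArg norm h3
  rw [norm_mul, norm_mul, RCLike.norm_conj, RCLike.norm_conj] at h4
  have := norm_nonneg (a * w + b)
  have := norm_nonneg (a * v + b)
  nlinarith

include hφ in
lemma MM_pos {w : ℂ} (hw : ‖w‖ < 1) : 0 < (MM a b c d w w).re := by
  unfold MM
  rw [Complex.mul_conj, Complex.mul_conj, Complex.sub_re, Complex.ofReal_re, Complex.ofReal_re]
  exact sub_pos.2 (normSq_lt (nl hφ hw))

include hdet hφ in
/-- The numerical core: the coefficients of the two biaffine forms. -/
lemma coeffs_zero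
    (h1 : (rh a b c d * (MM a b c d 0 0) ^ 2 - (a * d - b * c) * conj (a * d - b * c)) *
        (conj (c * conj d - a * conj b)) =
      (rh a b c d * (MM a b c d 0 0) * conj (c * conj d - a * conj b) +
        (a * d - b * c) * conj (a * d - b * c) * kp a b c d) * MM a b c d 0 0)
    (h2 : (rh a b c d * (MM a b c d 0 0) ^ 2 - (a * d - b * c) * conj (a * d - b * c)) *
        (c * conj c - a * conj a) +
      (rh a b c d * (MM a b c d 0 0) * (c * conj d - a * conj b) +
        (a * d - b * c) * conj (a * d - b * c) * conj (kp a b c d)) * conj (c * conj d - a * conj b) =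
      (rh a b c d * (MM a b c d 0 0) * conj (c * conj d - a * conj b) +
        (a * d - b * c) * conj (a * d - b * c) * kp a b c d) * (c * conj d - a * conj b) +
      (rh a b c d * (c * conj d - a * conj b) * conj (c * conj d - a * conj b) -
        (a * d - b * c) * conj (a * d - b * c) * (kp a b c d * conj (kp a b c d))) * MM a b c d 0 0) :
    rh a b c d * (MM a b c d 0 0) ^ 2 - (a * d - b * c) * conj (a * d - b * c) = 0 := by
  have hcd := selfmap_lt hdet hφ
  have hdl := dl_ne hcd
  have hbd : ‖b‖ < ‖d‖ := by simpa using nl hφ norm_zero_lt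
  set M0 := MM a b c d 0 0 with hM0
  have hM0' : M0 = d * conj d - b * conj b := by rw [hM0]; unfold MM; simp
  have hM0c : conj M0 = M0 := conj_MM _ _
  have hM0ne : M0 ≠ 0 := MM_ne hφ norm_zero_lt norm_zero_lt
  set DD := (a * d - b * c) * conj (a * d - b * c) with hDD
  have hDDne : DD ≠ 0 := mul_ne_zero hdet (by rwa [Ne, map_eq_zero])
  have hrh : rh a b c d = DD / dl c d ^ 2 := rfl
  have hkp : kp a b c d = (b * conj d - a * conj c) / dl c d := rfl
  have hkpc : conj (kp a b c d) = (conj b * d - conj a * c) / dl c d := by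
    rw [hkp, map_div₀, conj_dl]; simp only [map_sub, map_mul, Complex.conj_conj]
  have hDDc : conj DD = DD := by rw [hDD]; simp only [map_mul, Complex.conj_conj]; ring
  have hrhc : conj (rh a b c d) = rh a b c d := by rw [hrh, map_div₀, map_pow, conj_dl, hDDc]
  by_contra hb0
  set m1 := c * conj d - a * conj b with hm1
  -- conjugate of h1
  have h1c := congrArg conj h1
  simp only [map_mul, map_sub, map_add, map_pow, hrhc, hM0c, hDDc, Complex.conj_conj] at h1c
  -- b3 * M0 = b0 * m3
  have key : (rh a b c d * M0 ^ 2 - DD) * (c * conj c - a * conj a) =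
      (rh a b c d * m1 * conj m1 - DD * (kp a b c d * conj (kp a b c d))) * M0 := by
    have e : M0 * ((rh a b c d * M0 ^ 2 - DD) * (c * conj c - a * conj a) -
      (rh a b c d * m1 * conj m1 - DD * (kp a b c d * conj (kp a b c d))) * M0) = 0 := by
      linear_combination M0 * h2 + conj m1 * h1c - m1 * h1
    have := (mul_eq_zero.1 e).resolve_left hM0ne
    linear_combination this
  -- substitute
  rw [hkpc, hkp, hrh] at key
  rw [hrh] at hb0
  have f1 : (M0 ^ 2 - dl c d ^ 2) * (c * conj c - a * conj a) =
      (m1 * conj m1 - (b * conj d - a * conj c) * (conj b * d - conj a * c)) * M0 := by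
    have e : DD / dl c d ^ 2 * ((M0 ^ 2 - dl c d ^ 2) * (c * conj c - a * conj a) -
      (m1 * conj m1 - (b * conj d - a * conj c) * (conj b * d - conj a * c)) * M0) = 0 := by
      have e1 : DD / dl c d ^ 2 * ((M0 ^ 2 - dl c d ^ 2) * (c * conj c - a * conj a) -
        (m1 * conj m1 - (b * conj d - a * conj c) * (conj b * d - conj a * c)) * M0) =
        (DD / dl c d ^ 2 * M0 ^ 2 - DD) * (c * conj c - a * conj a) -
        (DD / dl c d ^ 2 * m1 * conj m1 - DD * ((b * conj d - a * conj c) / dl c d *
          ((conj b * d - conj a * c) / dl c d))) * M0 := by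
        field_simp
      rw [e1, key]; ring
    have h3 : DD / dl c d ^ 2 ≠ 0 := div_ne_zero hDDne (pow_ne_zero _ hdl)
    have := (mul_eq_zero.1 e).resolve_left h3
    linear_combination this
  have f2 : m1 * conj m1 - (b * conj d - a * conj c) * (conj b * d - conj a * c) =
      (c * conj c - b * conj b) * (d * conj d - a * conj a) := by
    rw [hm1]
    simp only [map_sub, map_mul, Complex.conj_conj]
    ring
  have f3 : M0 ^ 2 - dl c d ^ 2 = (c * conj c - b * conj b) *
      (2 * (d * conj d) - b * conj b - c * conj c) := by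
    rw [hM0']
    unfold dl
    ring
  rw [f2, f3, hM0'] at f1
  -- real numbers
  set α := Complex.normSq a with hα
  set β := Complex.normSq b with hβ
  set γ := Complex.normSq c with hγ
  set D := Complex.normSq d with hD
  have qa : a * conj a = (α:ℂ) := Complex.mul_conj a
  have qb : b * conj b = (β:ℂ) := Complex.mul_conj b
  have qc : c * conj c = (γ:ℂ) := Complex.mul_conj c
  have qd : d * conj d = (D:ℂ) := Complex.mul_conj d
  rw [qa, qb, qc, qd] at f1
  have f1r : (γ - β) * (2 * D - β - γ) * (γ - α) = (γ - β) * (D - α) * (D - β) := by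
    exact_mod_cast f1
  have hγD : γ < D := normSq_lt hcd
  have hβD : β < D := normSq_lt hbd
  have hγβ : γ - β ≠ 0 := by
    intro h
    apply hb0
    have : M0 ^ 2 - dl c d ^ 2 = 0 := by
      rw [f3, qb, qc]
      have : (γ:ℂ) - β = 0 := by exact_mod_cast h
      rw [this, zero_mul]
    have h4 : DD / dl c d ^ 2 * M0 ^ 2 - DD = DD / dl c d ^ 2 * (M0 ^ 2 - dl c d ^ 2) := by
      field_simp
    rw [h4, this, mul_zero]
  have f4 : (2 * D - β - γ) * (γ - α) = (D - α) * (D - β) := by
    have : (γ - β) * ((2 * D - β - γ) * (γ - α) - (D - α) * (D - β)) = 0 := by linear_combination f1r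
    have := (mul_eq_zero.1 this).resolve_left hγβ
    linarith
  have f5 : (γ - D) * (γ - (D + α - β)) = 0 := by linear_combination (-1) * f4
  have f6 : γ = D + α - β := by
    have := (mul_eq_zero.1 f5).resolve_left (by intro h; linarith)
    linarith
  -- the contradiction
  set P := Complex.normSq m1 with hP
  have qm : m1 * conj m1 = (P:ℂ) := Complex.mul_conj m1
  have f7 : P = Complex.normSq (a * d - b * c) + (D - β) * (γ - α) := by
    have e1 : m1 * conj m1 = (a * d - b * c) * conj (a * d - b * c) +
        (d * conj d - b * conj b) * (c * conj c - a * conj a) := by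
      rw [hm1]
      simp only [map_sub, map_mul, Complex.conj_conj]
      ring
    rw [qm, qa, qb, qc, qd, Complex.mul_conj] at e1
    exact_mod_cast e1
  have hΔ : 0 < Complex.normSq (a * d - b * c) := Complex.normSq_pos.2 hdet
  have hmu : 0 < D - β := by linarith
  have f8 : γ - α = D - β := by linarith
  rw [f8] at f7
  have f9 : (D - β) ^ 2 < P := by nlinarith
  have hPpos : 0 < P := by nlinarith
  -- evaluation point
  set t : ℝ := (D - β) / P with ht
  have htpos : 0 < t := div_pos hmu hPpos
  have hw : ‖-(conj m1 * (t:ℂ))‖ < 1 := by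
    rw [norm_neg, norm_mul, RCLike.norm_conj, Complex.norm_real, Real.norm_eq_abs, abs_of_pos htpos]
    have hn : ‖m1‖ ^ 2 = P := by rw [hP, Complex.normSq_eq_norm_sq]
    have hn0 := norm_nonneg m1
    have h5 : (‖m1‖ * t) ^ 2 < 1 := by
      rw [mul_pow, hn, ht, div_pow]
      rw [mul_div_assoc', div_lt_one (by positivity)]
      nlinarith
    nlinarith [mul_nonneg hn0 htpos.le]
  have hpos := MM_pos hφ hw
  have hval : MM a b c d (-(conj m1 * (t:ℂ))) (-(conj m1 * (t:ℂ))) =
      ((D - β) - 2 * t * P + (γ - α) * (t ^ 2 * P) : ℝ) := by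
    have e1 : MM a b c d (-(conj m1 * (t:ℂ))) (-(conj m1 * (t:ℂ))) =
        (d * conj d - b * conj b) - 2 * t * (m1 * conj m1) +
          (c * conj c - a * conj a) * (t ^ 2 * (m1 * conj m1)) := by
      unfold MM
      simp only [map_add, map_mul, map_neg, Complex.conj_conj, Complex.conj_ofReal]
      have e2 : conj m1 = conj c * d - conj a * b := by
        rw [hm1]; simp only [map_sub, map_mul, Complex.conj_conj]
      have e3 : m1 = c * conj d - a * conj b := hm1
      have e4 : (c * -(conj m1 * ↑t) + d) * (conj c * -(m1 * ↑t) + conj d) -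
          (a * -(conj m1 * ↑t) + b) * (conj a * -(m1 * ↑t) + conj b) =
          (d * conj d - b * conj b) - t * (conj m1 * (c * conj d - a * conj b)) -
          t * (m1 * (conj c * d - conj a * b)) +
          (c * conj c - a * conj a) * (t ^ 2 * (m1 * conj m1)) := by ring
      rw [e4, ← e2, ← e3]
      ring
    rw [e1, qa, qb, qc, qd, qm]
    push_cast
    ring
  rw [hval, Complex.ofReal_re, f8] at hpos
  have h9 : t * P = D - β := by rw [ht]; field_simp
  have h10 : t < 1 / (D - β) := by
    rw [ht, div_lt_div_iff₀ hPpos hmu]; nlinarith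
  have h11 : t * (D - β) < 1 := by
    rw [lt_div_iff₀ hmu] at h10; exact h10
  nlinarith [mul_pos htpos hmu]

end fin

end Pool.Agent.X301.Wco
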