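import Pool.Agent.X301.Wco4

open scoped ComplexConjugate InnerProductSpace ENNReal
open Complex

namespace Pool.Agent.X301.Wco

theorem main {a b c d : ℂ} (hdet : a * d - b * c ≠ 0)
    (hφ : ∀ z : ℂ, ‖z‖ < 1 → c * z + d ≠ 0 ∧ ‖(a * z + b) / (c * z + d)‖ < 1)
    {ψ : ℂ → ℂ} {W : H2 →L[ℂ] H2}
    (hW : ∀ f : H2, ∀ z : ℂ, ‖z‖ < 1 → ev (W f) z = ψ z * ev f ((a * z + b) / (c * z + d)))
    (hN : W ∘L ContinuousLinearMap.adjoint W = ContinuousLinearMap.adjoint W ∘L W) :
    ∀ z : ℂ, ‖z‖ < 1 → ψ z = ψ 0 * d / (c * z + d) := by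
  have h0 := norm_zero_lt
  have hd : d ≠ 0 := by simpa using (hφ 0 h0).1
  have hdc : conj d ≠ 0 := by rwa [Ne, map_eq_zero]
  by_cases hz : ∃ w : ℂ, ‖w‖ < 1 ∧ ψ w = 0
  · -- degenerate case
    obtain ⟨w, hw, hψw⟩ := hz
    have h1 := inner_F hφ hW hN hw hw
    rw [hψw, zero_mul, zero_mul, inner_self_eq_zero] at h1
    have h2 : ∀ z : ℂ, ‖z‖ < 1 → ψ z = 0 := by
      intro z hz
      have h3 := hW (ker w hw) z hz
      rw [h1, ev_ker hw (hφ z hz).2] at h3
      have h4 : ev (0 : H2) z = 0 := by unfold ev; simp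
      rw [h4] at h3
      have hne : (1 - (a * z + b) / (c * z + d) * conj w) ≠ 0 := by
        intro h
        have h2 : (a * z + b) / (c * z + d) * conj w = 1 := by linear_combination -h
        have h3 : ‖(a * z + b) / (c * z + d) * conj w‖ < 1 := by
          rw [norm_mul, RCLike.norm_conj]
          have := norm_nonneg w
          have := norm_nonneg ((a * z + b) / (c * z + d))
          have := (hφ z hz).2
          nlinarith
        rw [h2] at h3
        simp at h3
      rcases mul_eq_zero.1 h3.symm with h5 | h5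
      · exact h5
      · exact absurd h5 (inv_ne_zero hne)
    intro z hz
    rw [h2 z hz, h2 0 h0, zero_mul, zero_div]
  push Not at hz
  have hψ : ∀ w : ℂ, ‖w‖ < 1 → ψ w ≠ 0 := hz
  have hcd := selfmap_lt hdet hφ
  have hdl := dl_ne hcd
  set κ := kp a b c d with hκ
  set r2 := rh a b c d with hr2
  set M0 := MM a b c d 0 0 with hM0
  have hM0' : M0 = d * conj d - b * conj b := by rw [hM0]; unfold MM; simp
  have hM0c : conj M0 = M0 := conj_MM _ _
  have hM0ne : M0 ≠ 0 := MM_ne hφ h0 h0
  set DD := (a * d - b * c) * conj (a * d - b * c) with hDD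
  have hDDne : DD ≠ 0 := mul_ne_zero hdet (by rwa [Ne, map_eq_zero])
  have hDDc : conj DD = DD := by rw [hDD]; simp only [map_mul, Complex.conj_conj]; ring
  have hrh : r2 = DD / dl c d ^ 2 := rfl
  have hrhc : conj r2 = r2 := by rw [hrh, map_div₀, map_pow, conj_dl, hDDc]
  set m1 := c * conj d - a * conj b with hm1
  have hA : ∀ w : ℂ, MM a b c d w 0 = M0 + m1 * w := by
    intro w
    rw [hM0', hm1]
    unfold MM
    rw [mul_zero, mul_zero, zero_add, zero_add]
    ring
  have hAne : ∀ w : ℂ, ‖w‖ < 1 → M0 + m1 * w ≠ 0 := by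
    intro w hw
    rw [← hA]
    exact MM_ne hφ hw h0
  have hMexp : ∀ w v : ℂ, MM a b c d w v = M0 + m1 * w + conj m1 * conj v +
      (c * conj c - a * conj a) * w * conj v := by
    intro w v
    rw [hM0', hm1]
    unfold MM
    simp only [map_add, map_mul, map_sub, Complex.conj_conj]
    ring
  have hG : ∀ w v : ℂ, ∀ hw : ‖w‖ < 1, ∀ hv : ‖v‖ < 1, ⟪W (ker w hw), W (ker v hv)⟫_ℂ =
      ψ w * conj (ψ v) * ((c * w + d) * conj (c * v + d)) / MM a b c d w v := by
    intro w v hw hv
    rw [inner_F hφ hW hN hw hv]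
    have hs := (hφ w hw).1
    have hs' : conj (c * v + d) ≠ 0 := by rw [Ne, map_eq_zero]; exact (hφ v hv).1
    have hM := MM_ne hφ hw hv
    have e : 1 - (a * w + b) / (c * w + d) * conj ((a * v + b) / (c * v + d)) =
        MM a b c d w v / ((c * w + d) * conj (c * v + d)) := by
      rw [map_div₀, div_mul_div_comm, eq_div_iff (mul_ne_zero hs hs'), sub_mul, one_mul,
        div_mul_cancel₀ _ (mul_ne_zero hs hs')]
      rfl
    rw [e, inv_div]
    ring
  set u : ℂ → ℂ := fun w => ψ 0 / ψ w with hu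
  set e : ℂ → ℂ := fun w => (d * conj d * u w / M0 * (M0 + m1 * w) -
    (1 - conj κ * w) * (c * w + d) * conj d) / (w * (c * w + d)) with he
  have hid : ∀ w v : ℂ, w ≠ 0 → ‖w‖ < 1 → v ≠ 0 → ‖v‖ < 1 →
      e w * conj (e v) * (M0 + m1 * w + conj m1 * conj v +
        (c * conj c - a * conj a) * w * conj v) =
      (d * conj d / M0) * ((r2 * M0 ^ 2 - DD) + (r2 * M0 * m1 + DD * conj κ) * w +
        (r2 * M0 * conj m1 + DD * κ) * conj v +
        (r2 * m1 * conj m1 - DD * (κ * conj κ)) * w * conj v) := by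
    intro w v hw0 hw hv0 hv
    have hfe := func_eq hdet hφ hW hN hw hv h0
    rw [hG w v hw hv, hG w 0 hw h0, hG 0 v h0 hv, hG 0 0 h0 h0] at hfe
    have hs := (hφ w hw).1
    have hsv := (hφ v hv).1
    have hs' : conj (c * v + d) ≠ 0 := by rwa [Ne, map_eq_zero]
    have hM := MM_ne hφ hw hv
    have hAw := hAne w hw
    have hAv := hAne v hv
    have hAv' : conj (M0 + m1 * v) ≠ 0 := by rwa [Ne, map_eq_zero]
    have hM0v : MM a b c d 0 v = conj (M0 + m1 * v) := by
      rw [← hA v, conj_MM]
    rw [hA w, hM0v] at hfe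
    have hv0' : conj v ≠ 0 := by rwa [Ne, map_eq_zero]
    have hψw := hψ w hw
    have hψv : conj (ψ v) ≠ 0 := by rw [Ne, map_eq_zero]; exact hψ v hv
    simp only [mul_zero, zero_add] at hfe
    rw [← hκ, ← hr2, ← hM0] at hfe
    -- cleared form
    have hcl : ((1 - conj κ * w) * (1 - κ * conj v) - r2 * w * conj v) * (c * w + d) * conj (c * v + d) *
        ((M0 + m1 * w) * conj (M0 + m1 * v)) * M0 =
        (1 - conj κ * w) * (c * w + d) * conj d * conj (u v) * MM a b c d w v * conj (M0 + m1 * v) * M0 +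
        (1 - κ * conj v) * d * conj (c * v + d) * u w * MM a b c d w v * (M0 + m1 * w) * M0 -
        u w * conj (u v) * (d * conj d) * MM a b c d w v * (M0 + m1 * w) * conj (M0 + m1 * v) := by
      have hu1 : u w = ψ 0 / ψ w := rfl
      have hu2 : conj (u v) = conj (ψ 0) / conj (ψ v) := by rw [← map_div₀]
      rw [hu1, hu2]
      set P := ψ w
      set P' := conj (ψ v)
      set p := ψ 0
      set p' := conj (ψ 0)
      set s := c * w + d
      set s' := conj (c * v + d)
      set A := M0 + m1 * w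
      set A' := conj (M0 + m1 * v)
      set Mm := MM a b c d w v
      set C := 1 - conj κ * w
      set C' := 1 - κ * conj v
      field_simp
      field_simp at hfe
      linear_combination hfe
    have hAA : (M0 + m1 * w) * conj (M0 + m1 * v) = M0 * MM a b c d w v + DD * w * conj v := by
      rw [hMexp w v, map_add, map_mul, hM0c]
      have e1 : m1 * conj m1 = DD + M0 * (c * conj c - a * conj a) := by
        rw [hm1, hDD, hM0']
        simp only [map_sub, map_mul, Complex.conj_conj]
        ring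
      linear_combination (w * conj v) * e1
    have hal := alg1 hM0ne hcl hAA
    have hce : conj (e v) = (d * conj d * conj (u v) / M0 * conj (M0 + m1 * v) -
        (1 - κ * conj v) * conj (c * v + d) * d) / (conj v * conj (c * v + d)) := by
      rw [he]
      simp only [map_div₀, map_mul, map_sub, map_one, Complex.conj_conj, hM0c]
      ring
    rw [← hMexp w v, hce]
    have hee : e w = (d * conj d * u w / M0 * (M0 + m1 * w) -
      (1 - conj κ * w) * (c * w + d) * conj d) / (w * (c * w + d)) := rfl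
    rw [hee, div_mul_div_comm, div_mul_eq_mul_div, hal]
    have hB : r2 * (M0 + m1 * w) * conj (M0 + m1 * v) - DD * (1 - conj κ * w) * (1 - κ * conj v) =
        ((r2 * M0 ^ 2 - DD) + (r2 * M0 * m1 + DD * conj κ) * w +
        (r2 * M0 * conj m1 + DD * κ) * conj v +
        (r2 * m1 * conj m1 - DD * (κ * conj κ)) * w * conj v) := by
      rw [map_add, map_mul, hM0c]
      ring
    rw [hB]
    have hne1 : (w * (c * w + d)) * (conj v * conj (c * v + d)) ≠ 0 :=
      mul_ne_zero (mul_ne_zero hw0 hs) (mul_ne_zero hv0' hs')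
    rw [div_eq_iff hne1]
    ring
  have hKne : d * conj d / M0 ≠ 0 := div_ne_zero (mul_ne_zero hd hdc) hM0ne
  have hdet2 : m1 * conj m1 - M0 * (c * conj c - a * conj a) ≠ 0 := by
    have e1 : m1 * conj m1 - M0 * (c * conj c - a * conj a) = DD := by
      rw [hm1, hDD, hM0']
      simp only [map_sub, map_mul, Complex.conj_conj]
      ring
    rw [e1]; exact hDDne
  have hezero : ∀ w : ℂ, w ≠ 0 → ‖w‖ < 1 → e w = 0 := by
    rcases prop_of_factor hKne hdet2 e hid with h | ⟨h1, -, h2⟩
    · exact h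
    · have hb0 := coeffs_zero hdet hφ h1 h2
      rw [← hr2, ← hM0, ← hDD] at hb0
      rw [hb0, zero_mul] at h1
      have hb2 := (mul_eq_zero.1 h1.symm).resolve_right hM0ne
      have hb1 : r2 * M0 * m1 + DD * conj κ = 0 := by
        have := congrArg conj hb2
        simp only [map_add, map_mul, map_zero, hrhc, hM0c, hDDc, Complex.conj_conj] at this
        exact this
      rw [hb0, hb1, hb2, zero_mul, zero_mul, zero_mul, zero_add, zero_add] at h2
      have hb3 := (mul_eq_zero.1 h2.symm).resolve_right hM0ne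
      intro w hw0 hw
      have h3 := hid w w hw0 hw hw0 hw
      rw [hb0, hb1, hb2, hb3] at h3
      simp only [zero_mul, zero_add, mul_zero, ← hMexp w w] at h3
      rcases mul_eq_zero.1 h3 with h4 | h4
      · rcases mul_eq_zero.1 h4 with h5 | h5
        · exact h5
        · exact (map_eq_zero _).1 h5
      · exact absurd h4 (MM_ne hφ hw hw)
  obtain ⟨hb0, hb1, hb2, hb3⟩ := biaff_zero (B0 := r2 * M0 ^ 2 - DD) (B1 := r2 * M0 * m1 + DD * conj κ)
    (B2 := r2 * M0 * conj m1 + DD * κ) (B3 := r2 * m1 * conj m1 - DD * (κ * conj κ)) (by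
      intro w v hw0 hw hv0 hv
      have h3 := hid w v hw0 hw hv0 hv
      rw [hezero w hw0 hw, zero_mul, zero_mul] at h3
      exact (mul_eq_zero.1 h3.symm).resolve_left hKne)
  have hMdl : M0 = dl c d := by
    have e1 : DD / dl c d ^ 2 * ((M0 - dl c d) * (M0 + dl c d)) = 0 := by
      have : DD / dl c d ^ 2 * ((M0 - dl c d) * (M0 + dl c d)) = DD / dl c d ^ 2 * M0 ^ 2 - DD := by
        field_simp
        ring
      rw [this, ← hrh]; exact hb0
    have e2 := (mul_eq_zero.1 e1).resolve_left (div_ne_zero hDDne (pow_ne_zero _ hdl))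
    rcases mul_eq_zero.1 e2 with e3 | e3
    · linear_combination e3
    · exfalso
      have hbd : ‖b‖ < ‖d‖ := by simpa using nl hφ h0
      have n1 := normSq_lt hcd
      have n2 := normSq_lt hbd
      rw [hM0', dl_eq, Complex.mul_conj, Complex.mul_conj] at e3
      have e4 : (Complex.normSq d - Complex.normSq b) + (Complex.normSq d - Complex.normSq c) = 0 := by
        exact_mod_cast e3
      linarith
  have hm1' : m1 = - (M0 * conj κ) := by
    have e1 : DD / M0 * (m1 + M0 * conj κ) = 0 := by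
      have h3 : DD / M0 * (m1 + M0 * conj κ) = r2 * M0 * m1 + DD * conj κ := by
        rw [hrh, ← hMdl]
        field_simp
      rw [h3]; exact hb1
    have e2 := (mul_eq_zero.1 e1).resolve_left (div_ne_zero hDDne hM0ne)
    linear_combination e2
  intro z hz
  have hs := (hφ z hz).1
  by_cases hz0 : z = 0
  · subst hz0
    rw [mul_zero, zero_add]
    field_simp
  have h3 := hezero z hz0 hz
  have h4 : (d * conj d * u z / M0 * (M0 + m1 * z) - (1 - conj κ * z) * (c * z + d) * conj d) = 0 := by
    rcases div_eq_zero_iff.1 h3 with h5 | h5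
    · exact h5
    · exact absurd h5 (mul_ne_zero hz0 hs)
  have hAz := hAne z hz
  have hC : (M0 + m1 * z) = M0 * (1 - conj κ * z) := by rw [hm1']; ring
  rw [hC] at h4 hAz
  have hCne : 1 - conj κ * z ≠ 0 := fun h => hAz (by rw [h, mul_zero])
  have h5 : (conj d * (1 - conj κ * z)) * (d * u z - (c * z + d)) = 0 := by
    have : d * conj d * u z / M0 * (M0 * (1 - conj κ * z)) = d * conj d * u z * (1 - conj κ * z) := by
      field_simp
    rw [this] at h4
    linear_combination h4
  have h6 := (mul_eq_zero.1 h5).resolve_left (mul_ne_zero hdc hCne)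
  have h7 : u z = ψ 0 / ψ z := rfl
  rw [h7] at h6
  have hψz := hψ z hz
  rw [eq_div_iff hs]
  field_simp at h6
  linear_combination (-1) * h6

end Pool.Agent.X301.Wco
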